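import Mathlib

set_option autoImplicit false

namespace Pool.Agent.Helper632

open Matrix

/-- The group `SL_n(ℤ)`. -/
abbrev SLn (n : ℕ) := Matrix.SpecialLinearGroup (Fin n) ℤ

variable {n : ℕ}

/-- the underlying matrix -/
def mat (g : SLn n) : Matrix (Fin n) (Fin n) ℤ := g.val

/-- build an element of `SL_n(ℤ)` -/
def mkSL (A : Matrix (Fin n) (Fin n) ℤ) (h : A.det = 1) : SLn n := ⟨A, h⟩

theorem mat_mkSL (A : Matrix (Fin n) (Fin n) ℤ) (h : A.det = 1) : mat (mkSL A h) = A := rfl

theorem mat_mul (g h : SLn n) : mat (g * h) = mat g * mat h := rfl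

theorem mat_one : mat (1 : SLn n) = 1 := rfl

theorem mat_injective : Function.Injective (mat : SLn n → Matrix (Fin n) (Fin n) ℤ) :=
  fun _ _ h => Subtype.ext h

theorem det_mat (g : SLn n) : (mat g).det = 1 := g.2

/-- action of `SL_n(ℤ)` on column vectors -/
def act (g : SLn n) (v : Fin n → ℤ) : Fin n → ℤ := mat g *ᵥ v

theorem act_mul (g h : SLn n) (v : Fin n → ℤ) : act (g * h) v = act g (act h v) := by
  simp [act, mat_mul, Matrix.mulVec_mulVec]

theorem act_one (v : Fin n → ℤ) : act (1 : SLn n) v = v := by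
  simp [act, mat_one]

theorem act_add (g : SLn n) (v w : Fin n → ℤ) : act g (v + w) = act g v + act g w := by
  simp [act, Matrix.mulVec_add]

theorem act_smul (g : SLn n) (d : ℤ) (v : Fin n → ℤ) : act g (d • v) = d • act g v :=
  Matrix.mulVec_smul _ _ _

theorem act_zero (g : SLn n) : act g (0 : Fin n → ℤ) = 0 := by
  simp [act]

theorem act_inv_act (g : SLn n) (v : Fin n → ℤ) : act g⁻¹ (act g v) = v := by
  rw [← act_mul, inv_mul_cancel, act_one]

theorem act_act_inv (g : SLn n) (v : Fin n → ℤ) : act g (act g⁻¹ v) = v := by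
  rw [← act_mul, mul_inv_cancel, act_one]

theorem act_injective (g : SLn n) : Function.Injective (act g) := by
  intro v w h
  have := congrArg (act g⁻¹) h
  rwa [act_inv_act, act_inv_act] at this

theorem eq_of_act {g h : SLn n} (H : ∀ v, act g v = act h v) : g = h := by
  apply mat_injective
  apply Matrix.toLin'.injective
  apply LinearMap.ext
  intro v
  simpa [act, Matrix.toLin'_apply] using H v

/-- the vector `v` with `v i` replaced by `v i + a * v j` -/
def mv (i j : Fin n) (a : ℤ) (v : Fin n → ℤ) : Fin n → ℤ :=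
  Function.update v i (v i + a * v j)

/-- elementary matrix -/
noncomputable def tv (i j : Fin n) (a : ℤ) : SLn n :=
  if h : i ≠ j then mkSL (Matrix.transvection i j a) (Matrix.det_transvection_of_ne i j h a)
  else 1

theorem mat_tv {i j : Fin n} (h : i ≠ j) (a : ℤ) :
    mat (tv i j a) = Matrix.transvection i j a := by
  unfold tv
  rw [dif_pos h, mat_mkSL]

theorem act_tv {i j : Fin n} (h : i ≠ j) (a : ℤ) (v : Fin n → ℤ) :
    act (tv i j a) v = mv i j a v := by
  unfold act mv
  rw [mat_tv h]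
  simp only [Matrix.transvection, Matrix.add_mulVec, Matrix.one_mulVec]
  ext k
  by_cases hk : k = i
  · subst hk
    simp [Matrix.single, Matrix.mulVec, dotProduct, Finset.sum_ite_eq, Matrix.of_apply]
  · simp [Matrix.single, Matrix.mulVec, dotProduct, hk, Ne.symm hk, Matrix.of_apply]

theorem mv_self {i j : Fin n} (a : ℤ) (v : Fin n → ℤ) : mv i j a v i = v i + a * v j := by
  simp [mv]

theorem mv_ne {i j k : Fin n} (h : k ≠ i) (a : ℤ) (v : Fin n → ℤ) : mv i j a v k = v k := by
  simp [mv, Function.update_of_ne h]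

theorem tv_mul {i j : Fin n} (h : i ≠ j) (a b : ℤ) : tv i j a * tv i j b = tv i j (a + b) := by
  apply eq_of_act
  intro v
  rw [act_mul, act_tv h, act_tv h, act_tv h]
  ext k
  by_cases hk : k = i
  · subst hk
    rw [mv_self, mv_self, mv_self, mv_ne (Ne.symm h)]
    ring
  · rw [mv_ne hk, mv_ne hk, mv_ne hk]

theorem tv_zero (i j : Fin n) : tv i j 0 = 1 := by
  apply eq_of_act
  intro v
  by_cases h : i = j
  · simp [tv, h]
  · rw [act_tv h, act_one]
    ext k
    by_cases hk : k = i
    · subst hk; rw [mv_self]; ring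
    · rw [mv_ne hk]

theorem tv_neg {i j : Fin n} (h : i ≠ j) (a : ℤ) : tv i j (-a) = (tv i j a)⁻¹ := by
  rw [eq_inv_iff_mul_eq_one, tv_mul h, neg_add_cancel, tv_zero]

theorem tv_zpow {i j : Fin n} (h : i ≠ j) (a : ℤ) : tv i j 1 ^ a = tv i j a := by
  induction a using Int.induction_on with
  | zero => simp [tv_zero]
  | succ k ih => rw [_root_.zpow_add_one, ih, tv_mul h]
  | pred k ih => rw [_root_.zpow_sub_one, ih, ← tv_neg h, tv_mul h]; rfl

/-- the signed permutation matrices of determinant one: the orthogonal matrices in `SL_n(ℤ)` -/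
def Fg (n : ℕ) : Subgroup (SLn n) where
  carrier := {g | mat g * (mat g)ᵀ = 1}
  one_mem' := by
    change mat 1 * (mat 1)ᵀ = 1
    simp [mat_one]
  mul_mem' := by
    intro a b ha hb
    change mat (a * b) * (mat (a * b))ᵀ = 1
    change mat a * (mat a)ᵀ = 1 at ha
    change mat b * (mat b)ᵀ = 1 at hb
    rw [mat_mul, Matrix.transpose_mul]
    calc mat a * mat b * ((mat b)ᵀ * (mat a)ᵀ)
          = mat a * (mat b * (mat b)ᵀ) * (mat a)ᵀ := by
          simp only [Matrix.mul_assoc]
      _ = 1 := by rw [hb, Matrix.mul_one, ha]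
  inv_mem' := by
    intro a ha
    change mat a⁻¹ * (mat a⁻¹)ᵀ = 1
    change mat a * (mat a)ᵀ = 1 at ha
    have h1 : mat a⁻¹ = (mat a)ᵀ := by
      have h2 : mat a⁻¹ * mat a = 1 := by
        rw [← mat_mul, inv_mul_cancel, mat_one]
      calc mat a⁻¹ = mat a⁻¹ * (mat a * (mat a)ᵀ) := by rw [ha, Matrix.mul_one]
        _ = (mat a⁻¹ * mat a) * (mat a)ᵀ := by rw [Matrix.mul_assoc]
        _ = (mat a)ᵀ := by rw [h2, Matrix.one_mul]
    rw [h1, Matrix.transpose_transpose]
    exact _root_.mul_eq_one_comm.mp ha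

theorem mem_Fg {g : SLn n} : g ∈ Fg n ↔ mat g * (mat g)ᵀ = 1 := Iff.rfl

/-- sums of squares of integers equal to one -/
theorem sq_sum_one {ι : Type} [Fintype ι] [DecidableEq ι] (w : ι → ℤ) (h : ∑ k, w k * w k = 1) :
    ∃ k, (w k = 1 ∨ w k = -1) ∧ ∀ l, l ≠ k → w l = 0 := by
  have h0 : ∃ k, w k ≠ 0 := by
    by_contra hcon
    push Not at hcon
    simp [hcon] at h
  obtain ⟨k, hk⟩ := h0
  have h1 : ∑ l ∈ Finset.univ.erase k, w l * w l + w k * w k = 1 := by
    rw [Finset.sum_erase_add _ _ (Finset.mem_univ k)]; exact h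
  have h2 : 0 ≤ ∑ l ∈ Finset.univ.erase k, w l * w l :=
    Finset.sum_nonneg (fun l _ => mul_self_nonneg _)
  have h3 : 1 ≤ w k * w k := by
    have : 0 < w k * w k := mul_self_pos.mpr hk
    omega
  have h4 : w k * w k = 1 := by omega
  have h5 : ∑ l ∈ Finset.univ.erase k, w l * w l = 0 := by omega
  refine ⟨k, ?_, ?_⟩
  · exact mul_self_eq_one_iff.mp h4
  · intro l hl
    have := (Finset.sum_eq_zero_iff_of_nonneg (fun l _ => mul_self_nonneg _)).mp h5 l
      (Finset.mem_erase.mpr ⟨hl, Finset.mem_univ l⟩)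
    exact mul_self_eq_zero.mp this

/-- every element of `Fg n` is a signed permutation -/
theorem signed_perm (f : SLn n) (hf : f ∈ Fg n) :
    ∃ (σ : Equiv.Perm (Fin n)) (ε : Fin n → ℤ), (∀ i, ε i = 1 ∨ ε i = -1) ∧
      ∀ v i, act f v (σ i) = ε i * v i := by
  -- use rows of f
  have hr : ∀ i, ∑ k, mat f i k * mat f i k = 1 := by
    intro i
    have := congrFun (congrFun (mem_Fg.mp hf) i) i
    simpa [Matrix.mul_apply, Matrix.transpose_apply] using this
  have hr' : ∀ i j, i ≠ j → ∑ k, mat f i k * mat f j k = 0 := by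
    intro i j hij
    have := congrFun (congrFun (mem_Fg.mp hf) i) j
    simpa [Matrix.mul_apply, Matrix.transpose_apply, Matrix.one_apply_ne hij] using this
  choose τ hτ1 hτ2 using fun i => sq_sum_one _ (hr i)
  have hinj : Function.Injective τ := by
    intro i j hij
    by_contra hne
    have h := hr' i j hne
    rw [Finset.sum_eq_single (τ i)] at h
    · have h1 := hτ1 i
      have h2 := hτ1 j
      rw [← hij] at h2
      rcases h1 with h1 | h1 <;> rcases h2 with h2 | h2 <;> rw [h1, h2] at h <;> omega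
    · intro b _ hb
      rw [hτ2 i b hb]; ring
    · intro h'; exact absurd (Finset.mem_univ _) h'
  have hbij : Function.Bijective τ := Finite.injective_iff_bijective.mp hinj
  let τe : Equiv.Perm (Fin n) := Equiv.ofBijective τ hbij
  refine ⟨τe.symm, fun i => mat f (τe.symm i) i, ?_, ?_⟩
  · intro i
    have h := hτ1 (τe.symm i)
    have h2 : τ (τe.symm i) = i := Equiv.ofBijective_apply_symm_apply τ hbij i
    rw [h2] at h
    exact h
  · intro v i
    have h2 : τ (τe.symm i) = i := Equiv.ofBijective_apply_symm_apply τ hbij i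
    unfold act
    simp only [Matrix.mulVec, dotProduct]
    rw [Finset.sum_eq_single i]
    · intro b _ hb
      rw [hτ2 (τe.symm i) b (by rw [h2]; exact hb)]; ring
    · intro h'; exact absurd (Finset.mem_univ _) h'

/-- norm -/
def nrm (v : Fin n → ℤ) : ℕ := ∑ i, (v i).natAbs

theorem nrm_mv (i j : Fin n) (a : ℤ) (v : Fin n → ℤ) :
    nrm (mv i j a v) + (v i).natAbs = nrm v + (v i + a * v j).natAbs := by
  unfold nrm
  rw [← Finset.add_sum_erase _ _ (Finset.mem_univ i), ← Finset.add_sum_erase _ (fun i => (v i).natAbs) (Finset.mem_univ i)]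
  have : ∑ x ∈ Finset.univ.erase i, (mv i j a v x).natAbs = ∑ x ∈ Finset.univ.erase i, (v x).natAbs := by
    apply Finset.sum_congr rfl
    intro x hx
    rw [mv_ne (Finset.ne_of_mem_erase hx)]
  rw [this, mv_self]
  omega

theorem nrm_act_Fg (f : SLn n) (hf : f ∈ Fg n) (v : Fin n → ℤ) : nrm (act f v) = nrm v := by
  obtain ⟨σ, ε, hε, h⟩ := signed_perm f hf
  unfold nrm
  rw [← Equiv.sum_comp σ]
  apply Finset.sum_congr rfl
  intro i _
  rw [h, Int.natAbs_mul]
  rcases hε i with h1 | h1 <;> simp [h1]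

/-- the matrix acting as `(v_i, v_j) ↦ (v_j, - v_i)` -/
noncomputable def om (i j : Fin n) : SLn n := tv i j 1 * (tv j i 1)⁻¹ * tv i j 1

theorem act_om {i j : Fin n} (h : i ≠ j) (v : Fin n → ℤ) :
    act (om i j) v = Function.update (Function.update v i (v j)) j (- v i) := by
  unfold om
  rw [act_mul, act_mul, ← tv_neg (Ne.symm h), act_tv h, act_tv (Ne.symm h), act_tv h]
  ext k
  by_cases hki : k = i
  · subst hki
    rw [Function.update_of_ne h, Function.update_self, mv_self, mv_ne h, mv_self, mv_self,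
      mv_ne (Ne.symm h), mv_self]
    ring
  · by_cases hkj : k = j
    · subst hkj
      rw [mv_ne hki, mv_self, mv_self, mv_ne hki, Function.update_self]
      ring
    · rw [mv_ne hki, mv_ne hkj, mv_ne hki, Function.update_of_ne hkj, Function.update_of_ne hki]

theorem mat_apply_eq_act (g : SLn n) (i k : Fin n) : mat g i k = act g (Pi.single k 1) i := by
  unfold act
  rw [Matrix.mulVec_single_one]
  rfl

theorem mem_Fg_of_signed (g : SLn n) (σ : Equiv.Perm (Fin n)) (ε : Fin n → ℤ)
    (hε : ∀ i, ε i = 1 ∨ ε i = -1) (h : ∀ v i, act g v (σ i) = ε i * v i) : g ∈ Fg n := by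
  rw [mem_Fg]
  have h1 : ∀ i k, mat g (σ i) k = ε i * (if i = k then 1 else 0) := by
    intro i k
    rw [mat_apply_eq_act, h, Pi.single_apply]
  ext i j
  obtain ⟨i', rfl⟩ := σ.surjective i
  obtain ⟨j', rfl⟩ := σ.surjective j
  rw [Matrix.mul_apply]
  simp only [Matrix.transpose_apply, h1]
  by_cases hij : i' = j'
  · subst hij
    rw [Finset.sum_eq_single i']
    · rcases hε i' with h2 | h2 <;> simp [h2]
    · intro b _ hb
      simp [Ne.symm hb]
    · intro h'; exact absurd (Finset.mem_univ _) h'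
  · rw [Matrix.one_apply_ne (fun h' => hij (σ.injective h'))]
    apply Finset.sum_eq_zero
    intro k _
    by_cases h2 : i' = k
    · subst h2
      simp [Ne.symm hij]
    · simp [h2]

/-- signs of `om i j` -/
def omε (i : Fin n) : Fin n → ℤ := fun k => if k = i then -1 else 1

theorem omε_unit (i : Fin n) : ∀ k, omε i k = 1 ∨ omε i k = -1 := by
  intro k
  unfold omε
  split_ifs <;> simp

theorem om_signed {i j : Fin n} (h : i ≠ j) (v : Fin n → ℤ) (k : Fin n) :
    act (om i j) v (Equiv.swap i j k) = omε i k * v k := by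
  rw [act_om h]
  unfold omε
  by_cases hki : k = i
  · subst hki
    rw [Equiv.swap_apply_left, Function.update_self]
    simp
  · by_cases hkj : k = j
    · subst hkj
      rw [Equiv.swap_apply_right, Function.update_of_ne h, Function.update_self]
      simp [hki]
    · rw [Equiv.swap_apply_of_ne_of_ne hki hkj, Function.update_of_ne hkj,
        Function.update_of_ne hki]
      simp [hki]

theorem om_mem {i j : Fin n} (h : i ≠ j) : om i j ∈ Fg n :=
  mem_Fg_of_signed _ (Equiv.swap i j) (omε i) (omε_unit i) (om_signed h)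

end Pool.Agent.Helper632
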