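import Mathlib

set_option autoImplicit false

namespace Pool.Agent.Helper632

/-- A group extension of `Γ` by a rational vector space `V`, written additively. -/
structure ExtData (Γ E V : Type) [Group Γ] [Group E] [AddCommGroup V] [Module ℚ V] where
  p : E →* Γ
  i : V → E
  ρ : Γ →* Module.End ℚ V
  i_add : ∀ v w, i (v + w) = i v * i w
  i_inj : Function.Injective i
  p_surj : Function.Surjective p
  p_i : ∀ v, p (i v) = 1
  ker : ∀ y, p y = 1 → ∃ v, i v = y
  conj : ∀ y v, y * i v = i (ρ (p y) v) * y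

namespace ExtData

variable {Γ E V : Type} [Group Γ] [Group E] [AddCommGroup V] [Module ℚ V] (X : ExtData Γ E V)

theorem i_zero : X.i 0 = 1 := by
  have h := X.i_add 0 0
  rw [add_zero] at h
  exact (mul_eq_left.mp h.symm)

theorem i_neg (v : V) : X.i (-v) = (X.i v)⁻¹ := by
  rw [eq_inv_iff_mul_eq_one, ← X.i_add, neg_add_cancel, X.i_zero]

theorem i_comm (v w : V) : X.i v * X.i w = X.i w * X.i v := by
  rw [← X.i_add, ← X.i_add, add_comm]

theorem exists_of_eq {y z : E} (h : X.p y = X.p z) : ∃ v, y = X.i v * z := by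
  obtain ⟨v, hv⟩ := X.ker (y * z⁻¹) (by rw [map_mul, map_inv, h, mul_inv_cancel])
  exact ⟨v, by rw [hv, inv_mul_cancel_right]⟩

theorem ρ_mul (a b : Γ) (v : V) : X.ρ (a * b) v = X.ρ a (X.ρ b v) := by
  rw [map_mul]; rfl

theorem ρ_one (v : V) : X.ρ 1 v = v := by
  rw [map_one]; rfl

theorem i_mul_cancel {v w : V} {y : E} (h : X.i v * y = X.i w * y) : v = w :=
  X.i_inj (mul_right_cancel h)

/-- finite subgroups lift -/
theorem lift_finite (F : Subgroup Γ) [Finite F] : ∃ s : F →* E, ∀ f : F, X.p (s f) = f := by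
  classical
  have := Fintype.ofFinite F
  choose y hy using fun f : F => X.p_surj (f : Γ)
  have hc : ∀ f g : F, ∃ c, y f * y g = X.i c * y (f * g) := by
    intro f g
    apply X.exists_of_eq
    rw [map_mul, hy, hy, hy]; rfl
  choose c hc using hc
  have hcoc : ∀ f g h : F, c f g + c (f * g) h = X.ρ (f : Γ) (c g h) + c f (g * h) := by
    intro f g h
    have e1 : y f * y g * y h = X.i (c f g + c (f * g) h) * y (f * g * h) := by
      rw [hc, mul_assoc, hc, ← mul_assoc, X.i_add]
    have e2 : y f * (y g * y h) = X.i (X.ρ (f : Γ) (c g h) + c f (g * h)) * y (f * (g * h)) := by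
      rw [hc g h, ← mul_assoc, X.conj, hy, mul_assoc, hc f (g * h), ← mul_assoc, X.i_add]
    rw [mul_assoc, e2, mul_assoc f g h] at e1
    exact (X.i_mul_cancel e1).symm
  set N : ℚ := (Fintype.card F : ℚ) with hN
  have hN0 : N ≠ 0 := by
    rw [hN]; exact_mod_cast Fintype.card_ne_zero
  let B : F → V := fun f => ∑ h, c f h
  have hB : ∀ f g : F, N • c f g + B (f * g) = X.ρ (f : Γ) (B g) + B f := by
    intro f g
    have h1 : ∑ h, (c f g + c (f * g) h) = ∑ h, (X.ρ (f : Γ) (c g h) + c f (g * h)) :=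
      Finset.sum_congr rfl (fun h _ => hcoc f g h)
    rw [Finset.sum_add_distrib, Finset.sum_add_distrib, Finset.sum_const, Finset.card_univ,
      ← map_sum] at h1
    have h2 : ∑ h, c f (g * h) = ∑ h, c f h :=
      Fintype.sum_equiv (Equiv.mulLeft g) _ _ (fun h => rfl)
    rw [h2] at h1
    rw [hN, ← h1]
    congr 1
    rw [← Nat.cast_smul_eq_nsmul ℚ]
  let b : F → V := fun f => N⁻¹ • B f
  have hb : ∀ f g : F, c f g + b (f * g) = X.ρ (f : Γ) (b g) + b f := by
    intro f g
    have h1 := congrArg (fun t => N⁻¹ • t) (hB f g)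
    simp only [smul_add] at h1
    rw [inv_smul_smul₀ hN0] at h1
    rw [← LinearMap.map_smul] at h1
    exact h1
  have hs : ∀ f g : F, X.i (-(b f)) * y f * (X.i (-(b g)) * y g) = X.i (-(b (f * g))) * y (f * g) := by
    intro f g
    calc X.i (-(b f)) * y f * (X.i (-(b g)) * y g)
        = X.i (-(b f)) * (y f * X.i (-(b g))) * y g := by group
      _ = X.i (-(b f)) * (X.i (X.ρ (f : Γ) (-(b g))) * y f) * y g := by rw [X.conj, hy]
      _ = (X.i (-(b f)) * X.i (X.ρ (f : Γ) (-(b g)))) * (y f * y g) := by group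
      _ = (X.i (-(b f)) * X.i (X.ρ (f : Γ) (-(b g)))) * X.i (c f g) * y (f * g) := by
          rw [hc]; group
      _ = X.i (-(b f) + X.ρ (f : Γ) (-(b g)) + c f g) * y (f * g) := by
          rw [X.i_add, X.i_add]
      _ = X.i (-(b (f * g))) * y (f * g) := by
          congr 2
          have := hb f g
          have h3 : c f g = X.ρ (f : Γ) (b g) + b f - b (f * g) := by
            rw [← this]; abel
          rw [h3, map_neg]; abel
  refine ⟨MonoidHom.mk' (fun f => X.i (-(b f)) * y f) (fun f g => (hs f g).symm), ?_⟩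
  intro f
  change X.p (X.i (-(b f)) * y f) = f
  rw [map_mul, X.p_i, one_mul, hy]

/-- a finite group acting affinely on a fibre has a fixed point -/
theorem fixed_point (T : Type) [Group T] [Finite T] (γ : Γ) (θ : T → E → E)
    (l : T → Module.End ℚ V) (h1 : ∀ t y, X.p y = γ → X.p (θ t y) = γ)
    (h2 : ∀ t y v, X.p y = γ → θ t (X.i v * y) = X.i (l t v) * θ t y)
    (h3 : ∀ t u y, X.p y = γ → θ (t * u) y = θ t (θ u y)) :
    ∃ y, X.p y = γ ∧ ∀ t, θ t y = y := by
  classical
  have := Fintype.ofFinite T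
  obtain ⟨y0, hy0⟩ := X.p_surj γ
  have ha : ∀ t, ∃ a, θ t y0 = X.i a * y0 := by
    intro t
    apply X.exists_of_eq
    rw [h1 t y0 hy0, hy0]
  choose a ha using ha
  have hco : ∀ u t, a (u * t) = l u (a t) + a u := by
    intro u t
    have e : X.i (a (u * t)) * y0 = X.i (l u (a t) + a u) * y0 := by
      rw [← ha, h3 u t y0 hy0, ha t, h2 u y0 _ hy0, ha u, ← mul_assoc, X.i_add]
    exact X.i_mul_cancel e
  set N : ℚ := (Fintype.card T : ℚ) with hN
  have hN0 : N ≠ 0 := by
    rw [hN]; exact_mod_cast Fintype.card_ne_zero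
  let A : V := N⁻¹ • ∑ t, a t
  have hA : ∀ u, A = l u A + a u := by
    intro u
    have e1 : ∑ t, a t = ∑ t, (l u (a t) + a u) := by
      rw [← Fintype.sum_equiv (Equiv.mulLeft u) (fun t => a (u * t)) a (fun t => rfl)]
      exact Finset.sum_congr rfl (fun t _ => hco u t)
    rw [Finset.sum_add_distrib, ← map_sum, Finset.sum_const, Finset.card_univ] at e1
    have e2 := congrArg (fun t => N⁻¹ • t) e1
    simp only [smul_add] at e2
    have e3 : l u A = N⁻¹ • l u (∑ t, a t) := LinearMap.map_smul _ _ _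
    have e4 : N⁻¹ • Fintype.card T • a u = a u := by
      rw [← Nat.cast_smul_eq_nsmul ℚ, ← hN, inv_smul_smul₀ hN0]
    rw [e3]
    rw [e4] at e2
    exact e2
  refine ⟨X.i A * y0, by rw [map_mul, X.p_i, one_mul, hy0], ?_⟩
  intro u
  rw [h2 u y0 _ hy0, ha u, ← mul_assoc, ← X.i_add, ← hA u]

end ExtData

end Pool.Agent.Helper632
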