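import Mathlib
import Pool.Agent.Helper632.Basic

set_option autoImplicit false

namespace Pool.Agent.Helper632

/-- `v` admits the norm-decreasing move adding `a * v j` to `v i` -/
def Proper {n : ℕ} (v : Fin n → ℤ) (i j : Fin n) (a : ℤ) : Prop :=
  i ≠ j ∧ (a = 1 ∨ a = -1) ∧ v j ≠ 0 ∧ (v i + a * v j).natAbs + (v j).natAbs = (v i).natAbs

/-- Steinberg-type data in a group `E` over `SL_n(ℤ)` -/
structure StData (n : ℕ) (E : Type) [Group E] where
  π : E →* SLn n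
  x : Fin n → Fin n → E
  s : Fg n →* E
  hx : ∀ i j, i ≠ j → π (x i j) = tv i j 1
  hs : ∀ f : Fg n, π (s f) = (f : SLn n)
  hcomm : ∀ i j k l, i ≠ j → k ≠ l → j ≠ k → i ≠ l → x i j * x k l = x k l * x i j
  hst : ∀ i j k, i ≠ j → j ≠ k → i ≠ k → x i j * x j k = x i k * x j k * x i j
  hF : ∀ (f : Fg n) (σ : Equiv.Perm (Fin n)) (ε : Fin n → ℤ), (∀ i, ε i = 1 ∨ ε i = -1) →
    (∀ v i, act (f : SLn n) v (σ i) = ε i * v i) →
    ∀ i j, i ≠ j → s f * x i j * (s f)⁻¹ = x (σ i) (σ j) ^ (ε i * ε j)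
  hw : ∀ i j, i ≠ j → ∀ f : Fg n, (f : SLn n) = om i j → s f = x i j * (x j i)⁻¹ * x i j

namespace StData

variable {n : ℕ} {E : Type} [Group E] (D : StData n E)

/-- generators at level `b` -/
def Hgen (b : Fin n) : Set E :=
  {y | (∃ i j, i ≠ j ∧ i ≤ b ∧ j ≤ b ∧ y = D.x i j) ∨
    ∃ f : Fg n, (∀ v k, b < k → act (f : SLn n) v k = v k) ∧ y = D.s f}

/-- generators of the stabiliser at level `b` -/
def Pgen (b : Fin n) : Set E :=
  {y | (∃ i j, i ≠ j ∧ i ≤ b ∧ j < b ∧ y = D.x i j) ∨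
    ∃ f : Fg n, (∀ v k, b ≤ k → act (f : SLn n) v k = v k) ∧ y = D.s f}

def H (b : Fin n) : Subgroup E := Subgroup.closure (D.Hgen b)

def P (b : Fin n) : Subgroup E := Subgroup.closure (D.Pgen b)

/-- general commutation of powers -/
theorem comm_zpow (i j k l : Fin n) (h1 : i ≠ j) (h2 : k ≠ l) (h3 : j ≠ k) (h4 : i ≠ l) (a b : ℤ) :
    D.x i j ^ a * D.x k l ^ b = D.x k l ^ b * D.x i j ^ a :=
  (Commute.zpow_zpow (D.hcomm i j k l h1 h2 h3 h4) a b)

theorem st_zpow (i j k : Fin n) (h1 : i ≠ j) (h2 : j ≠ k) (h3 : i ≠ k) (a b : ℤ) :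
    D.x i j ^ a * D.x j k ^ b = D.x i k ^ (a * b) * D.x j k ^ b * D.x i j ^ a := by
  have c1 : Commute (D.x i k) (D.x j k) := D.hcomm i k j k h3 h2 (Ne.symm h2) h3
  have c2 : Commute (D.x i k) (D.x i j) := D.hcomm i k i j h3 h1 (Ne.symm h3) h1
  -- first power in the second variable
  have e1 : D.x i j * D.x j k * (D.x i j)⁻¹ = D.x i k * D.x j k := by
    rw [D.hst i j k h1 h2 h3]; group
  have e2 : ∀ b : ℤ, D.x i j * D.x j k ^ b * (D.x i j)⁻¹ = D.x i k ^ b * D.x j k ^ b := by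
    intro b
    rw [← c1.mul_zpow, ← e1, conj_zpow]
  have e3 : ∀ b : ℤ, (D.x j k ^ b)⁻¹ * D.x i j * (D.x j k ^ b) = D.x i k ^ b * D.x i j := by
    intro b
    have h := e2 b
    have h' : D.x i j * D.x j k ^ b = D.x i k ^ b * D.x j k ^ b * D.x i j := by
      rw [← h]; group
    rw [mul_assoc, h', (c1.zpow_zpow b b).eq]
    group
  have e4 : (D.x j k ^ b)⁻¹ * D.x i j ^ a * (D.x j k ^ b) = D.x i k ^ (a * b) * D.x i j ^ a := by
    have h := e3 b
    have h5 : (D.x j k ^ b)⁻¹ * D.x i j ^ a * (D.x j k ^ b) =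
        ((D.x j k ^ b)⁻¹ * D.x i j * (D.x j k ^ b)) ^ a := by
      have := conj_zpow (a := (D.x j k ^ b)⁻¹) (b := D.x i j) (i := a)
      rw [inv_inv] at this
      exact this.symm
    rw [h5, h, (c2.zpow_left b).mul_zpow, ← zpow_mul, mul_comm b a]
  calc D.x i j ^ a * D.x j k ^ b
      = D.x j k ^ b * ((D.x j k ^ b)⁻¹ * D.x i j ^ a * (D.x j k ^ b)) := by group
    _ = D.x j k ^ b * (D.x i k ^ (a * b) * D.x i j ^ a) := by rw [e4]
    _ = D.x i k ^ (a * b) * D.x j k ^ b * D.x i j ^ a := by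
        rw [← mul_assoc, (c1.zpow_zpow (a * b) b).eq]


end StData

section moves

variable {n : ℕ}

theorem mv_apply (i j : Fin n) (a : ℤ) (v : Fin n → ℤ) (k : Fin n) :
    mv i j a v k = if k = i then v i + a * v j else v k := by
  unfold mv
  rw [Function.update_apply]

theorem mv_inv {i j : Fin n} (h : i ≠ j) (a : ℤ) (v : Fin n → ℤ) :
    mv i j (-a) (mv i j a v) = v := by
  rw [← act_tv h, ← act_tv h, ← act_mul, tv_mul h, neg_add_cancel, tv_zero, act_one]

theorem mv_inv' {i j : Fin n} (h : i ≠ j) (a : ℤ) (v : Fin n → ℤ) :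
    mv i j a (mv i j (-a) v) = v := by
  rw [← act_tv h, ← act_tv h, ← act_mul, tv_mul h, add_neg_cancel, tv_zero, act_one]

theorem mv_ne_zero {i j : Fin n} (h : i ≠ j) (a : ℤ) {v : Fin n → ℤ} (hv : v ≠ 0) :
    mv i j a v ≠ 0 := by
  rw [← act_tv h]
  intro h0
  apply hv
  apply act_injective (tv i j a)
  rw [h0, act_zero]

theorem act_ne_zero (g : SLn n) {v : Fin n → ℤ} (hv : v ≠ 0) : act g v ≠ 0 := by
  intro h0
  apply hv
  apply act_injective g
  rw [h0, act_zero]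

/-- support in indices at most `b` -/
def Supp (b : Fin n) (v : Fin n → ℤ) : Prop := ∀ k, b < k → v k = 0

theorem Supp.mv {b : Fin n} {v : Fin n → ℤ} (h : Supp b v) {i j : Fin n} (hi : i ≤ b) (a : ℤ) :
    Supp b (mv i j a v) := by
  intro k hk
  rw [mv_ne]
  · exact h k hk
  · rintro rfl; exact absurd hk (not_lt.mpr hi)

theorem Supp.act {b : Fin n} {v : Fin n → ℤ} (h : Supp b v) (f : Fg n)
    (hf : ∀ v k, b < k → act (f : SLn n) v k = v k) : Supp b (act (f : SLn n) v) := by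
  intro k hk
  rw [hf v k hk]
  exact h k hk

theorem Supp.le {b : Fin n} {v : Fin n → ℤ} (h : Supp b v) {k : Fin n} (hk : v k ≠ 0) : k ≤ b := by
  by_contra hcon
  exact hk (h k (not_le.mp hcon))

theorem Proper.ne {v : Fin n → ℤ} {i j : Fin n} {a : ℤ} (h : Proper v i j a) : i ≠ j := h.1

theorem Proper.unit {v : Fin n → ℤ} {i j : Fin n} {a : ℤ} (h : Proper v i j a) :
    a = 1 ∨ a = -1 := h.2.1

theorem Proper.vj {v : Fin n → ℤ} {i j : Fin n} {a : ℤ} (h : Proper v i j a) : v j ≠ 0 := h.2.2.1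

theorem Proper.vi {v : Fin n → ℤ} {i j : Fin n} {a : ℤ} (h : Proper v i j a) : v i ≠ 0 := by
  have h1 := h.2.2.1
  have h2 := h.2.2.2
  intro h0
  rw [h0] at h2
  omega

theorem Proper.nrm_lt {v : Fin n → ℤ} {i j : Fin n} {a : ℤ} (h : Proper v i j a) :
    nrm (mv i j a v) < nrm v := by
  have h1 := h.2.2.1
  have h2 := h.2.2.2
  have h3 := nrm_mv i j a v
  omega

theorem exists_proper {v : Fin n → ℤ} {i j : Fin n} (hij : i ≠ j) (hi : v i ≠ 0) (hj : v j ≠ 0)
    (hle : (v j).natAbs ≤ (v i).natAbs) : ∃ a, Proper v i j a := by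
  by_cases h : (v i + v j).natAbs + (v j).natAbs = (v i).natAbs
  · exact ⟨1, hij, Or.inl rfl, hj, by rw [one_mul]; exact h⟩
  · refine ⟨-1, hij, Or.inr rfl, hj, ?_⟩
    omega

theorem proper_eq {v : Fin n → ℤ} {i j : Fin n} {a a' : ℤ} (h : Proper v i j a)
    (h' : Proper v i j a') : a = a' := by
  obtain ⟨_, ha, h1, h2⟩ := h
  obtain ⟨_, ha', _, h2'⟩ := h'
  rcases ha with rfl | rfl <;> rcases ha' with rfl | rfl <;> first | rfl | (exfalso; omega)

theorem mv_comm {i j k l : Fin n} (a b : ℤ) (v : Fin n → ℤ) (h1 : i ≠ k) (h2 : i ≠ l) (h3 : k ≠ j) :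
    mv k l b (mv i j a v) = mv i j a (mv k l b v) := by
  ext t
  rw [mv_apply k l b, mv_apply i j a (mv k l b v)]
  by_cases ht : t = k
  · subst ht
    rw [if_pos rfl, if_neg (Ne.symm h1), mv_ne (Ne.symm h1), mv_ne (Ne.symm h2), mv_self]
  · by_cases hti : t = i
    · subst hti
      rw [if_neg ht, if_pos rfl, mv_self, mv_ne ht, mv_ne (Ne.symm h3)]
    · rw [if_neg ht, if_neg hti, mv_ne hti, mv_ne ht]

/-- the hexagon-type identity for the Steinberg relation -/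
theorem mv_st {i j l : Fin n} (a b : ℤ) (v : Fin n → ℤ) (h1 : i ≠ j) (h2 : j ≠ l) (h3 : i ≠ l) :
    mv j l b (mv i j a v) = mv i l (-(a * b)) (mv i j a (mv j l b v)) := by
  ext t
  rw [mv_apply, mv_apply i l]
  by_cases ht : t = j
  · subst ht
    rw [if_pos rfl, if_neg (Ne.symm h1), mv_ne (Ne.symm h1), mv_ne (Ne.symm h3),
      mv_ne (Ne.symm h1), mv_self]
  · by_cases hti : t = i
    · subst hti
      rw [if_neg ht, if_pos rfl, mv_self, mv_self, mv_self, mv_ne (Ne.symm h3), mv_ne (Ne.symm h2),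
        mv_ne ht]
      ring
    · rw [if_neg ht, if_neg hti, mv_ne hti, mv_ne hti, mv_ne ht]

end moves

namespace StData

variable {n : ℕ} {E : Type} [Group E] (D : StData n E)

open Classical in
/-- value of the coset function at vectors without a proper move -/
noncomputable def base (b : Fin n) (v : Fin n → ℤ) : E ⧸ D.P b :=
  if h : ∃ f : Fg n, (∀ v k, b < k → act (f : SLn n) v k = v k) ∧
      ∃ d : ℤ, 0 < d ∧ v = d • act (f : SLn n) (Pi.single b 1) then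
    (D.s h.choose : E ⧸ D.P b)
  else ((1 : E) : E ⧸ D.P b)

open Classical in
/-- the coset function -/
noncomputable def c (b : Fin n) (v : Fin n → ℤ) : E ⧸ D.P b :=
  if h : ∃ t : Fin n × Fin n × ℤ, Proper v t.1 t.2.1 t.2.2 then
    (D.x h.choose.1 h.choose.2.1 ^ h.choose.2.2)⁻¹ •
      c b (mv h.choose.1 h.choose.2.1 h.choose.2.2 v)
  else D.base b v
termination_by nrm v
decreasing_by exact h.choose_spec.nrm_lt

theorem c_of_proper (b : Fin n) (v : Fin n → ℤ) {i j : Fin n} {a : ℤ} (h : Proper v i j a) :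
    ∃ i' j' a', Proper v i' j' a' ∧ D.c b v = (D.x i' j' ^ a')⁻¹ • D.c b (mv i' j' a' v) := by
  have h' : ∃ t : Fin n × Fin n × ℤ, Proper v t.1 t.2.1 t.2.2 := ⟨(i, j, a), h⟩
  refine ⟨h'.choose.1, h'.choose.2.1, h'.choose.2.2, h'.choose_spec, ?_⟩
  rw [c, dif_pos h']

theorem c_of_not_proper (b : Fin n) (v : Fin n → ℤ) (h : ∀ i j a, ¬ Proper v i j a) :
    D.c b v = D.base b v := by
  rw [c, dif_neg]
  rintro ⟨t, ht⟩
  exact h _ _ _ ht

end StData

end Pool.Agent.Helper632
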