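import Mathlib
import Pool.Agent.Helper632.Peak

set_option autoImplicit false

namespace Pool.Agent.Helper632

namespace StData

variable {n : ℕ} {E : Type} [Group E] (D : StData n E)

/-- the equivariance statement at `v` -/
def Good (b : Fin n) (v : Fin n → ℤ) : Prop :=
  (∀ i j a, i ≤ b → j ≤ b → i ≠ j → (a = 1 ∨ a = -1) → nrm (mv i j a v) ≤ nrm v →
    D.c b (mv i j a v) = D.x i j ^ a • D.c b v) ∧
  (∀ f : Fg n, (∀ v k, b < k → act (f : SLn n) v k = v k) →
    D.c b (act (f : SLn n) v) = D.s f • D.c b v)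

def Below (b : Fin n) (N : ℕ) : Prop :=
  ∀ v, nrm v < N → v ≠ 0 → Supp b v → D.Good b v

variable {D}

theorem Below.move {b : Fin n} {N : ℕ} (h : D.Below b N) {v : Fin n → ℤ} {i j : Fin n} {a : ℤ}
    (hv : v ≠ 0) (hs : Supp b v) (hi : i ≤ b) (hj : j ≤ b) (hij : i ≠ j) (ha : a = 1 ∨ a = -1)
    (hn : nrm v < N) (hn' : nrm (mv i j a v) < N) :
    D.c b (mv i j a v) = D.x i j ^ a • D.c b v := by
  by_cases hle : nrm (mv i j a v) ≤ nrm v
  · exact (h v hn hv hs).1 i j a hi hj hij ha hle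
  · have h1 := (h (mv i j a v) hn' (mv_ne_zero hij a hv) (hs.mv hi a)).1 i j (-a) hi hj hij
      (by rcases ha with rfl | rfl <;> simp) (by rw [mv_inv hij]; omega)
    rw [mv_inv hij] at h1
    rw [h1, zpow_neg, smul_inv_smul]

theorem Below.triv {b : Fin n} {N : ℕ} (h : D.Below b N) {v : Fin n → ℤ} {i j : Fin n} {a : ℤ}
    (hv : v ≠ 0) (hs : Supp b v) (hi : i ≤ b) (hj : j ≤ b) (hij : i ≠ j) (ha : a = 1 ∨ a = -1)
    (hn : nrm v < N) (h0 : v j = 0) : D.x i j ^ a • D.c b v = D.c b v := by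
  have h1 : mv i j a v = v := by
    ext k
    rw [mv_apply]
    split_ifs with hk
    · rw [h0, hk]; ring
    · rfl
  have h2 := h.move (a := a) hv hs hi hj hij ha hn (by rw [h1]; exact hn)
  rw [h1] at h2
  exact h2.symm

theorem R_comm {b : Fin n} {N : ℕ} (h : D.Below b N) {v : Fin n → ℤ} {i j k l : Fin n} {a a' : ℤ}
    (hv : v ≠ 0) (hs : Supp b v) (hN : nrm v = N)
    (h1 : Proper v i j a) (h2 : Proper v k l a') (hik : i ≠ k) (hil : i ≠ l) (hkj : k ≠ j) :
    (D.x i j ^ a)⁻¹ • D.c b (mv i j a v) = (D.x k l ^ a')⁻¹ • D.c b (mv k l a' v) := by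
  have hi := hs.le h1.vi
  have hj := hs.le h1.vj
  have hk := hs.le h2.vi
  have hl := hs.le h2.vj
  have n1 := h1.nrm_lt
  have n2 := h2.nrm_lt
  have hu : mv k l a' (mv i j a v) = mv i j a (mv k l a' v) := mv_comm a a' v hik hil hkj
  have n3 : nrm (mv k l a' (mv i j a v)) < N := by
    have e := nrm_mv k l a' (mv i j a v)
    rw [mv_ne (Ne.symm hik), mv_ne (Ne.symm hil)] at e
    have := h2.2.2.2
    omega
  have e1 := h.move (a := a') (mv_ne_zero h1.ne a hv) (hs.mv hi a) hk hl h2.ne h2.unit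
    (by omega) n3
  have e2 := h.move (a := a) (mv_ne_zero h2.ne a' hv) (hs.mv hk a') hi hj h1.ne h1.unit
    (by omega) (by rw [← hu]; exact n3)
  rw [← hu, e1] at e2
  have e3 : D.c b (mv i j a v) = (D.x k l ^ a')⁻¹ • D.x i j ^ a • D.c b (mv k l a' v) := by
    rw [← e2, inv_smul_smul]
  rw [e3, ← mul_smul, ← mul_smul]
  have e4 : (D.x i j ^ a)⁻¹ * ((D.x k l ^ a')⁻¹ * D.x i j ^ a) = (D.x k l ^ a')⁻¹ := by
    have e5 := D.comm_zpow i j k l h1.ne h2.ne (Ne.symm hkj) hil a a'
    have e6 : (D.x k l ^ a')⁻¹ * D.x i j ^ a = D.x i j ^ a * (D.x k l ^ a')⁻¹ := by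
      rw [inv_mul_eq_iff_eq_mul, ← mul_assoc, ← e5, mul_assoc, mul_inv_cancel, mul_one]
    rw [e6, inv_mul_cancel_left]
  rw [mul_assoc, e4]

theorem R_st {b : Fin n} {N : ℕ} (h : D.Below b N) {v : Fin n → ℤ} {i j l : Fin n} {a a' : ℤ}
    (hv : v ≠ 0) (hs : Supp b v) (hN : nrm v = N)
    (h1 : Proper v i j a) (h2 : Proper v j l a') (hil : i ≠ l) :
    (D.x i j ^ a)⁻¹ • D.c b (mv i j a v) = (D.x j l ^ a')⁻¹ • D.c b (mv j l a' v) := by
  have hi := hs.le h1.vi
  have hj := hs.le h1.vj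
  have hl := hs.le h2.vj
  have n1 := h1.nrm_lt
  have n2 := h2.nrm_lt
  have hu : mv j l a' (mv i j a v) = mv i l (-(a * a')) (mv i j a (mv j l a' v)) :=
    mv_st a a' v h1.ne h2.ne hil
  have m1 := nrm_mv i j a v
  have m2 := nrm_mv j l a' v
  have n3 : nrm (mv j l a' (mv i j a v)) < N := by
    have e := nrm_mv j l a' (mv i j a v)
    rw [mv_ne (Ne.symm h1.ne), mv_ne (Ne.symm hil)] at e
    have := h2.2.2.2
    omega
  have n4 : nrm (mv i j a (mv j l a' v)) < N := by
    have e := nrm_mv i j a (mv j l a' v)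
    rw [mv_ne h1.ne, mv_self] at e
    have q1 := h1.2.2.2
    have q2 := h2.2.2.2
    have q3 := h1.vj
    have q4 := h2.vj
    rcases h1.unit with rfl | rfl <;> rcases h2.unit with rfl | rfl <;> omega
  have e1 := h.move (a := a') (mv_ne_zero h1.ne a hv) (hs.mv hi a) hj hl h2.ne h2.unit
    (by omega) n3
  have e2 := h.move (a := a) (mv_ne_zero h2.ne a' hv) (hs.mv hj a') hi hj h1.ne h1.unit
    (by omega) n4
  have haa : -(a * a') = 1 ∨ -(a * a') = -1 := by
    rcases h1.unit with rfl | rfl <;> rcases h2.unit with rfl | rfl <;> simp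
  have e3 := h.move (a := -(a * a')) (mv_ne_zero h1.ne a (mv_ne_zero h2.ne a' hv))
    ((hs.mv hj a').mv hi a) hi hl hil haa n4 (by rw [← hu]; exact n3)
  rw [← hu, e1, e2] at e3
  have e4 : D.c b (mv i j a v) = (D.x j l ^ a')⁻¹ • D.x i l ^ (-(a * a')) • D.x i j ^ a •
      D.c b (mv j l a' v) := by
    rw [← e3, inv_smul_smul]
  rw [e4, ← mul_smul, ← mul_smul, ← mul_smul]
  have e5 : (D.x i j ^ a)⁻¹ * ((D.x j l ^ a')⁻¹ * (D.x i l ^ (-(a * a')) * D.x i j ^ a)) =
      (D.x j l ^ a')⁻¹ := by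
    have e6 := D.st_zpow i j l h1.ne h2.ne hil a (-a')
    have e7 := D.comm_zpow i l j l hil h2.ne (Ne.symm h2.ne) hil (-(a * a')) (-a')
    rw [mul_neg, e7, zpow_neg (D.x j l) a', mul_assoc] at e6
    rw [← e6, inv_mul_cancel_left]
  rw [mul_assoc, mul_assoc, e5]

theorem R_opp {b : Fin n} {N : ℕ} (h : D.Below b N) {v : Fin n → ℤ} {i j : Fin n} {a a' : ℤ}
    (hv : v ≠ 0) (hs : Supp b v) (hN : nrm v = N)
    (h1 : Proper v i j a) (h2 : Proper v j i a') :
    (D.x i j ^ a)⁻¹ • D.c b (mv i j a v) = (D.x j i ^ a')⁻¹ • D.c b (mv j i a' v) := by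
  have hij := h1.ne
  have hi := hs.le h1.vi
  have hj := hs.le h1.vj
  have n1 := h1.nrm_lt
  have n2 := h2.nrm_lt
  have q1 := h1.2.2.2
  have q2 := h2.2.2.2
  have q3 := h1.vj
  have q4 := h2.vj
  let f : Fg n := ⟨om i j, om_mem hij⟩
  have hfb : ∀ v k, b < k → act (f : SLn n) v k = v k := by
    intro v k hk
    change act (om i j) v k = v k
    rw [act_om hij, Function.update_of_ne (ne_of_gt (lt_of_le_of_lt hj hk)),
      Function.update_of_ne (ne_of_gt (lt_of_le_of_lt hi hk))]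
  have hsf : D.s f = D.x i j * (D.x j i)⁻¹ * D.x i j := D.hw i j hij f rfl
  have hF1 := D.hF f (Equiv.swap i j) (omε i) (omε_unit i) (om_signed hij) i j hij
  rw [Equiv.swap_apply_left, Equiv.swap_apply_right] at hF1
  have hsg : omε i i * omε i j = -1 := by
    unfold omε
    simp [Ne.symm hij]
  rw [hsg, zpow_neg_one] at hF1
  -- hF1 : s f * x i j * (s f)⁻¹ = (x j i)⁻¹
  have haa : a = a' := by
    rcases h1.unit with rfl | rfl <;> rcases h2.unit with rfl | rfl <;>
      first | rfl | (exfalso; omega)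
  subst haa
  rcases h1.unit with rfl | rfl
  · -- a = 1
    have hz : v i + v j = 0 := by omega
    have e0 : act (f : SLn n) (mv j i 1 v) = mv i j 1 v := by
      change act (om i j) (mv j i 1 v) = mv i j 1 v
      rw [act_om hij]
      ext k
      by_cases hkj : k = j
      · subst hkj
        rw [Function.update_self, mv_ne hij, mv_ne (Ne.symm hij)]
        omega
      · by_cases hki : k = i
        · subst hki
          rw [Function.update_of_ne hkj, Function.update_self, mv_self, mv_self]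
          omega
        · rw [Function.update_of_ne hkj, Function.update_of_ne hki, mv_ne hkj, mv_ne hki]
    have e1 := (h (mv j i 1 v) (by omega) (mv_ne_zero h2.ne 1 hv) (hs.mv hj 1)).2 f hfb
    rw [e0] at e1
    have e2 := h.triv (a := 1) (mv_ne_zero h2.ne 1 hv) (hs.mv hj 1) hi hj hij (Or.inl rfl)
      (by omega) (by rw [mv_self]; omega)
    have e3 : (D.x i j)⁻¹ * D.s f = (D.x j i)⁻¹ * D.x i j := by
      rw [hsf]; group
    rw [e1, zpow_one, zpow_one, ← mul_smul, e3, mul_smul]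
    rw [zpow_one] at e2
    rw [e2]
  · -- a = -1
    have hz : v i = v j := by omega
    have e0 : act (f : SLn n) (mv i j (-1) v) = mv j i (-1) v := by
      change act (om i j) (mv i j (-1) v) = mv j i (-1) v
      rw [act_om hij]
      ext k
      by_cases hkj : k = j
      · subst hkj
        rw [Function.update_self, mv_self, mv_self]
        omega
      · by_cases hki : k = i
        · subst hki
          rw [Function.update_of_ne hkj, Function.update_self, mv_ne (Ne.symm hij), mv_ne hij]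
          omega
        · rw [Function.update_of_ne hkj, Function.update_of_ne hki, mv_ne hkj, mv_ne hki]
    have e1 := (h (mv i j (-1) v) (by omega) (mv_ne_zero h1.ne (-1) hv) (hs.mv hi (-1))).2 f hfb
    rw [e0] at e1
    have e2 := h.triv (a := -1) (mv_ne_zero h1.ne (-1) hv) (hs.mv hi (-1)) hj hi (Ne.symm hij)
      (Or.inr rfl) (by omega) (by rw [mv_self]; omega)
    have e3 : D.x j i * D.s f = D.x i j * (D.x j i)⁻¹ := by
      have e4 : D.x j i = D.s f * (D.x i j)⁻¹ * (D.s f)⁻¹ := by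
        have := congrArg (fun y => y⁻¹) hF1
        simp only [mul_inv_rev, inv_inv] at this
        rw [← this]; group
      have e5 : D.x j i * D.s f = D.s f * (D.x i j)⁻¹ := by
        rw [e4]; group
      rw [e5, hsf]; group
    rw [e1, zpow_neg_one, zpow_neg_one, inv_inv, inv_inv, ← mul_smul, e3, mul_smul]
    rw [zpow_neg_one] at e2
    rw [e2]

theorem R_all {b : Fin n} {N : ℕ} (h : D.Below b N) {v : Fin n → ℤ} {i j k l : Fin n} {a a' : ℤ}
    (hv : v ≠ 0) (hs : Supp b v) (hN : nrm v = N)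
    (h1 : Proper v i j a) (h2 : Proper v k l a') :
    (D.x i j ^ a)⁻¹ • D.c b (mv i j a v) = (D.x k l ^ a')⁻¹ • D.c b (mv k l a' v) := by
  by_cases hik : i = k
  · subst hik
    by_cases hjl : j = l
    · subst hjl
      rw [proper_eq h1 h2]
    · rcases le_total (v l).natAbs (v j).natAbs with hle | hle
      · obtain ⟨a'', h3⟩ := exists_proper hjl h1.vj h2.vj hle
        rw [R_st h hv hs hN h1 h3 h2.ne]
        exact R_comm h hv hs hN h3 h2 (Ne.symm h1.ne) hjl h2.ne
      · obtain ⟨a'', h3⟩ := exists_proper (Ne.symm hjl) h2.vj h1.vj hle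
        rw [R_st h hv hs hN h2 h3 h1.ne]
        exact (R_comm h hv hs hN h3 h1 (Ne.symm h2.ne) (Ne.symm hjl) h1.ne).symm
  · by_cases hjk : j = k
    · subst hjk
      by_cases hil : i = l
      · subst hil
        exact R_opp h hv hs hN h1 h2
      · exact R_st h hv hs hN h1 h2 hil
    · by_cases hil : i = l
      · subst hil
        exact (R_st h hv hs hN h2 h1 (Ne.symm hjk)).symm
      · exact R_comm h hv hs hN h1 h2 hik hil (Ne.symm hjk)

theorem proper_move {b : Fin n} {N : ℕ} (h : D.Below b N) {v : Fin n → ℤ} {i j : Fin n} {a : ℤ}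
    (hv : v ≠ 0) (hs : Supp b v) (hN : nrm v = N) (h1 : Proper v i j a) :
    D.c b (mv i j a v) = D.x i j ^ a • D.c b v := by
  obtain ⟨i', j', a', h2, h3⟩ := D.c_of_proper b v h1
  rw [h3, ← R_all h hv hs hN h1 h2, smul_inv_smul]

end StData

end Pool.Agent.Helper632
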