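import Mathlib
import Pool.Agent.Helper632.Peak2

set_option autoImplicit false

namespace Pool.Agent.Helper632

section fixing

variable {n : ℕ}

/-- `f` does not move the coordinates above `b` -/
def FixAbove (b : Fin n) (f : SLn n) : Prop := ∀ v k, b < k → act f v k = v k

/-- `f` does not move the coordinates from `b` on -/
def FixFrom (b : Fin n) (f : SLn n) : Prop := ∀ v k, b ≤ k → act f v k = v k

theorem FixAbove.mul {b : Fin n} {f g : SLn n} (hf : FixAbove b f) (hg : FixAbove b g) :
    FixAbove b (f * g) := by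
  intro v k hk
  rw [act_mul, hf _ _ hk, hg _ _ hk]

theorem FixAbove.inv {b : Fin n} {f : SLn n} (hf : FixAbove b f) : FixAbove b f⁻¹ := by
  intro v k hk
  have := hf (act f⁻¹ v) k hk
  rw [act_act_inv] at this
  exact this.symm

theorem FixAbove.one (b : Fin n) : FixAbove b (1 : SLn n) := by
  intro v k _
  rw [act_one]

theorem fixAbove_om {b i j : Fin n} (hij : i ≠ j) (hi : i ≤ b) (hj : j ≤ b) :
    FixAbove b (om i j) := by
  intro v k hk
  rw [act_om hij, Function.update_of_ne (ne_of_gt (lt_of_le_of_lt hj hk)),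
    Function.update_of_ne (ne_of_gt (lt_of_le_of_lt hi hk))]

theorem fix_of_signed {f : SLn n} {σ : Equiv.Perm (Fin n)} {ε : Fin n → ℤ}
    (h : ∀ v i, act f v (σ i) = ε i * v i) {k : Fin n} (hk : ∀ v, act f v k = v k) :
    σ k = k ∧ ε k = 1 := by
  obtain ⟨t, rfl⟩ := σ.surjective k
  have h1 := h (Pi.single (σ t) 1) t
  rw [hk, Pi.single_eq_same] at h1
  by_cases ht : t = σ t
  · rw [← ht] at h1 ⊢
    rw [Pi.single_eq_same] at h1
    exact ⟨ht.symm, by omega⟩
  · rw [Pi.single_eq_of_ne ht] at h1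
    omega

theorem perm_le {b : Fin n} {f : SLn n} {σ : Equiv.Perm (Fin n)} {ε : Fin n → ℤ}
    (h : ∀ v i, act f v (σ i) = ε i * v i) (hf : FixAbove b f) {t : Fin n} (ht : t ≤ b) :
    σ t ≤ b := by
  by_contra hcon
  have h1 := not_le.mp hcon
  have h2 := (fix_of_signed h (fun v => hf v (σ t) h1)).1
  have h3 := σ.injective h2
  rw [h3] at h1
  exact absurd ht (not_le.mpr h1)

theorem fixFrom_of_signed {b : Fin n} {f : SLn n} (hm : f ∈ Fg n) (hf : FixAbove b f)
    (hb : act f (Pi.single b 1) = Pi.single b 1) : FixFrom b f := by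
  intro v k hk
  rcases eq_or_lt_of_le hk with h | h
  · subst h
    obtain ⟨σ, ε, hε, h⟩ := signed_perm f hm
    have h1 := h (Pi.single b 1) b
    rw [hb, Pi.single_eq_same] at h1
    have h2 : σ b = b := by
      by_contra hne
      rw [Pi.single_eq_of_ne hne] at h1
      rcases hε b with h2 | h2 <;> omega
    rw [h2, Pi.single_eq_same] at h1
    have h3 := h v b
    rw [h2] at h3
    rw [h3]
    have : ε b = 1 := by omega
    rw [this, one_mul]
  · exact hf v k h

theorem nrm_smul (d : ℤ) (v : Fin n → ℤ) : nrm (d • v) = d.natAbs * nrm v := by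
  unfold nrm
  rw [Finset.mul_sum]
  apply Finset.sum_congr rfl
  intro t _
  rw [Pi.smul_apply, smul_eq_mul, Int.natAbs_mul]

theorem base_form {b : Fin n} (hb : 0 < b.val) {v : Fin n → ℤ} (hv : v ≠ 0) (hs : Supp b v)
    (h : ∀ i j a, ¬ Proper v i j a) :
    ∃ f : Fg n, (FixAbove b (f : SLn n)) ∧ ∃ d : ℤ, 0 < d ∧
      v = d • act (f : SLn n) (Pi.single b 1) := by
  obtain ⟨i, hi⟩ := Function.ne_iff.mp hv
  simp only [Pi.zero_apply] at hi
  have huniq : ∀ j, j ≠ i → v j = 0 := by
    intro j hj
    by_contra hj0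
    rcases le_total (v j).natAbs (v i).natAbs with hle | hle
    · obtain ⟨a, ha⟩ := exists_proper (Ne.symm hj) hi hj0 hle
      exact h _ _ _ ha
    · obtain ⟨a, ha⟩ := exists_proper hj hj0 hi hle
      exact h _ _ _ ha
  have hib := hs.le hi
  by_cases hib' : i = b
  · subst hib'
    rcases lt_or_gt_of_ne hi with hneg | hpos
    · -- negative: use (om i j)^2 where j = 0
      let j : Fin n := ⟨0, by omega⟩
      have hji : i ≠ j := by
        intro h0
        have : i.val = 0 := by rw [h0]
        omega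
      have hjle : j ≤ i := by
        change (0 : ℕ) ≤ i.val
        omega
      refine ⟨⟨om i j, om_mem hji⟩ * ⟨om i j, om_mem hji⟩, ?_, -v i, by omega, ?_⟩
      · exact (fixAbove_om hji le_rfl hjle).mul (fixAbove_om hji le_rfl hjle)
      · change v = -v i • act (om i j * om i j) (Pi.single i 1)
        rw [act_mul, act_om hji, act_om hji]
        ext k
        simp only [Pi.smul_apply, smul_eq_mul]
        by_cases hkj : k = j
        · rw [hkj, Function.update_self, Function.update_of_ne hji, Function.update_self,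
            Pi.single_eq_of_ne (Ne.symm hji), huniq j (Ne.symm hji)]
          ring
        · by_cases hki : k = i
          · rw [hki, Function.update_of_ne hji, Function.update_self, Function.update_self,
              Pi.single_eq_same]
            ring
          · rw [Function.update_of_ne hkj, Function.update_of_ne hki, Function.update_of_ne hkj,
              Function.update_of_ne hki, Pi.single_eq_of_ne hki, huniq k hki]
            ring
    · refine ⟨1, FixAbove.one i, v i, hpos, ?_⟩
      change v = v i • act (1 : SLn n) (Pi.single i 1)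
      rw [act_one]
      ext k
      simp only [Pi.smul_apply, smul_eq_mul]
      by_cases hki : k = i
      · rw [hki, Pi.single_eq_same]; ring
      · rw [Pi.single_eq_of_ne hki, huniq k hki]; ring
  · rcases lt_or_gt_of_ne hi with hneg | hpos
    · refine ⟨⟨om b i, om_mem (Ne.symm hib')⟩, fixAbove_om (Ne.symm hib') le_rfl hib,
        -v i, by omega, ?_⟩
      change v = -v i • act (om b i) (Pi.single b 1)
      rw [act_om (Ne.symm hib')]
      ext k
      simp only [Pi.smul_apply, smul_eq_mul]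
      by_cases hki : k = i
      · rw [hki, Function.update_self, Pi.single_eq_same]; ring
      · by_cases hkb : k = b
        · rw [hkb, Function.update_of_ne (Ne.symm hib'), Function.update_self,
            Pi.single_eq_of_ne hib', huniq b (Ne.symm hib')]
          ring
        · rw [Function.update_of_ne hki, Function.update_of_ne hkb, Pi.single_eq_of_ne hkb,
            huniq k hki]
          ring
    · refine ⟨⟨om i b, om_mem hib'⟩, fixAbove_om hib' hib le_rfl, v i, hpos, ?_⟩
      change v = v i • act (om i b) (Pi.single b 1)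
      rw [act_om hib']
      ext k
      simp only [Pi.smul_apply, smul_eq_mul]
      by_cases hkb : k = b
      · rw [hkb, Function.update_self, Pi.single_eq_of_ne hib', huniq b (Ne.symm hib')]; ring
      · by_cases hki : k = i
        · rw [hki, Function.update_of_ne hib', Function.update_self, Pi.single_eq_same]; ring
        · rw [Function.update_of_ne hkb, Function.update_of_ne hki, Pi.single_eq_of_ne hkb,
            huniq k hki]
          ring

end fixing

namespace StData

variable {n : ℕ} {E : Type} [Group E] {D : StData n E}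

theorem base_spec {b : Fin n} {v : Fin n → ℤ}
    (h : ∃ f : Fg n, (∀ v k, b < k → act (f : SLn n) v k = v k) ∧
      ∃ d : ℤ, 0 < d ∧ v = d • act (f : SLn n) (Pi.single b 1)) :
    ∃ f : Fg n, FixAbove b (f : SLn n) ∧ (∃ d : ℤ, 0 < d ∧
      v = d • act (f : SLn n) (Pi.single b 1)) ∧ D.base b v = (D.s f : E ⧸ D.P b) := by
  refine ⟨h.choose, h.choose_spec.1, h.choose_spec.2, ?_⟩
  rw [base, dif_pos h]

theorem x_mem_P {b i j : Fin n} (h : i ≠ j) (hi : i ≤ b) (hj : j < b) : D.x i j ∈ D.P b :=
  Subgroup.subset_closure (Or.inl ⟨i, j, h, hi, hj, rfl⟩)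

theorem s_mem_P {b : Fin n} {f : Fg n} (h : FixFrom b (f : SLn n)) : D.s f ∈ D.P b :=
  Subgroup.subset_closure (Or.inr ⟨f, h, rfl⟩)

theorem smul_mk_eq {b : Fin n} (g h k : E) (H : k⁻¹ * (g * h) ∈ D.P b) :
    g • ((h : E) : E ⧸ D.P b) = ((k : E) : E ⧸ D.P b) := by
  rw [MulAction.Quotient.smul_mk, smul_eq_mul]
  symm
  rw [QuotientGroup.eq]
  exact H

/-- conjugation of a power of a generator by the lift of a signed permutation -/
theorem conj_zpow_s (f : Fg n) (σ : Equiv.Perm (Fin n)) (ε : Fin n → ℤ)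
    (hε : ∀ i, ε i = 1 ∨ ε i = -1) (h : ∀ v i, act (f : SLn n) v (σ i) = ε i * v i)
    {i j : Fin n} (hij : i ≠ j) (a : ℤ) :
    D.s f * D.x i j ^ a * (D.s f)⁻¹ = D.x (σ i) (σ j) ^ (ε i * ε j * a) := by
  rw [← conj_zpow, D.hF f σ ε hε h i j hij, ← zpow_mul]

theorem mv_triv {i j : Fin n} (a : ℤ) {v : Fin n → ℤ} (h0 : v j = 0) : mv i j a v = v := by
  ext k
  rw [mv_apply]
  split_ifs with hk
  · rw [h0, hk]; ring
  · rfl

theorem trivial_move {b : Fin n} (hb : 0 < b.val) {N : ℕ} (h : D.Below b N) {v : Fin n → ℤ}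
    {i j : Fin n} {a : ℤ} (hv : v ≠ 0) (hs : Supp b v) (hN : nrm v = N) (hi : i ≤ b) (hj : j ≤ b)
    (hij : i ≠ j) (ha : a = 1 ∨ a = -1) (h0 : v j = 0) :
    D.x i j ^ a • D.c b v = D.c b v := by
  by_cases hp : ∃ k l a', Proper v k l a'
  · obtain ⟨k, l, a', hp⟩ := hp
    have hkj : k ≠ j := by rintro rfl; exact hp.vi h0
    have hlj : l ≠ j := by rintro rfl; exact hp.vj h0
    have hk := hs.le hp.vi
    have hl := hs.le hp.vj
    have n1 := hp.nrm_lt
    have e1 := proper_move h hv hs hN hp
    have hu0 : mv k l a' v j = 0 := by rw [mv_ne (Ne.symm hkj)]; exact h0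
    have e2 : D.c b v = D.x k l ^ (-a') • D.c b (mv k l a' v) := by
      rw [e1, zpow_neg, inv_smul_smul]
    have e3 : D.x i j ^ a • D.c b (mv k l a' v) = D.c b (mv k l a' v) :=
      h.triv (mv_ne_zero hp.ne a' hv) (hs.mv hk a') hi hj hij ha (by omega) hu0
    by_cases hil : i = l
    · subst hil
      have haa : a * a' = 1 ∨ a * a' = -1 := by
        rcases ha with rfl | rfl <;> rcases hp.unit with rfl | rfl <;> simp
      have e4 : D.x k j ^ (a * a') • D.c b (mv k i a' v) = D.c b (mv k i a' v) :=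
        h.triv (mv_ne_zero hp.ne a' hv) (hs.mv hk a') hk hj hkj haa (by omega) hu0
      have e5 : D.x i j ^ a * D.x k i ^ (-a') = D.x k i ^ (-a') * (D.x k j ^ (a * a') * D.x i j ^ a) := by
        have e6 := D.st_zpow k i j hp.ne hij hkj (-a') a
        have e7 := D.comm_zpow k j i j hkj hij (Ne.symm hij) hkj (-a' * a) a
        have e8 := D.comm_zpow k j k i hkj hp.ne (Ne.symm hkj) hp.ne (a * a') (-a')
        have e9 : D.x k j ^ (-a' * a) = (D.x k j ^ (a * a'))⁻¹ := by
          rw [← zpow_neg]; congr 1; ring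
        rw [← mul_assoc, ← e8, mul_assoc, e6, e9, ← mul_assoc, mul_inv_cancel_left]
      calc D.x i j ^ a • D.c b v
          = (D.x i j ^ a * D.x k i ^ (-a')) • D.c b (mv k i a' v) := by
            rw [mul_smul, ← e2]
        _ = D.x k i ^ (-a') • D.x k j ^ (a * a') • D.x i j ^ a • D.c b (mv k i a' v) := by
            rw [e5, mul_smul, mul_smul]
        _ = D.c b v := by rw [e3, e4, ← e2]
    · have e5 := D.comm_zpow i j k l hij hp.ne (Ne.symm hkj) hil a (-a')
      calc D.x i j ^ a • D.c b v
          = (D.x i j ^ a * D.x k l ^ (-a')) • D.c b (mv k l a' v) := by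
            rw [mul_smul, ← e2]
        _ = D.x k l ^ (-a') • D.x i j ^ a • D.c b (mv k l a' v) := by
            rw [e5, mul_smul]
        _ = D.c b v := by rw [e3, ← e2]
  · push Not at hp
    rw [D.c_of_not_proper b v hp]
    obtain ⟨f, hf, ⟨d, hd, hv2⟩, hf3⟩ := base_spec (D := D) (base_form hb hv hs hp)
    rw [hf3]
    apply smul_mk_eq
    obtain ⟨σ, ε, hε, hσ⟩ := signed_perm ((f⁻¹ : Fg n) : SLn n) (f⁻¹).2
    have hfi : FixAbove b ((f⁻¹ : Fg n) : SLn n) := hf.inv
    have h1 := D.conj_zpow_s f⁻¹ σ ε hε hσ hij a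
    rw [map_inv, inv_inv] at h1
    rw [← mul_assoc, h1]
    apply Subgroup.zpow_mem
    apply x_mem_P (fun h' => hij (σ.injective h')) (perm_le hσ hfi hi)
    apply lt_of_le_of_ne (perm_le hσ hfi hj)
    intro hjb
    have h2 := hσ v j
    have h3 : act ((f⁻¹ : Fg n) : SLn n) v = d • Pi.single b 1 := by
      rw [hv2, act_smul]
      congr 1
      exact act_inv_act _ _
    rw [h3, hjb, h0] at h2
    simp at h2
    omega

theorem F_move {b : Fin n} (hb : 0 < b.val) {N : ℕ} (h : D.Below b N) {v : Fin n → ℤ}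
    (hv : v ≠ 0) (hs : Supp b v) (hN : nrm v = N) (f : Fg n) (hf : FixAbove b (f : SLn n)) :
    D.c b (act (f : SLn n) v) = D.s f • D.c b v := by
  have hfv0 : act (f : SLn n) v ≠ 0 := act_ne_zero _ hv
  have hfvs : Supp b (act (f : SLn n) v) := hs.act f hf
  have hfvN : nrm (act (f : SLn n) v) = N := by rw [nrm_act_Fg _ f.2, hN]
  obtain ⟨σ, ε, hε, hσ⟩ := signed_perm (f : SLn n) f.2
  -- transport of proper moves
  have key : ∀ (g : Fg n) (σ : Equiv.Perm (Fin n)) (ε : Fin n → ℤ),
      (∀ i, ε i = 1 ∨ ε i = -1) → (∀ v i, act (g : SLn n) v (σ i) = ε i * v i) →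
      ∀ (w : Fin n → ℤ) (k l : Fin n) (a : ℤ), Proper w k l a →
      Proper (act (g : SLn n) w) (σ k) (σ l) (ε k * ε l * a) ∧
      act (g : SLn n) (mv k l a w) = mv (σ k) (σ l) (ε k * ε l * a) (act (g : SLn n) w) := by
    intro g σ ε hε hσ w k l a hp
    constructor
    · refine ⟨fun h' => hp.ne (σ.injective h'), ?_, ?_, ?_⟩
      · rcases hε k with h1 | h1 <;> rcases hε l with h2 | h2 <;> rcases hp.unit with h3 | h3 <;>
          rw [h1, h2, h3] <;> simp
      · rw [hσ]
        have := hp.vj
        rcases hε l with h2 | h2 <;> rw [h2] <;> omega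
      · rw [hσ, hσ]
        have h4 := hp.2.2.2
        have h5 : ε k * w k + ε k * ε l * a * (ε l * w l) = ε k * (w k + a * w l) := by
          have : ε l * ε l = 1 := by rcases hε l with h2 | h2 <;> rw [h2] <;> norm_num
          linear_combination (ε k * a * w l) * this
        rw [h5, Int.natAbs_mul, Int.natAbs_mul, Int.natAbs_mul]
        have h6 : (ε k).natAbs = 1 := by rcases hε k with h2 | h2 <;> rw [h2] <;> rfl
        have h7 : (ε l).natAbs = 1 := by rcases hε l with h2 | h2 <;> rw [h2] <;> rfl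
        rw [h6, h7, one_mul, one_mul, one_mul]
        exact h4
    · ext t
      obtain ⟨t', rfl⟩ := σ.surjective t
      rw [hσ]
      by_cases htk : t' = k
      · subst htk
        rw [mv_self, mv_self, hσ, hσ]
        have : ε l * ε l = 1 := by rcases hε l with h2 | h2 <;> rw [h2] <;> norm_num
        linear_combination -(ε t' * a * w l) * this
      · rw [mv_ne htk, mv_ne (fun h' => htk (σ.injective h')), hσ]
  by_cases hp : ∃ k l a', Proper v k l a'
  · obtain ⟨k, l, a', hp⟩ := hp
    have hk := hs.le hp.vi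
    have n1 := hp.nrm_lt
    obtain ⟨p1, p2⟩ := key f σ ε hε hσ v k l a' hp
    have e1 := proper_move h hv hs hN hp
    have e2 := proper_move h hfv0 hfvs hfvN p1
    rw [← p2] at e2
    have e3 := (h (mv k l a' v) (by omega) (mv_ne_zero hp.ne a' hv) (hs.mv hk a')).2 f hf
    rw [e3, e1, ← D.conj_zpow_s f σ ε hε hσ hp.ne a'] at e2
    rw [mul_smul, mul_smul] at e2
    have e4 := smul_left_cancel _ e2
    have e5 := smul_left_cancel _ e4
    rw [e5, smul_inv_smul]
  · push Not at hp
    have hp' : ∀ i j a, ¬ Proper (act (f : SLn n) v) i j a := by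
      intro i j a hpr
      obtain ⟨σ', ε', hε', hσ'⟩ := signed_perm ((f⁻¹ : Fg n) : SLn n) (f⁻¹).2
      have := (key f⁻¹ σ' ε' hε' hσ' _ i j a hpr).1
      have h2 : act ((f⁻¹ : Fg n) : SLn n) (act (f : SLn n) v) = v := act_inv_act _ _
      rw [h2] at this
      exact hp _ _ _ this
    rw [D.c_of_not_proper b v hp, D.c_of_not_proper b _ hp']
    obtain ⟨f0, hf0, ⟨d0, hd0, hv0⟩, hb0⟩ := base_spec (D := D) (base_form hb hv hs hp)
    obtain ⟨f1, hf1, ⟨d1, hd1, hv1⟩, hb1⟩ := base_spec (D := D) (base_form hb hfv0 hfvs hp')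
    rw [hb0, hb1]
    symm
    apply smul_mk_eq
    rw [← map_inv, ← map_mul, ← map_mul]
    apply s_mem_P
    have hfa : FixAbove b ((f1⁻¹ * (f * f0) : Fg n) : SLn n) :=
      FixAbove.mul (FixAbove.inv hf1) (hf.mul hf0)
    apply fixFrom_of_signed (f1⁻¹ * (f * f0)).2 hfa
    have h1 : d1 • act (f1 : SLn n) (Pi.single b 1) =
        d0 • act (f : SLn n) (act (f0 : SLn n) (Pi.single b 1)) := by
      rw [← hv1, ← act_smul, ← hv0]
    have h2 : d1 • (Pi.single b 1 : Fin n → ℤ) =
        d0 • act ((f1⁻¹ * (f * f0) : Fg n) : SLn n) (Pi.single b 1) := by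
      have h3 := congrArg (act (f1 : SLn n)⁻¹) h1
      rw [act_smul, act_smul, act_inv_act] at h3
      rw [h3]
      congr 1
      change _ = act ((f1 : SLn n)⁻¹ * ((f : SLn n) * (f0 : SLn n))) _
      rw [act_mul, act_mul]
    have h4 : nrm (d1 • (Pi.single b 1 : Fin n → ℤ)) = d1.natAbs * nrm (Pi.single b 1 : Fin n → ℤ) :=
      nrm_smul _ _
    have h5 : nrm (d0 • act ((f1⁻¹ * (f * f0) : Fg n) : SLn n) (Pi.single b 1)) =
        d0.natAbs * nrm (Pi.single b 1 : Fin n → ℤ) := by
      rw [nrm_smul, nrm_act_Fg _ (f1⁻¹ * (f * f0)).2]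
    have h6 : 0 < nrm (Pi.single b 1 : Fin n → ℤ) := by
      have : nrm (Pi.single b 1 : Fin n → ℤ) = 1 := by
        unfold nrm
        rw [Finset.sum_eq_single b]
        · simp
        · intro t _ ht
          simp [Pi.single_eq_of_ne ht]
        · intro h'; exact absurd (Finset.mem_univ _) h'
      omega
    have h7 : d1 = d0 := by
      have h8 : d1.natAbs * nrm (Pi.single b 1 : Fin n → ℤ) =
          d0.natAbs * nrm (Pi.single b 1 : Fin n → ℤ) := by rw [← h4, ← h5, h2]
      have h9 := Nat.eq_of_mul_eq_mul_right h6 h8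
      omega
    rw [h7] at h2
    have h10 : ∀ t, (Pi.single b 1 : Fin n → ℤ) t =
        act ((f1⁻¹ * (f * f0) : Fg n) : SLn n) (Pi.single b 1) t := by
      intro t
      have := congrFun h2 t
      simp only [Pi.smul_apply, smul_eq_mul] at this
      exact mul_left_cancel₀ (ne_of_gt hd0) this
    exact (funext h10).symm

end StData

end Pool.Agent.Helper632
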