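import Mathlib
import Pool.Agent.Helper632.Peak3

set_option autoImplicit false

namespace Pool.Agent.Helper632

namespace StData

variable {n : ℕ} {E : Type} [Group E] {D : StData n E}

theorem improper_move {b : Fin n} (hb : 0 < b.val) {N : ℕ} (h : D.Below b N) {v : Fin n → ℤ}
    {i j : Fin n} {a : ℤ} (hv : v ≠ 0) (hs : Supp b v) (hN : nrm v = N) (hi : i ≤ b) (hj : j ≤ b)
    (hij : i ≠ j) (ha : a = 1 ∨ a = -1) (h0 : v j ≠ 0) (hnp : ¬ Proper v i j a)
    (hle : nrm (mv i j a v) ≤ nrm v) :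
    D.c b (mv i j a v) = D.x i j ^ a • D.c b v := by
  have e0 := nrm_mv i j a v
  have q1 : (v i + a * v j).natAbs ≤ (v i).natAbs := by omega
  have q2 : ¬ ((v i + a * v j).natAbs + (v j).natAbs = (v i).natAbs) := by
    intro h'
    exact hnp ⟨hij, ha, h0, h'⟩
  have hvi : v i ≠ 0 := by
    intro h'
    rw [h'] at q1
    rcases ha with rfl | rfl <;> omega
  -- chain v → v1 → v2 → v3
  have hji := Ne.symm hij
  -- v1 = mv i j a v, v2 = mv j i (-a) v1
  have hv1i : mv i j a v i = v i + a * v j := mv_self a v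
  have hv1j : mv i j a v j = v j := mv_ne hji a v
  have aa : a * a = 1 := by rcases ha with rfl | rfl <;> norm_num
  have hv2j : mv j i (-a) (mv i j a v) j = - a * v i := by
    rw [mv_self, hv1i, hv1j]
    linear_combination (-v j) * aa
  have hv2i : mv j i (-a) (mv i j a v) i = v i + a * v j := by
    rw [mv_ne hij, hv1i]
  have ha' : -a = 1 ∨ -a = -1 := by rcases ha with rfl | rfl <;> simp
  -- step v1 → v2
  have n1 := nrm_mv j i (-a) (mv i j a v)
  rw [hv1i, hv1j] at n1
  have n1' : nrm (mv j i (-a) (mv i j a v)) < N := by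
    rcases ha with rfl | rfl <;> omega
  have s1 : D.c b (mv j i (-a) (mv i j a v)) = D.x j i ^ (-a) • D.c b (mv i j a v) := by
    by_cases hlt : nrm (mv i j a v) < N
    · exact h.move (mv_ne_zero hij a hv) (hs.mv hi a) hj hi hji ha' hlt n1'
    · have hp : Proper (mv i j a v) j i (-a) := by
        refine ⟨hji, ha', ?_, ?_⟩
        · rw [hv1i]
          rcases ha with rfl | rfl <;> omega
        · rw [hv1i, hv1j]
          rcases ha with rfl | rfl <;> omega
      exact proper_move h (mv_ne_zero hij a hv) (hs.mv hi a) (by omega) hp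
  -- v3 = act (om i j ^ a) v
  let f : Fg n := ⟨om i j, om_mem hij⟩
  have hfb : FixAbove b (f : SLn n) := fixAbove_om hij hi hj
  have hsf : D.s f = D.x i j * (D.x j i)⁻¹ * D.x i j := D.hw i j hij f rfl
  have hv3 : act ((f ^ a : Fg n) : SLn n) v = mv i j a (mv j i (-a) (mv i j a v)) := by
    rw [← act_tv hij, ← act_tv hji, ← act_tv hij, ← act_mul, ← act_mul]
    congr 1
    rcases ha with rfl | rfl
    · rw [zpow_one, tv_neg hji]; rfl
    · have : ((f ^ (-1 : ℤ) : Fg n) : SLn n) = (om i j)⁻¹ := by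
        rw [zpow_neg_one]; rfl
      rw [this, om, neg_neg, tv_neg hij]
      group
  have hfa : FixAbove b ((f ^ a : Fg n) : SLn n) := by
    rcases ha with rfl | rfl
    · rw [zpow_one]; exact hfb
    · rw [zpow_neg_one]; exact hfb.inv
  have s3 : D.c b (mv i j a (mv j i (-a) (mv i j a v))) = D.s (f ^ a) • D.c b v := by
    rw [← hv3]
    exact F_move hb h hv hs hN _ hfa
  -- step v3 → v2
  have hw3 : mv i j (-a) (mv i j a (mv j i (-a) (mv i j a v))) = mv j i (-a) (mv i j a v) :=
    mv_inv hij a _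
  have hn3 : nrm (mv i j a (mv j i (-a) (mv i j a v))) = N := by
    rw [← hv3, nrm_act_Fg _ (f ^ a).2, hN]
  have hp3 : Proper (mv i j a (mv j i (-a) (mv i j a v))) i j (-a) := by
    refine ⟨hij, ha', ?_, ?_⟩
    · rw [mv_ne hji, hv2j]
      rcases ha with rfl | rfl <;> omega
    · rw [mv_self, mv_ne hji, hv2i, hv2j]
      rcases ha with rfl | rfl <;> omega
  have s2 := proper_move h
    (mv_ne_zero hij a (mv_ne_zero hji (-a) (mv_ne_zero hij a hv)))
    (((hs.mv hi a).mv hj (-a)).mv hi a) hn3 hp3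
  rw [hw3, s1, s3, map_zpow, hsf, ← mul_smul] at s2
  have s4 : D.c b (mv i j a v) = ((D.x j i ^ (-a))⁻¹ * (D.x i j ^ (-a) *
      (D.x i j * (D.x j i)⁻¹ * D.x i j) ^ a)) • D.c b v := by
    rw [mul_smul, ← s2, inv_smul_smul]
  rw [s4]
  congr 1
  rcases ha with rfl | rfl
  · group
  · group

theorem good_all (D : StData n E) {b : Fin n} (hb : 0 < b.val) :
    ∀ N : ℕ, D.Below b N := by
  intro N
  induction N with
  | zero => intro v hv; omega
  | succ N ih =>
    intro v hv hv0 hs
    by_cases hlt : nrm v < N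
    · exact ih v hlt hv0 hs
    · have hN : nrm v = N := by omega
      refine ⟨?_, ?_⟩
      · intro i j a hi hj hij ha hle
        by_cases h0 : v j = 0
        · rw [mv_triv a h0, trivial_move hb ih hv0 hs hN hi hj hij ha h0]
        · by_cases hp : Proper v i j a
          · exact proper_move ih hv0 hs hN hp
          · exact improper_move hb ih hv0 hs hN hi hj hij ha h0 hp hle
      · intro f hf
        exact F_move hb ih hv0 hs hN f hf

theorem c_move (D : StData n E) {b : Fin n} (hb : 0 < b.val) {v : Fin n → ℤ} {i j : Fin n}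
    {a : ℤ} (hv : v ≠ 0) (hs : Supp b v) (hi : i ≤ b) (hj : j ≤ b) (hij : i ≠ j)
    (ha : a = 1 ∨ a = -1) : D.c b (mv i j a v) = D.x i j ^ a • D.c b v :=
  (D.good_all hb (nrm v + nrm (mv i j a v) + 1)).move hv hs hi hj hij ha (by omega) (by omega)

theorem c_F (D : StData n E) {b : Fin n} (hb : 0 < b.val) {v : Fin n → ℤ}
    (hv : v ≠ 0) (hs : Supp b v) (f : Fg n) (hf : FixAbove b (f : SLn n)) :
    D.c b (act (f : SLn n) v) = D.s f • D.c b v :=
  (D.good_all hb (nrm v + 1) v (by omega) hv hs).2 f hf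

/-- the statement of equivariance for one group element -/
def Equi (D : StData n E) (b : Fin n) (g : E) : Prop :=
  ∀ v, v ≠ 0 → Supp b v → Supp b (act (D.π g) v) ∧ D.c b (act (D.π g) v) = g • D.c b v

theorem Equi.mul {b : Fin n} {g h : E} (hg : Equi D b g) (hh : Equi D b h) :
    Equi D b (g * h) := by
  intro v hv hs
  obtain ⟨h1, h2⟩ := hh v hv hs
  obtain ⟨h3, h4⟩ := hg _ (act_ne_zero _ hv) h1
  rw [map_mul, act_mul]
  exact ⟨h3, by rw [h4, h2, mul_smul]⟩

/-- the coset function is equivariant -/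
theorem c_equiv (D : StData n E) {b : Fin n} (hb : 0 < b.val) (g : E) (hg : g ∈ D.H b) :
    Equi D b g ∧ Equi D b g⁻¹ := by
  have hx : ∀ i j, i ≠ j → i ≤ b → j ≤ b → ∀ a : ℤ, (a = 1 ∨ a = -1) →
      Equi D b (D.x i j ^ a) := by
    intro i j hij hi hj a ha v hv hs
    rw [map_zpow, D.hx i j hij, tv_zpow hij, act_tv hij]
    exact ⟨hs.mv hi a, D.c_move hb hv hs hi hj hij ha⟩
  have hs : ∀ f : Fg n, FixAbove b (f : SLn n) → Equi D b (D.s f) := by
    intro f hf v hv hs
    rw [D.hs f]
    exact ⟨hs.act f hf, D.c_F hb hv hs f hf⟩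
  induction hg using Subgroup.closure_induction with
  | mem g hg =>
    rcases hg with ⟨i, j, hij, hi, hj, rfl⟩ | ⟨f, hf, rfl⟩
    · refine ⟨?_, ?_⟩
      · have := hx i j hij hi hj 1 (Or.inl rfl)
        rwa [zpow_one] at this
      · have := hx i j hij hi hj (-1) (Or.inr rfl)
        rwa [zpow_neg_one] at this
    · refine ⟨hs f hf, ?_⟩
      rw [← map_inv]
      exact hs f⁻¹ (FixAbove.inv hf)
  | one =>
    have h1 : Equi D b 1 := by
      intro v hv hs
      rw [map_one, act_one, one_smul]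
      exact ⟨hs, rfl⟩
    exact ⟨h1, by rw [inv_one]; exact h1⟩
  | mul g h _ _ ihg ihh =>
    refine ⟨ihg.1.mul ihh.1, ?_⟩
    rw [mul_inv_rev]
    exact ihh.2.mul ihg.2
  | inv g hg ih => exact ⟨ih.2, by rw [inv_inv]; exact ih.1⟩

theorem c_single (D : StData n E) (b : Fin n) :
    D.c b (Pi.single b 1) = ((1 : E) : E ⧸ D.P b) := by
  have hnp : ∀ i j a, ¬ Proper (Pi.single b 1 : Fin n → ℤ) i j a := by
    intro i j a hp
    have h1 := hp.vi
    have h2 := hp.vj
    have h3 : i = b := by
      by_contra h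
      exact h1 (Pi.single_eq_of_ne h 1)
    have h4 : j = b := by
      by_contra h
      exact h2 (Pi.single_eq_of_ne h 1)
    exact hp.ne (h3.trans h4.symm)
  rw [D.c_of_not_proper b _ hnp]
  obtain ⟨f, hf, ⟨d, hd, hv⟩, hb⟩ := base_spec (D := D) (b := b) (v := Pi.single b 1)
    ⟨1, FixAbove.one b, 1, one_pos, by
      change _ = (1 : ℤ) • act (1 : SLn n) (Pi.single b 1)
      rw [act_one, one_smul]⟩
  rw [hb]
  -- f fixes the base vector
  have hd1 : d = 1 := by
    have h1 := congrArg nrm hv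
    rw [nrm_smul, nrm_act_Fg _ f.2] at h1
    have h6 : nrm (Pi.single b 1 : Fin n → ℤ) = 1 := by
      unfold nrm
      rw [Finset.sum_eq_single b]
      · simp
      · intro t _ ht
        simp [Pi.single_eq_of_ne ht]
      · intro h'; exact absurd (Finset.mem_univ _) h'
    rw [h6] at h1
    omega
  rw [hd1, one_smul] at hv
  have h2 := s_mem_P (D := D) (fixFrom_of_signed f.2 hf hv.symm)
  rw [QuotientGroup.eq, mul_one]
  exact Subgroup.inv_mem _ h2

/-- the stabiliser of the base vector at level `b` -/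
theorem stab (D : StData n E) {b : Fin n} (hb : 0 < b.val) (g : E) (hg : g ∈ D.H b)
    (h : act (D.π g) (Pi.single b 1) = Pi.single b 1) : g ∈ D.P b := by
  have h1 := (D.c_equiv hb g hg).1 (Pi.single b 1) (by
    intro h0
    have := congrFun h0 b
    simp at this) (by
    intro k hk
    exact Pi.single_eq_of_ne (ne_of_gt hk) 1)
  have h2 := h1.2
  rw [h, D.c_single b, MulAction.Quotient.smul_mk, smul_eq_mul, mul_one, QuotientGroup.eq,
    inv_one, one_mul] at h2
  exact h2

end StData

end Pool.Agent.Helper632
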