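import Mathlib
import Pool.Agent.Helper632.Peak4

set_option autoImplicit false

namespace Pool.Agent.Helper632

theorem eq_one_of_base {n : ℕ} (b : Fin n) (hb : b.val = 0) (g : SLn n)
    (h1 : ∀ v k, b < k → act g v k = v k)
    (h2 : ∀ k, b < k → act g (Pi.single k 1) = Pi.single k 1) : g = 1 := by
  have hlt : ∀ k, k ≠ b → b < k := by
    intro k hk
    rw [Fin.lt_def]
    have : k.val ≠ b.val := fun h => hk (Fin.ext h)
    omega
  have hd : mat g = Matrix.diagonal (fun i => if i = b then mat g b b else 1) := by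
    ext i j
    by_cases hij : i = j
    · subst hij
      rw [Matrix.diagonal_apply_eq]
      split_ifs with h
      · rw [h]
      · rw [mat_apply_eq_act, h1 _ _ (hlt i h), Pi.single_eq_same]
    · rw [Matrix.diagonal_apply_ne _ hij, mat_apply_eq_act]
      by_cases hi : i = b
      · have hj : j ≠ b := fun h => hij (hi.trans h.symm)
        rw [h2 j (hlt j hj), Pi.single_eq_of_ne hij]
      · rw [h1 _ _ (hlt i hi), Pi.single_eq_of_ne hij]
  have hdet := det_mat g
  rw [hd, Matrix.det_diagonal, Finset.prod_ite_eq' Finset.univ b, if_pos (Finset.mem_univ b)] at hdet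
  apply mat_injective
  rw [hd, mat_one, ← Matrix.diagonal_one]
  congr 1
  ext i
  split_ifs
  · exact hdet
  · rfl

namespace StData

variable {n : ℕ} {E : Type} [Group E]

/-- the unipotent part -/
def C (D : StData n E) (b : Fin n) (k : ℕ) : Subgroup E :=
  Subgroup.closure {y | ∃ j, j < b ∧ j.val < k ∧ y = D.x b j}

theorem C_comm (D : StData n E) (b : Fin n) (k : ℕ) {j : Fin n} (hj : j < b) (c : E)
    (hc : c ∈ D.C b k) (a : ℤ) : Commute (D.x b j ^ a) c := by
  induction hc using Subgroup.closure_induction with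
  | mem y hy =>
    obtain ⟨j', hj', _, rfl⟩ := hy
    exact Commute.zpow_left
      (D.hcomm b j b j' (ne_of_gt hj) (ne_of_gt hj') (ne_of_lt hj) (ne_of_gt hj')) a
  | one => exact Commute.one_right _
  | mul g h _ _ ihg ihh => exact ihg.mul_right ihh
  | inv g _ ih => exact ih.inv_right

theorem C_succ (D : StData n E) (b : Fin n) (k : Fin n) (hk : k < b) (c : E)
    (hc : c ∈ D.C b (k.val + 1)) : ∃ a : ℤ, ∃ c' ∈ D.C b k.val, c = c' * D.x b k ^ a := by
  induction hc using Subgroup.closure_induction with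
  | mem y hy =>
    obtain ⟨j, hj, hj', rfl⟩ := hy
    by_cases hjk : j = k
    · subst hjk
      exact ⟨1, 1, Subgroup.one_mem _, by rw [zpow_one, one_mul]⟩
    · refine ⟨0, D.x b j, Subgroup.subset_closure ⟨j, hj, ?_, rfl⟩, by rw [zpow_zero, mul_one]⟩
      have : j.val ≠ k.val := fun h => hjk (Fin.ext h)
      omega
  | one => exact ⟨0, 1, Subgroup.one_mem _, by simp⟩
  | mul g h _ _ ihg ihh =>
    obtain ⟨a1, c1, hc1, rfl⟩ := ihg
    obtain ⟨a2, c2, hc2, rfl⟩ := ihh
    refine ⟨a1 + a2, c1 * c2, Subgroup.mul_mem _ hc1 hc2, ?_⟩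
    have := (D.C_comm b k.val hk c2 hc2 a1).eq
    rw [zpow_add, ← mul_assoc, mul_assoc c1, this]
    simp only [mul_assoc]
  | inv g _ ih =>
    obtain ⟨a1, c1, hc1, rfl⟩ := ih
    refine ⟨-a1, c1⁻¹, Subgroup.inv_mem _ hc1, ?_⟩
    have := (D.C_comm b k.val hk c1⁻¹ (Subgroup.inv_mem _ hc1) (-a1)).eq
    rw [mul_inv_rev, ← zpow_neg, this]

theorem C_act (D : StData n E) (b : Fin n) (k : ℕ) (c : E) (hc : c ∈ D.C b k) :
    (∀ v t, t ≠ b → act (D.π c) v t = v t) ∧
    (∀ t : Fin n, (b ≤ t ∨ k ≤ t.val) → act (D.π c) (Pi.single t 1) = Pi.single t 1) := by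
  induction hc using Subgroup.closure_induction with
  | mem y hy =>
    obtain ⟨j, hj, hj', rfl⟩ := hy
    have hbj : b ≠ j := ne_of_gt hj
    rw [D.hx b j hbj]
    constructor
    · intro v t ht
      rw [act_tv hbj, mv_ne ht]
    · intro t ht
      rw [act_tv hbj, mv_triv]
      apply Pi.single_eq_of_ne
      rintro rfl
      rcases ht with ht | ht
      · exact absurd hj (not_lt.mpr ht)
      · omega
  | one =>
    rw [map_one]
    exact ⟨fun v t _ => by rw [act_one], fun t _ => by rw [act_one]⟩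
  | mul g h _ _ ihg ihh =>
    rw [map_mul]
    constructor
    · intro v t ht
      rw [act_mul, ihg.1 _ t ht, ihh.1 _ t ht]
    · intro t ht
      rw [act_mul, ihh.2 t ht, ihg.2 t ht]
  | inv g _ ih =>
    rw [map_inv]
    constructor
    · intro v t ht
      have := ih.1 (act (D.π g)⁻¹ v) t ht
      rw [act_act_inv] at this
      exact this.symm
    · intro t ht
      have := congrArg (act (D.π g)⁻¹) (ih.2 t ht)
      rw [act_inv_act] at this
      exact this.symm

theorem C_inj (D : StData n E) (b : Fin n) :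
    ∀ k : ℕ, k ≤ b.val → ∀ c ∈ D.C b k, D.π c = 1 → c = 1 := by
  intro k
  induction k with
  | zero =>
    intro _ c hc _
    have : D.C b 0 = ⊥ := by
      unfold C
      rw [Subgroup.closure_eq_bot_iff]
      rintro y ⟨j, _, hj, _⟩
      omega
    rw [this] at hc
    exact Subgroup.mem_bot.mp hc
  | succ k ih =>
    intro hk c hc h1
    let k' : Fin n := ⟨k, by omega⟩
    have hk' : k' < b := by
      rw [Fin.lt_def]; exact hk
    obtain ⟨a, c', hc', rfl⟩ := D.C_succ b k' hk' c hc
    have hbk : b ≠ k' := ne_of_gt hk'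
    have h2 : act (D.π (c' * D.x b k' ^ a)) (Pi.single k' 1) = Pi.single k' 1 := by
      rw [h1, act_one]
    rw [map_mul, map_zpow, D.hx b k' hbk, tv_zpow hbk, act_mul, act_tv hbk] at h2
    have h3 : mv b k' a (Pi.single k' 1) = Pi.single k' 1 + a • Pi.single b 1 := by
      ext t
      rw [mv_apply]
      simp only [Pi.add_apply, Pi.smul_apply, smul_eq_mul]
      by_cases ht : t = b
      · rw [if_pos ht, ht, Pi.single_eq_same, Pi.single_eq_same]
      · rw [if_neg ht, Pi.single_eq_of_ne ht]; ring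
    obtain ⟨_, h4⟩ := D.C_act b k'.val c' hc'
    rw [h3, act_add, act_smul, h4 k' (Or.inr le_rfl), h4 b (Or.inl le_rfl)] at h2
    have h5 := congrFun h2 b
    simp only [Pi.add_apply, Pi.smul_apply, smul_eq_mul, Pi.single_eq_same,
      Pi.single_eq_of_ne hbk] at h5
    have ha : a = 0 := by omega
    subst ha
    rw [zpow_zero, mul_one] at h1 ⊢
    exact ih (by omega) c' hc' h1

/-- conjugation by the smaller group normalises the unipotent part -/
theorem H_norm (D : StData n E) (b b' : Fin n) (hbb : b'.val + 1 = b.val) (g : E)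
    (hg : g ∈ D.H b') : (∀ c ∈ D.C b b.val, g * c * g⁻¹ ∈ D.C b b.val) ∧
      (∀ c ∈ D.C b b.val, g⁻¹ * c * g ∈ D.C b b.val) := by
  have hb'b : b' < b := by rw [Fin.lt_def]; omega
  have hleb : ∀ t : Fin n, t ≤ b' → t < b := fun t ht => lt_of_le_of_lt ht hb'b
  have hltb : ∀ t : Fin n, t < b → t ≤ b' := by
    intro t ht
    rw [Fin.le_def]; rw [Fin.lt_def] at ht; omega
  -- reduction to generators
  have red : ∀ g : E, (∀ j, j < b → g * D.x b j * g⁻¹ ∈ D.C b b.val) →
      ∀ c ∈ D.C b b.val, g * c * g⁻¹ ∈ D.C b b.val := by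
    intro g hg c hc
    induction hc using Subgroup.closure_induction with
    | mem y hy =>
      obtain ⟨j, hj, _, rfl⟩ := hy
      exact hg j hj
    | one => rw [mul_one, mul_inv_cancel]; exact Subgroup.one_mem _
    | mul y z _ _ ihy ihz =>
      have : g * (y * z) * g⁻¹ = (g * y * g⁻¹) * (g * z * g⁻¹) := by group
      rw [this]; exact Subgroup.mul_mem _ ihy ihz
    | inv y _ ih =>
      have : g * y⁻¹ * g⁻¹ = (g * y * g⁻¹)⁻¹ := by group
      rw [this]; exact Subgroup.inv_mem _ ih
  have memC : ∀ j, j < b → D.x b j ∈ D.C b b.val := fun j hj =>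
    Subgroup.subset_closure ⟨j, hj, by rw [Fin.lt_def] at hj; exact hj, rfl⟩
  have hxc : ∀ i j, i ≠ j → i ≤ b' → j ≤ b' → ∀ a : ℤ, ∀ k, k < b →
      D.x i j ^ a * D.x b k * (D.x i j ^ a)⁻¹ ∈ D.C b b.val := by
    intro i j hij hi hj a k hk
    have hib := hleb i hi
    have hjb := hleb j hj
    by_cases hik : i = k
    · subst hik
      have e := D.st_zpow b i j (ne_of_gt hib) hij (ne_of_gt hjb) 1 a
      rw [zpow_one, one_mul] at e
      -- x b i * x i j ^ a = x b j ^ a * x i j ^ a * x b i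
      have e2 : D.x i j ^ a * D.x b i * (D.x i j ^ a)⁻¹ = (D.x b j ^ a)⁻¹ * D.x b i := by
        rw [mul_inv_eq_iff_eq_mul, mul_assoc, e]
        group
      rw [e2]
      exact Subgroup.mul_mem _ (Subgroup.inv_mem _ (Subgroup.zpow_mem _ (memC j hjb) a)) (memC i hib)
    · have e := D.comm_zpow i j b k hij (ne_of_gt hk) (ne_of_lt hjb) hik a 1
      rw [zpow_one] at e
      rw [e, mul_inv_cancel_right]
      exact memC k hk
  have hsc : ∀ f : Fg n, FixAbove b' (f : SLn n) → ∀ k, k < b →
      D.s f * D.x b k * (D.s f)⁻¹ ∈ D.C b b.val := by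
    intro f hf k hk
    obtain ⟨σ, ε, hε, hσ⟩ := signed_perm (f : SLn n) f.2
    rw [D.hF f σ ε hε hσ b k (ne_of_gt hk), (fix_of_signed hσ (fun v => hf v b hb'b)).1]
    exact Subgroup.zpow_mem _ (memC _ (hleb _ (perm_le hσ hf (hltb k hk)))) _
  induction hg using Subgroup.closure_induction with
  | mem g hg =>
    rcases hg with ⟨i, j, hij, hi, hj, rfl⟩ | ⟨f, hf, rfl⟩
    · refine ⟨red _ ?_, ?_⟩
      · intro k hk
        have := hxc i j hij hi hj 1 k hk
        rwa [zpow_one] at this
      · have := red (D.x i j)⁻¹ (fun k hk => by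
          have := hxc i j hij hi hj (-1) k hk
          rwa [zpow_neg_one] at this)
        simpa only [inv_inv] using this
    · refine ⟨red _ (hsc f hf), ?_⟩
      have := red (D.s f)⁻¹ (fun k hk => by
        have := hsc f⁻¹ (FixAbove.inv hf) k hk
        rwa [map_inv] at this)
      simpa only [inv_inv] using this
  | one => simp
  | mul g h _ _ ihg ihh =>
    constructor
    · intro c hc
      have : g * h * c * (g * h)⁻¹ = g * (h * c * h⁻¹) * g⁻¹ := by group
      rw [this]; exact ihg.1 _ (ihh.1 c hc)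
    · intro c hc
      have : (g * h)⁻¹ * c * (g * h) = h⁻¹ * (g⁻¹ * c * g) * h := by group
      rw [this]; exact ihh.2 _ (ihg.2 c hc)
  | inv g _ ih =>
    refine ⟨?_, ?_⟩
    · simpa only [inv_inv] using ih.2
    · simpa only [inv_inv] using ih.1

theorem P_decomp (D : StData n E) (b b' : Fin n) (hbb : b'.val + 1 = b.val) (g : E)
    (hg : g ∈ D.P b) : ∃ c ∈ D.C b b.val, ∃ h ∈ D.H b', g = c * h := by
  have hb'b : b' < b := by rw [Fin.lt_def]; omega
  have hltb : ∀ t : Fin n, t < b → t ≤ b' := by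
    intro t ht
    rw [Fin.le_def]; rw [Fin.lt_def] at ht; omega
  induction hg using Subgroup.closure_induction with
  | mem g hg =>
    rcases hg with ⟨i, j, hij, hi, hj, rfl⟩ | ⟨f, hf, rfl⟩
    · by_cases hib : i = b
      · subst hib
        exact ⟨_, Subgroup.subset_closure ⟨j, hj, by rw [Fin.lt_def] at hj; exact hj, rfl⟩,
          1, Subgroup.one_mem _, by rw [mul_one]⟩
      · exact ⟨1, Subgroup.one_mem _, _, Subgroup.subset_closure
          (Or.inl ⟨i, j, hij, hltb i (lt_of_le_of_ne hi hib), hltb j hj, rfl⟩), by rw [one_mul]⟩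
    · refine ⟨1, Subgroup.one_mem _, _, Subgroup.subset_closure (Or.inr ⟨f, ?_, rfl⟩),
        by rw [one_mul]⟩
      intro v k hk
      apply hf v k
      rw [Fin.le_def]; rw [Fin.lt_def] at hk; omega
  | one => exact ⟨1, Subgroup.one_mem _, 1, Subgroup.one_mem _, by rw [mul_one]⟩
  | mul g1 g2 _ _ ih1 ih2 =>
    obtain ⟨c1, hc1, h1, hh1, rfl⟩ := ih1
    obtain ⟨c2, hc2, h2, hh2, rfl⟩ := ih2
    refine ⟨c1 * (h1 * c2 * h1⁻¹), Subgroup.mul_mem _ hc1 ((D.H_norm b b' hbb h1 hh1).1 c2 hc2),
      h1 * h2, Subgroup.mul_mem _ hh1 hh2, by group⟩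
  | inv g1 _ ih1 =>
    obtain ⟨c1, hc1, h1, hh1, rfl⟩ := ih1
    refine ⟨h1⁻¹ * c1⁻¹ * h1, (D.H_norm b b' hbb h1 hh1).2 _ (Subgroup.inv_mem _ hc1),
      h1⁻¹, Subgroup.inv_mem _ hh1, by group⟩

theorem H_act (D : StData n E) (b : Fin n) (g : E) (hg : g ∈ D.H b) :
    (∀ v t, b < t → act (D.π g) v t = v t) ∧
    (∀ t : Fin n, b < t → act (D.π g) (Pi.single t 1) = Pi.single t 1) := by
  induction hg using Subgroup.closure_induction with
  | mem y hy =>
    rcases hy with ⟨i, j, hij, hi, hj, rfl⟩ | ⟨f, hf, rfl⟩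
    · rw [D.hx i j hij]
      constructor
      · intro v t ht
        rw [act_tv hij, mv_ne (ne_of_gt (lt_of_le_of_lt hi ht))]
      · intro t ht
        rw [act_tv hij, mv_triv]
        exact Pi.single_eq_of_ne (ne_of_lt (lt_of_le_of_lt hj ht)) 1
    · rw [D.hs f]
      refine ⟨hf, ?_⟩
      intro t ht
      obtain ⟨σ, ε, hε, hσ⟩ := signed_perm (f : SLn n) f.2
      obtain ⟨h1, h2⟩ := fix_of_signed hσ (fun v => hf v t ht)
      ext k
      obtain ⟨k', rfl⟩ := σ.surjective k
      rw [hσ]
      by_cases hk : k' = t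
      · rw [hk, h1, h2, Pi.single_eq_same, one_mul]
      · rw [Pi.single_eq_of_ne hk, mul_zero, Pi.single_eq_of_ne]
        intro h3
        exact hk (σ.injective (h3.trans h1.symm))
  | one =>
    rw [map_one]
    exact ⟨fun v t _ => by rw [act_one], fun t _ => by rw [act_one]⟩
  | mul g h _ _ ihg ihh =>
    rw [map_mul]
    constructor
    · intro v t ht
      rw [act_mul, ihg.1 _ t ht, ihh.1 _ t ht]
    · intro t ht
      rw [act_mul, ihh.2 t ht, ihg.2 t ht]
  | inv g _ ih =>
    rw [map_inv]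
    constructor
    · intro v t ht
      have := ih.1 (act (D.π g)⁻¹ v) t ht
      rw [act_act_inv] at this
      exact this.symm
    · intro t ht
      have := congrArg (act (D.π g)⁻¹) (ih.2 t ht)
      rw [act_inv_act] at this
      exact this.symm

/-- injectivity of the projection on the subgroup generated by the lifts -/
theorem H_inj (D : StData n E) : ∀ m : ℕ, ∀ b : Fin n, b.val = m → ∀ g ∈ D.H b,
    D.π g = 1 → g = 1 := by
  intro m
  induction m with
  | zero =>
    intro b hb g hg _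
    have : D.H b = ⊥ := by
      unfold H
      rw [Subgroup.closure_eq_bot_iff]
      rintro y (⟨i, j, hij, hi, hj, rfl⟩ | ⟨f, hf, rfl⟩)
      · exfalso
        apply hij
        rw [Fin.le_def] at hi hj
        apply Fin.ext
        omega
      · have hf1 : f = 1 := by
          have h1 : D.s f ∈ D.H b := Subgroup.subset_closure (Or.inr ⟨f, hf, rfl⟩)
          have h2 := D.H_act b _ h1
          rw [D.hs f] at h2
          apply Subtype.ext
          exact eq_one_of_base b hb (f : SLn n) h2.1 h2.2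
        rw [hf1, map_one]
        rfl
    rw [this] at hg
    exact Subgroup.mem_bot.mp hg
  | succ m ih =>
    intro b hb g hg h1
    let b' : Fin n := ⟨m, by omega⟩
    have hbb : b'.val + 1 = b.val := hb.symm
    have hb'b : b' < b := by rw [Fin.lt_def]; omega
    have hP := D.stab (by omega) g hg (by rw [h1, act_one])
    obtain ⟨c, hc, h, hh, rfl⟩ := D.P_decomp b b' hbb g hP
    rw [map_mul] at h1
    have hc1 : D.π c = 1 := by
      apply eq_of_act
      intro v
      rw [act_one]
      ext t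
      by_cases ht : t = b
      · rw [ht]
        have h2 : D.π c = (D.π h)⁻¹ := eq_inv_of_mul_eq_one_left h1
        rw [h2, ← map_inv]
        exact (D.H_act b' h⁻¹ (Subgroup.inv_mem _ hh)).1 v b hb'b
      · exact (D.C_act b b.val c hc).1 v t ht
    have hh1 : D.π h = 1 := by rw [hc1, one_mul] at h1; exact h1
    rw [D.C_inj b b.val le_rfl c hc hc1, ih b' rfl h hh hh1, mul_one]

end StData

end Pool.Agent.Helper632
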