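import Mathlib
import Pool.Agent.Helper632.Peak5

set_option autoImplicit false

namespace Pool.Agent.Helper632

namespace StData

variable {n : ℕ} {E : Type} [Group E]

theorem H_mono (D : StData n E) {b b' : Fin n} (h : b' ≤ b) : D.H b' ≤ D.H b := by
  unfold H
  apply Subgroup.closure_mono
  rintro y (⟨i, j, hij, hi, hj, rfl⟩ | ⟨f, hf, rfl⟩)
  · exact Or.inl ⟨i, j, hij, hi.trans h, hj.trans h, rfl⟩
  · exact Or.inr ⟨f, fun v k hk => hf v k (lt_of_le_of_lt h hk), rfl⟩

theorem C_le_H (D : StData n E) (b : Fin n) (k : ℕ) : D.C b k ≤ D.H b := by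
  unfold C H
  apply Subgroup.closure_mono
  rintro y ⟨j, hj, _, rfl⟩
  exact Or.inl ⟨b, j, ne_of_gt hj, le_rfl, le_of_lt hj, rfl⟩

/-- any nonzero vector can be moved to a positive multiple of the base vector -/
theorem reduce (D : StData n E) {b : Fin n} (hb : 0 < b.val) : ∀ N : ℕ, ∀ v : Fin n → ℤ,
    nrm v ≤ N → v ≠ 0 → Supp b v → ∃ g ∈ D.H b, ∃ d : ℤ, 0 < d ∧
      act (D.π g) v = d • Pi.single b 1 := by
  intro N
  induction N with
  | zero =>
    intro v hN hv _
    exfalso
    apply hv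
    ext i
    have h1 : (v i).natAbs ≤ nrm v :=
      Finset.single_le_sum (f := fun i => (v i).natAbs) (fun _ _ => Nat.zero_le _)
        (Finset.mem_univ i)
    simp only [Pi.zero_apply]
    omega
  | succ N ih =>
    intro v hN hv hs
    by_cases hp : ∃ i j a, Proper v i j a
    · obtain ⟨i, j, a, hp⟩ := hp
      have hi := hs.le hp.vi
      have hj := hs.le hp.vj
      have hlt := hp.nrm_lt
      obtain ⟨g, hg, d, hd, h1⟩ := ih (mv i j a v) (by omega) (mv_ne_zero hp.ne a hv) (hs.mv hi a)
      have hm : D.x i j ∈ D.H b := Subgroup.subset_closure (Or.inl ⟨i, j, hp.ne, hi, hj, rfl⟩)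
      refine ⟨g * D.x i j ^ a, Subgroup.mul_mem _ hg (Subgroup.zpow_mem _ hm a), d, hd, ?_⟩
      rw [map_mul, act_mul, map_zpow, D.hx i j hp.ne, tv_zpow hp.ne, act_tv hp.ne, h1]
    · push Not at hp
      obtain ⟨f, hf, d, hd, h1⟩ := base_form hb hv hs hp
      refine ⟨D.s f⁻¹, Subgroup.subset_closure (Or.inr ⟨f⁻¹, FixAbove.inv hf, rfl⟩), d, hd, ?_⟩
      rw [D.hs, h1, act_smul]
      congr 1
      exact act_inv_act _ _

/-- clearing the row `b` -/
theorem clear_row (D : StData n E) (b : Fin n) (r : Fin n → ℤ) (S : Finset (Fin n))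
    (hS : ∀ j ∈ S, j < b) : ∃ c ∈ D.C b b.val, ∀ v, act (D.π c) v =
      v - (∑ j ∈ S, r j * v j) • Pi.single b 1 := by
  induction S using Finset.induction_on with
  | empty =>
    refine ⟨1, Subgroup.one_mem _, ?_⟩
    intro v
    rw [map_one, act_one]
    simp
  | insert j S hjS ih =>
    obtain ⟨c, hc, h⟩ := ih (fun k hk => hS k (Finset.mem_insert_of_mem hk))
    have hjb := hS j (Finset.mem_insert_self j S)
    have hbj : b ≠ j := ne_of_gt hjb
    have hm : D.x b j ∈ D.C b b.val :=
      Subgroup.subset_closure ⟨j, hjb, by rw [Fin.lt_def] at hjb; exact hjb, rfl⟩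
    refine ⟨D.x b j ^ (-(r j)) * c, Subgroup.mul_mem _ (Subgroup.zpow_mem _ hm _) hc, ?_⟩
    intro v
    rw [map_mul, act_mul, h v, map_zpow, D.hx b j hbj, tv_zpow hbj, act_tv hbj,
      Finset.sum_insert hjS]
    ext t
    rw [mv_apply]
    simp only [Pi.sub_apply, Pi.smul_apply, smul_eq_mul]
    by_cases ht : t = b
    · rw [if_pos ht, ht, Pi.single_eq_same, Pi.single_eq_of_ne (Ne.symm hbj)]
      ring
    · rw [if_neg ht, Pi.single_eq_of_ne ht]
      ring

theorem H_surj (D : StData n E) : ∀ m : ℕ, ∀ b : Fin n, b.val = m → ∀ g : SLn n,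
    (∀ v k, b < k → act g v k = v k) →
    (∀ k, b < k → act g (Pi.single k 1) = Pi.single k 1) → ∃ h ∈ D.H b, D.π h = g := by
  intro m
  induction m with
  | zero =>
    intro b hb g h1 h2
    exact ⟨1, Subgroup.one_mem _, by rw [map_one]; exact (eq_one_of_base b hb g h1 h2).symm⟩
  | succ m ih =>
    intro b hb g h1 h2
    let b' : Fin n := ⟨m, by omega⟩
    have hbb : b'.val + 1 = b.val := hb.symm
    have hb'b : b' < b := by rw [Fin.lt_def]; omega
    have hv0 : act g (Pi.single b 1) ≠ 0 := by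
      apply act_ne_zero
      intro h0
      have := congrFun h0 b
      simp at this
    have hvs : Supp b (act g (Pi.single b 1)) := by
      intro k hk
      rw [h1 _ k hk]
      exact Pi.single_eq_of_ne (ne_of_gt hk) 1
    obtain ⟨y, hy, d, hd, h3⟩ := D.reduce (by omega) _ _ le_rfl hv0 hvs
    -- d = 1
    have hd1 : d = 1 := by
      have h4 : act (D.π y * g)⁻¹ (d • Pi.single b 1) = Pi.single b 1 := by
        rw [← h3, ← act_mul (D.π y) g, act_inv_act]
      rw [act_smul] at h4
      have h5 := congrFun h4 b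
      simp only [Pi.smul_apply, smul_eq_mul, Pi.single_eq_same] at h5
      exact Int.eq_one_of_mul_eq_one_right (le_of_lt hd) h5
    rw [hd1, one_smul, ← act_mul] at h3
    have hya := D.H_act b y hy
    set g1 : SLn n := D.π y * g with hg1
    have g1r : ∀ v k, b < k → act g1 v k = v k := by
      intro v k hk
      rw [hg1, act_mul, hya.1 _ k hk, h1 _ k hk]
    have g1c : ∀ k, b < k → act g1 (Pi.single k 1) = Pi.single k 1 := by
      intro k hk
      rw [hg1, act_mul, h2 k hk, hya.2 k hk]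
    -- clear the row
    obtain ⟨c, hc, h4⟩ := D.clear_row b (fun j => mat g1 b j) (Finset.univ.filter (fun j => j < b))
      (fun j hj => (Finset.mem_filter.mp hj).2)
    have hrow : ∀ v, act g1 v b = v b + ∑ j ∈ Finset.univ.filter (fun j => j < b), mat g1 b j * v j := by
      intro v
      have h5 : act g1 v b = ∑ j, mat g1 b j * v j := by
        unfold act
        rw [Matrix.mulVec, dotProduct]
      rw [h5, ← Finset.sum_filter_add_sum_filter_not Finset.univ (fun j => j < b)]
      rw [add_comm]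
      congr 1
      rw [Finset.sum_eq_single b]
      · rw [mat_apply_eq_act, h3, Pi.single_eq_same, one_mul]
      · intro j hj hjb
        have hj' : b < j := lt_of_le_of_ne (not_lt.mp (Finset.mem_filter.mp hj).2) (Ne.symm hjb)
        rw [mat_apply_eq_act, g1c j hj', Pi.single_eq_of_ne (ne_of_lt hj'), zero_mul]
      · intro hb'
        exfalso
        apply hb'
        rw [Finset.mem_filter]
        exact ⟨Finset.mem_univ b, lt_irrefl b⟩
    have hca := D.C_act b b.val c hc
    obtain ⟨z, hz, hz1⟩ := ih b' rfl (g1 * D.π c) (by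
      intro v k hk
      rw [act_mul]
      have hbk : b ≤ k := by rw [Fin.le_def]; rw [Fin.lt_def] at hk; omega
      rcases eq_or_lt_of_le hbk with hbk | hbk
      · rw [← hbk, h4 v, sub_eq_add_neg, act_add, ← neg_smul, act_smul, h3]
        simp only [Pi.add_apply, Pi.smul_apply, smul_eq_mul, Pi.single_eq_same]
        rw [hrow v]
        ring
      · rw [g1r _ k hbk, hca.1 v k (ne_of_gt hbk)]) (by
      intro k hk
      rw [act_mul]
      have hbk : b ≤ k := by rw [Fin.le_def]; rw [Fin.lt_def] at hk; omega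
      rw [hca.2 k (Or.inl hbk)]
      rcases eq_or_lt_of_le hbk with hbk | hbk
      · rw [← hbk]; exact h3
      · exact g1c k hbk)
    refine ⟨y⁻¹ * z * c⁻¹, Subgroup.mul_mem _ (Subgroup.mul_mem _ (Subgroup.inv_mem _ hy)
      (D.H_mono (le_of_lt hb'b) hz)) (Subgroup.inv_mem _ (D.C_le_H b b.val hc)), ?_⟩
    rw [map_mul, map_mul, map_inv, map_inv, hz1, hg1]
    group

/-- splitting homomorphism -/
theorem exists_section (D : StData n E) (hn : 0 < n) :
    ∃ t : SLn n →* E, ∀ g, D.π (t g) = g := by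
  let b : Fin n := ⟨n - 1, by omega⟩
  have htop : ∀ k : Fin n, ¬ b < k := by
    intro k hk
    rw [Fin.lt_def] at hk
    have : b.val = n - 1 := rfl
    omega
  have hs : ∀ g : SLn n, ∃ h ∈ D.H b, D.π h = g := fun g =>
    D.H_surj b.val b rfl g (fun v k hk => absurd hk (htop k)) (fun k hk => absurd hk (htop k))
  have hi : ∀ h ∈ D.H b, D.π h = 1 → h = 1 := D.H_inj b.val b rfl
  have hi2 : ∀ h ∈ D.H b, ∀ h' ∈ D.H b, D.π h = D.π h' → h = h' := by
    intro h hh h' hh' he
    have := hi (h * h'⁻¹) (Subgroup.mul_mem _ hh (Subgroup.inv_mem _ hh')) (by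
      rw [map_mul, map_inv, he, mul_inv_cancel])
    exact mul_inv_eq_one.mp this
  choose t ht1 ht2 using hs
  refine ⟨{ toFun := t, map_one' := ?_, map_mul' := ?_ }, ht2⟩
  · exact hi _ (ht1 1) (ht2 1)
  · intro g h
    apply hi2 _ (ht1 _) _ (Subgroup.mul_mem _ (ht1 g) (ht1 h))
    rw [ht2, map_mul, ht2, ht2]

end StData

end Pool.Agent.Helper632
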