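import Mathlib
import Pool.Agent.Helper632.Peak6

set_option autoImplicit false

namespace Pool.Agent.Helper632

section

variable {n : ℕ}

/-- diagonal element -/
noncomputable def dg (ε : Fin n → ℤ) : SLn n :=
  if h : ∏ i, ε i = 1 then mkSL (Matrix.diagonal ε) (by rw [Matrix.det_diagonal, h]) else 1

theorem act_dg {ε : Fin n → ℤ} (h : ∏ i, ε i = 1) (v : Fin n → ℤ) (i : Fin n) :
    act (dg ε) v i = ε i * v i := by
  unfold act dg
  rw [dif_pos h, mat_mkSL, Matrix.mulVec_diagonal]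

theorem dg_mul {ε ε' : Fin n → ℤ} (h : ∏ i, ε i = 1) (h' : ∏ i, ε' i = 1) :
    dg ε * dg ε' = dg (fun i => ε i * ε' i) := by
  have h2 : ∏ i, (ε i * ε' i) = 1 := by rw [Finset.prod_mul_distrib, h, h', one_mul]
  apply eq_of_act
  intro v
  ext i
  rw [act_mul, act_dg h, act_dg h', act_dg h2]
  ring

theorem dg_one : dg (fun _ : Fin n => (1 : ℤ)) = 1 := by
  apply eq_of_act
  intro v
  ext i
  rw [act_dg (by simp), act_one, one_mul]

theorem dg_mem {ε : Fin n → ℤ} (h : ∏ i, ε i = 1) (hε : ∀ i, ε i = 1 ∨ ε i = -1) :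
    dg ε ∈ Fg n :=
  mem_Fg_of_signed _ (Equiv.refl _) ε hε (fun v i => act_dg h v i)

theorem dg_sq {ε : Fin n → ℤ} (h : ∏ i, ε i = 1) (hε : ∀ i, ε i = 1 ∨ ε i = -1) :
    dg ε * dg ε = 1 := by
  rw [dg_mul h h, ← dg_one]
  congr 1
  ext i
  rcases hε i with h1 | h1 <;> rw [h1] <;> rfl

theorem exists_signed (σ : Equiv.Perm (Fin n)) : ∃ f ∈ Fg n, ∃ ε : Fin n → ℤ,
    (∀ i, ε i = 1 ∨ ε i = -1) ∧ ∀ v i, act f v (σ i) = ε i * v i := by
  induction σ using Equiv.Perm.swap_induction_on with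
  | one =>
    exact ⟨1, Subgroup.one_mem _, fun _ => 1, fun _ => Or.inl rfl, fun v i => by
      rw [act_one, one_mul]; rfl⟩
  | swap_mul σ x y hxy ih =>
    obtain ⟨f, hf, ε, hε, h⟩ := ih
    refine ⟨om x y * f, Subgroup.mul_mem _ (om_mem hxy) hf, fun i => omε x (σ i) * ε i, ?_, ?_⟩
    · intro i
      rcases omε_unit x (σ i) with h1 | h1 <;> rcases hε i with h2 | h2 <;>
        simp only [h1, h2] <;> simp
    · intro v i
      rw [act_mul, Equiv.Perm.mul_apply, om_signed hxy, h]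
      ring

theorem conj_dg {f : SLn n} {σ : Equiv.Perm (Fin n)} {ε' : Fin n → ℤ}
    (h : ∀ v i, act f v (σ i) = ε' i * v i) {ε : Fin n → ℤ} (hε : ∏ i, ε i = 1) :
    f * dg ε * f⁻¹ = dg (fun i => ε (σ.symm i)) := by
  have h2 : ∏ i, ε (σ.symm i) = 1 := by rw [Equiv.prod_comp σ.symm ε, hε]
  rw [mul_inv_eq_iff_eq_mul]
  apply eq_of_act
  intro v
  ext k
  obtain ⟨i, rfl⟩ := σ.surjective k
  rw [act_mul, act_mul, h, act_dg hε, act_dg h2, h, Equiv.symm_apply_apply]
  ring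

theorem exists_perm_two (a b l m : Fin n) (hab : a ≠ b) (hlm : l ≠ m) :
    ∃ σ : Equiv.Perm (Fin n), σ a = l ∧ σ b = m := by
  have h1 : Equiv.swap a l b ≠ l := by
    intro h
    have h2 : Equiv.swap a l b = Equiv.swap a l a := by rw [h, Equiv.swap_apply_left]
    exact hab ((Equiv.swap a l).injective h2).symm
  refine ⟨Equiv.swap (Equiv.swap a l b) m * Equiv.swap a l, ?_, ?_⟩
  · rw [Equiv.Perm.mul_apply, Equiv.swap_apply_left, Equiv.swap_apply_of_ne_of_ne (Ne.symm h1) hlm]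
  · rw [Equiv.Perm.mul_apply, Equiv.swap_apply_left]

/-- Steinberg relation for elementary matrices -/
theorem tv_st {i j l : Fin n} (a b : ℤ) (h1 : i ≠ j) (h2 : j ≠ l) (h3 : i ≠ l) :
    tv j l b * tv i j a = tv i l (-(a * b)) * tv i j a * tv j l b := by
  apply eq_of_act
  intro v
  rw [act_mul, act_mul, act_mul, act_tv h2, act_tv h1, act_tv h3, act_tv h2, act_tv h1]
  exact mv_st a b v h1 h2 h3

theorem tv_comm {i j k l : Fin n} (a b : ℤ) (hij : i ≠ j) (hkl : k ≠ l) (h1 : j ≠ k)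
    (h2 : i ≠ l) : tv i j a * tv k l b = tv k l b * tv i j a := by
  by_cases hik : i = k
  · subst hik
    apply eq_of_act
    intro v
    rw [act_mul, act_mul, act_tv hij, act_tv hkl, act_tv hkl, act_tv hij]
    ext t
    by_cases ht : t = i
    · rw [ht, mv_self, mv_self, mv_self, mv_self, mv_ne (Ne.symm hij), mv_ne (Ne.symm hkl)]
      ring
    · rw [mv_ne ht, mv_ne ht, mv_ne ht, mv_ne ht]
  · apply eq_of_act
    intro v
    rw [act_mul, act_mul, act_tv hij, act_tv hkl, act_tv hkl, act_tv hij]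
    exact (mv_comm a b v hik h2 (Ne.symm h1)).symm

/-- conjugating an elementary matrix by a signed permutation -/
theorem conj_tv {f : SLn n} {σ : Equiv.Perm (Fin n)} {ε : Fin n → ℤ}
    (hε : ∀ i, ε i = 1 ∨ ε i = -1)
    (h : ∀ v i, act f v (σ i) = ε i * v i) {i j : Fin n} (hij : i ≠ j) (a : ℤ) :
    f * tv i j a * f⁻¹ = tv (σ i) (σ j) (ε i * ε j * a) := by
  have hs : σ i ≠ σ j := fun h' => hij (σ.injective h')
  rw [mul_inv_eq_iff_eq_mul]
  apply eq_of_act
  intro v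
  ext k
  obtain ⟨t, rfl⟩ := σ.surjective k
  rw [act_mul, act_mul, h, act_tv hij, act_tv hs]
  by_cases ht : t = i
  · rw [ht, mv_self, mv_self, h, h]
    have : ε j * ε j = 1 := by rcases hε j with h2 | h2 <;> rw [h2] <;> norm_num
    linear_combination (-(ε i * a * v j)) * this
  · rw [mv_ne ht, mv_ne (fun h' => ht (σ.injective h')), h]

end

end Pool.Agent.Helper632
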