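import Mathlib
import Pool.Agent.Helper632.Torus

set_option autoImplicit false

namespace Pool.Agent.Helper632

section

variable {n : ℕ}

/-- subgroup generated by elementary matrices with indices at most `b` -/
def TG (b : Fin n) : Subgroup (SLn n) :=
  Subgroup.closure {g | ∃ i j, i ≠ j ∧ i ≤ b ∧ j ≤ b ∧ g = tv i j 1}

theorem tv_mem_TG {b i j : Fin n} (h : i ≠ j) (hi : i ≤ b) (hj : j ≤ b) (a : ℤ) :
    tv i j a ∈ TG b := by
  have hm : tv i j 1 ∈ TG b := Subgroup.subset_closure ⟨i, j, h, hi, hj, rfl⟩
  rw [← tv_zpow h]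
  exact Subgroup.zpow_mem _ hm a

theorem om_mem_TG {b i j : Fin n} (h : i ≠ j) (hi : i ≤ b) (hj : j ≤ b) :
    om i j ∈ TG b :=
  Subgroup.mul_mem _ (Subgroup.mul_mem _ (tv_mem_TG h hi hj 1)
    (Subgroup.inv_mem _ (tv_mem_TG (Ne.symm h) hj hi 1))) (tv_mem_TG h hi hj 1)

theorem base_form' {b : Fin n} (hb : 0 < b.val) {v : Fin n → ℤ} (hv : v ≠ 0) (hs : Supp b v)
    (h : ∀ i j a, ¬ Proper v i j a) :
    ∃ f ∈ TG b, ∃ d : ℤ, 0 < d ∧ v = d • act f (Pi.single b 1) := by
  obtain ⟨i, hi⟩ := Function.ne_iff.mp hv
  simp only [Pi.zero_apply] at hi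
  have huniq : ∀ j, j ≠ i → v j = 0 := by
    intro j hj
    by_contra hj0
    rcases le_total (v j).natAbs (v i).natAbs with hle | hle
    · obtain ⟨a, ha⟩ := exists_proper (Ne.symm hj) hi hj0 hle
      exact h _ _ _ ha
    · obtain ⟨a, ha⟩ := exists_proper hj hj0 hi hle
      exact h _ _ _ ha
  have hib := hs.le hi
  by_cases hib' : i = b
  · subst hib'
    rcases lt_or_gt_of_ne hi with hneg | hpos
    · let j : Fin n := ⟨0, by omega⟩
      have hji : i ≠ j := by
        intro h0
        have : i.val = 0 := by rw [h0]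
        omega
      have hjle : j ≤ i := by
        change (0 : ℕ) ≤ i.val
        omega
      refine ⟨om i j * om i j, Subgroup.mul_mem _ (om_mem_TG hji le_rfl hjle)
        (om_mem_TG hji le_rfl hjle), -v i, by omega, ?_⟩
      rw [act_mul, act_om hji, act_om hji]
      ext k
      simp only [Pi.smul_apply, smul_eq_mul]
      by_cases hkj : k = j
      · rw [hkj, Function.update_self, Function.update_of_ne hji, Function.update_self,
          Pi.single_eq_of_ne (Ne.symm hji), huniq j (Ne.symm hji)]
        ring
      · by_cases hki : k = i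
        · rw [hki, Function.update_of_ne hji, Function.update_self, Function.update_self,
            Pi.single_eq_same]
          ring
        · rw [Function.update_of_ne hkj, Function.update_of_ne hki, Function.update_of_ne hkj,
            Function.update_of_ne hki, Pi.single_eq_of_ne hki, huniq k hki]
          ring
    · refine ⟨1, Subgroup.one_mem _, v i, hpos, ?_⟩
      rw [act_one]
      ext k
      simp only [Pi.smul_apply, smul_eq_mul]
      by_cases hki : k = i
      · rw [hki, Pi.single_eq_same]; ring
      · rw [Pi.single_eq_of_ne hki, huniq k hki]; ring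
  · rcases lt_or_gt_of_ne hi with hneg | hpos
    · refine ⟨om b i, om_mem_TG (Ne.symm hib') le_rfl hib, -v i, by omega, ?_⟩
      rw [act_om (Ne.symm hib')]
      ext k
      simp only [Pi.smul_apply, smul_eq_mul]
      by_cases hki : k = i
      · rw [hki, Function.update_self, Pi.single_eq_same]; ring
      · by_cases hkb : k = b
        · rw [hkb, Function.update_of_ne (Ne.symm hib'), Function.update_self,
            Pi.single_eq_of_ne hib', huniq b (Ne.symm hib')]
          ring
        · rw [Function.update_of_ne hki, Function.update_of_ne hkb, Pi.single_eq_of_ne hkb,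
            huniq k hki]
          ring
    · refine ⟨om i b, om_mem_TG hib' hib le_rfl, v i, hpos, ?_⟩
      rw [act_om hib']
      ext k
      simp only [Pi.smul_apply, smul_eq_mul]
      by_cases hkb : k = b
      · rw [hkb, Function.update_self, Pi.single_eq_of_ne hib', huniq b (Ne.symm hib')]; ring
      · by_cases hki : k = i
        · rw [hki, Function.update_of_ne hib', Function.update_self, Pi.single_eq_same]; ring
        · rw [Function.update_of_ne hkb, Function.update_of_ne hki, Pi.single_eq_of_ne hkb,
            huniq k hki]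
          ring

theorem reduce' {b : Fin n} (hb : 0 < b.val) : ∀ N : ℕ, ∀ v : Fin n → ℤ,
    nrm v ≤ N → v ≠ 0 → Supp b v → ∃ g ∈ TG b, ∃ d : ℤ, 0 < d ∧
      act g v = d • Pi.single b 1 := by
  intro N
  induction N with
  | zero =>
    intro v hN hv _
    exfalso
    apply hv
    ext i
    have h1 : (v i).natAbs ≤ nrm v :=
      Finset.single_le_sum (f := fun i => (v i).natAbs) (fun _ _ => Nat.zero_le _)
        (Finset.mem_univ i)
    simp only [Pi.zero_apply]
    omega
  | succ N ih =>
    intro v hN hv hs
    by_cases hp : ∃ i j a, Proper v i j a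
    · obtain ⟨i, j, a, hp⟩ := hp
      have hi := hs.le hp.vi
      have hj := hs.le hp.vj
      have hlt := hp.nrm_lt
      obtain ⟨g, hg, d, hd, h1⟩ := ih (mv i j a v) (by omega) (mv_ne_zero hp.ne a hv) (hs.mv hi a)
      refine ⟨g * tv i j a, Subgroup.mul_mem _ hg (tv_mem_TG hp.ne hi hj a), d, hd, ?_⟩
      rw [act_mul, act_tv hp.ne, h1]
    · push Not at hp
      obtain ⟨f, hf, d, hd, h1⟩ := base_form' hb hv hs hp
      refine ⟨f⁻¹, Subgroup.inv_mem _ hf, d, hd, ?_⟩
      rw [h1, act_smul, act_inv_act]

theorem clear_row' (b : Fin n) (r : Fin n → ℤ) (S : Finset (Fin n))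
    (hS : ∀ j ∈ S, j < b) : ∃ c ∈ TG b, ∀ v, act c v =
      v - (∑ j ∈ S, r j * v j) • Pi.single b 1 := by
  induction S using Finset.induction_on with
  | empty =>
    refine ⟨1, Subgroup.one_mem _, ?_⟩
    intro v
    rw [act_one]
    simp
  | insert j S hjS ih =>
    obtain ⟨c, hc, h⟩ := ih (fun k hk => hS k (Finset.mem_insert_of_mem hk))
    have hjb := hS j (Finset.mem_insert_self j S)
    have hbj : b ≠ j := ne_of_gt hjb
    refine ⟨tv b j (-(r j)) * c, Subgroup.mul_mem _ (tv_mem_TG hbj le_rfl (le_of_lt hjb) _) hc, ?_⟩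
    intro v
    rw [act_mul, h v, act_tv hbj, Finset.sum_insert hjS]
    ext t
    rw [mv_apply]
    simp only [Pi.sub_apply, Pi.smul_apply, smul_eq_mul]
    by_cases ht : t = b
    · rw [if_pos ht, ht, Pi.single_eq_same, Pi.single_eq_of_ne (Ne.symm hbj)]
      ring
    · rw [if_neg ht, Pi.single_eq_of_ne ht]
      ring

theorem TG_mono {b b' : Fin n} (h : b' ≤ b) : TG b' ≤ TG b := by
  unfold TG
  apply Subgroup.closure_mono
  rintro y ⟨i, j, hij, hi, hj, rfl⟩
  exact ⟨i, j, hij, hi.trans h, hj.trans h, rfl⟩

theorem TG_act (b : Fin n) (g : SLn n) (hg : g ∈ TG b) :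
    (∀ v t, b < t → act g v t = v t) ∧
    (∀ t : Fin n, b < t → act g (Pi.single t 1) = Pi.single t 1) := by
  induction hg using Subgroup.closure_induction with
  | mem y hy =>
    rcases hy with ⟨i, j, hij, hi, hj, rfl⟩
    constructor
    · intro v t ht
      rw [act_tv hij, mv_ne (ne_of_gt (lt_of_le_of_lt hi ht))]
    · intro t ht
      rw [act_tv hij, StData.mv_triv]
      exact Pi.single_eq_of_ne (ne_of_lt (lt_of_le_of_lt hj ht)) 1
  | one =>
    exact ⟨fun v t _ => by rw [act_one], fun t _ => by rw [act_one]⟩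
  | mul g h _ _ ihg ihh =>
    constructor
    · intro v t ht
      rw [act_mul, ihg.1 _ t ht, ihh.1 _ t ht]
    · intro t ht
      rw [act_mul, ihh.2 t ht, ihg.2 t ht]
  | inv g _ ih =>
    constructor
    · intro v t ht
      have := ih.1 (act g⁻¹ v) t ht
      rw [act_act_inv] at this
      exact this.symm
    · intro t ht
      have := congrArg (act g⁻¹) (ih.2 t ht)
      rw [act_inv_act] at this
      exact this.symm

theorem TG_surj : ∀ m : ℕ, ∀ b : Fin n, b.val = m → ∀ g : SLn n,
    (∀ v k, b < k → act g v k = v k) →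
    (∀ k, b < k → act g (Pi.single k 1) = Pi.single k 1) → g ∈ TG b := by
  intro m
  induction m with
  | zero =>
    intro b hb g h1 h2
    rw [eq_one_of_base b hb g h1 h2]
    exact Subgroup.one_mem _
  | succ m ih =>
    intro b hb g h1 h2
    let b' : Fin n := ⟨m, by omega⟩
    have hbb : b'.val + 1 = b.val := hb.symm
    have hb'b : b' < b := by rw [Fin.lt_def]; omega
    have hv0 : act g (Pi.single b 1) ≠ 0 := by
      apply act_ne_zero
      intro h0
      have := congrFun h0 b
      simp at this
    have hvs : Supp b (act g (Pi.single b 1)) := by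
      intro k hk
      rw [h1 _ k hk]
      exact Pi.single_eq_of_ne (ne_of_gt hk) 1
    obtain ⟨y, hy, d, hd, h3⟩ := reduce' (by omega) _ _ le_rfl hv0 hvs
    have hd1 : d = 1 := by
      have h4 : act (y * g)⁻¹ (d • Pi.single b 1) = Pi.single b 1 := by
        rw [← h3, ← act_mul y g, act_inv_act]
      rw [act_smul] at h4
      have h5 := congrFun h4 b
      simp only [Pi.smul_apply, smul_eq_mul, Pi.single_eq_same] at h5
      exact Int.eq_one_of_mul_eq_one_right (le_of_lt hd) h5
    rw [hd1, one_smul, ← act_mul] at h3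
    have hya := TG_act b y hy
    set g1 : SLn n := y * g with hg1
    have g1r : ∀ v k, b < k → act g1 v k = v k := by
      intro v k hk
      rw [hg1, act_mul, hya.1 _ k hk, h1 _ k hk]
    have g1c : ∀ k, b < k → act g1 (Pi.single k 1) = Pi.single k 1 := by
      intro k hk
      rw [hg1, act_mul, h2 k hk, hya.2 k hk]
    obtain ⟨c, hc, h4⟩ := clear_row' b (fun j => mat g1 b j) (Finset.univ.filter (fun j => j < b))
      (fun j hj => (Finset.mem_filter.mp hj).2)
    have hrow : ∀ v, act g1 v b = v b + ∑ j ∈ Finset.univ.filter (fun j => j < b), mat g1 b j * v j := by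
      intro v
      have h5 : act g1 v b = ∑ j, mat g1 b j * v j := by
        unfold act
        rw [Matrix.mulVec, dotProduct]
      rw [h5, ← Finset.sum_filter_add_sum_filter_not Finset.univ (fun j => j < b)]
      rw [add_comm]
      congr 1
      rw [Finset.sum_eq_single b]
      · rw [mat_apply_eq_act, h3, Pi.single_eq_same, one_mul]
      · intro j hj hjb
        have hj' : b < j := lt_of_le_of_ne (not_lt.mp (Finset.mem_filter.mp hj).2) (Ne.symm hjb)
        rw [mat_apply_eq_act, g1c j hj', Pi.single_eq_of_ne (ne_of_lt hj'), zero_mul]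
      · intro hb'
        exfalso
        apply hb'
        rw [Finset.mem_filter]
        exact ⟨Finset.mem_univ b, lt_irrefl b⟩
    have hca : ∀ v t, t ≠ b → act c v t = v t := by
      intro v t ht
      rw [h4 v]
      simp [Pi.single_eq_of_ne ht]
    have hcb : ∀ t, b ≤ t → act c (Pi.single t 1) = Pi.single t 1 := by
      intro t ht
      rw [h4]
      have : ∑ j ∈ Finset.univ.filter (fun j => j < b), mat g1 b j * (Pi.single t 1 : Fin n → ℤ) j = 0 := by
        apply Finset.sum_eq_zero
        intro j hj
        have hj' : j < b := (Finset.mem_filter.mp hj).2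
        rw [Pi.single_eq_of_ne (ne_of_lt (lt_of_lt_of_le hj' ht)), mul_zero]
      rw [this, zero_smul, sub_zero]
    have hz := ih b' rfl (g1 * c) (by
      intro v k hk
      rw [act_mul]
      have hbk : b ≤ k := by rw [Fin.le_def]; rw [Fin.lt_def] at hk; omega
      rcases eq_or_lt_of_le hbk with hbk | hbk
      · rw [← hbk, h4 v, sub_eq_add_neg, act_add, ← neg_smul, act_smul, h3]
        simp only [Pi.add_apply, Pi.smul_apply, smul_eq_mul, Pi.single_eq_same]
        rw [hrow v]
        ring
      · rw [g1r _ k hbk, hca v k (ne_of_gt hbk)]) (by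
      intro k hk
      rw [act_mul]
      have hbk : b ≤ k := by rw [Fin.le_def]; rw [Fin.lt_def] at hk; omega
      rw [hcb k hbk]
      rcases eq_or_lt_of_le hbk with hbk | hbk
      · rw [← hbk]; exact h3
      · exact g1c k hbk)
    have hfin : g = y⁻¹ * (g1 * c) * c⁻¹ := by rw [hg1]; group
    rw [hfin]
    exact Subgroup.mul_mem _ (Subgroup.mul_mem _ (Subgroup.inv_mem _ hy)
      (TG_mono (le_of_lt hb'b) hz)) (Subgroup.inv_mem _ hc)

/-- `SL_n(ℤ)` is generated by the elementary matrices -/
theorem closure_tv : Subgroup.closure {g : SLn n | ∃ i j, i ≠ j ∧ g = tv i j 1} = ⊤ := by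
  rw [eq_top_iff]
  intro g _
  rcases Nat.eq_zero_or_pos n with hn | hn
  · subst hn
    have : g = 1 := by
      apply eq_of_act
      intro v
      ext i
      exact i.elim0
    rw [this]
    exact Subgroup.one_mem _
  · let b : Fin n := ⟨n - 1, by omega⟩
    have htop : ∀ k : Fin n, ¬ b < k := by
      intro k hk
      rw [Fin.lt_def] at hk
      have : b.val = n - 1 := rfl
      omega
    have h1 : g ∈ TG b := TG_surj b.val b rfl g (fun v k hk => absurd hk (htop k))
      (fun k hk => absurd hk (htop k))
    have h2 : TG b ≤ Subgroup.closure {g : SLn n | ∃ i j, i ≠ j ∧ g = tv i j 1} := by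
      unfold TG
      apply Subgroup.closure_mono
      rintro y ⟨i, j, hij, _, _, rfl⟩
      exact ⟨i, j, hij, rfl⟩
    exact h2 h1

end

end Pool.Agent.Helper632
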