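import Mathlib
import Pool.Agent.Helper632.Gen

set_option autoImplicit false

namespace Pool.Agent.Helper632

section

variable {V : Type} [AddCommGroup V] [Module ℚ V] [Module.Finite ℚ V]

theorem trace_idem {P : Module.End ℚ V} (hP : IsIdempotentElem P) :
    LinearMap.trace ℚ V P = (Module.finrank ℚ (LinearMap.range P) : ℚ) := by
  have h := hP
  exact (LinearMap.isProj_range_iff_isIdempotentElem P).mpr h |>.trace

theorem idem_zero {P : Module.End ℚ V} (hP : IsIdempotentElem P)
    (h : LinearMap.trace ℚ V P = 0) : P = 0 :=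
  LinearMap.IsIdempotentElem.eq_zero_of_trace_eq_zero hP h

theorem idem_nat {P : Module.End ℚ V} (hP : IsIdempotentElem P) :
    ∃ k : ℕ, LinearMap.trace ℚ V P = k ∧ (k = 0 → P = 0) :=
  ⟨_, trace_idem hP, fun h => idem_zero hP (by rw [trace_idem hP, h]; norm_num)⟩

theorem half_idem {a : Module.End ℚ V} (ha : a * a = 1) :
    IsIdempotentElem ((1 / 2 : ℚ) • (1 + a)) := by
  unfold IsIdempotentElem
  rw [smul_mul_smul_comm]
  have : (1 + a) * (1 + a) = (2 : ℚ) • (1 + a) := by
    rw [add_mul, mul_add, mul_add, ha, two_smul]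
    simp only [one_mul, mul_one]
    abel
  rw [this, smul_smul]
  norm_num

theorem half_comm {a b : Module.End ℚ V} (hab : a * b = b * a) :
    Commute ((1 / 2 : ℚ) • (1 + a)) ((1 / 2 : ℚ) • (1 + b)) := by
  apply Commute.smul_left
  apply Commute.smul_right
  unfold Commute SemiconjBy
  rw [add_mul, mul_add, mul_add, add_mul, mul_add, mul_add, hab]
  simp only [one_mul, mul_one]
  abel

theorem half_apply {a : Module.End ℚ V} {v : V} (h : a v = v) :
    ((1 / 2 : ℚ) • (1 + a)) v = v := by
  rw [LinearMap.smul_apply, LinearMap.add_apply, h]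
  change (1 / 2 : ℚ) • (v + v) = v
  rw [← two_smul ℚ v, smul_smul]
  norm_num

/-- trace of an involution in dimension `5` -/
theorem inv_trace {a : Module.End ℚ V} (h5 : Module.finrank ℚ V = 5) (ha : a * a = 1) :
    ∃ k : ℕ, k ≤ 5 ∧ LinearMap.trace ℚ V a = 2 * k - 5 ∧ (k = 5 → a = 1) := by
  have hP := half_idem ha
  have h1 := trace_idem hP
  have h1' : LinearMap.trace ℚ V (1 : Module.End ℚ V) = 5 := by
    rw [LinearMap.trace_one, h5]; norm_num
  refine ⟨Module.finrank ℚ (LinearMap.range ((1 / 2 : ℚ) • (1 + a))), ?_, ?_, ?_⟩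
  · rw [← h5]
    exact Submodule.finrank_le _
  · rw [map_smul, map_add, h1', smul_eq_mul] at h1
    rw [← h1]; ring
  · intro hk
    have hQ : IsIdempotentElem ((1 / 2 : ℚ) • (1 + (-a))) := half_idem (by rw [neg_mul_neg, ha])
    have h2 : LinearMap.trace ℚ V ((1 / 2 : ℚ) • (1 + (-a))) = 0 := by
      rw [hk, map_smul, map_add, h1', smul_eq_mul] at h1
      rw [map_smul, map_add, h1', map_neg, smul_eq_mul]
      push_cast at h1
      linarith
    have h3 := idem_zero hQ h2
    have h4 : (1 : Module.End ℚ V) + (-a) = 0 := by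
      have := congrArg (fun t => (2 : ℚ) • t) h3
      simp only [smul_smul, smul_zero] at this
      norm_num at this
      rw [← sub_eq_add_neg] at this ⊢
      exact this
    have h5 : (1 : Module.End ℚ V) = a := by
      rw [← sub_eq_add_neg] at h4
      exact sub_eq_zero.mp h4
    exact h5.symm

/-- two commuting involutions -/
theorem two_trace {a b : Module.End ℚ V} (h5 : Module.finrank ℚ V = 5) (ha : a * a = 1)
    (hb : b * b = 1) (hab : a * b = b * a) :
    ∃ k : ℕ, 5 + LinearMap.trace ℚ V a + LinearMap.trace ℚ V b + LinearMap.trace ℚ V (a * b) =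
      4 * k ∧ (k = 0 → ∀ v, a v = v → b v = v → v = 0) := by
  have hP : IsIdempotentElem (((1 / 2 : ℚ) • (1 + a)) * ((1 / 2 : ℚ) • (1 + b))) :=
    (half_idem ha).mul_of_commute (half_comm hab) (half_idem hb)
  obtain ⟨k, h1, h2⟩ := idem_nat hP
  have h1' : LinearMap.trace ℚ V (1 : Module.End ℚ V) = 5 := by
    rw [LinearMap.trace_one, h5]; norm_num
  refine ⟨k, ?_, ?_⟩
  · rw [← h1]
    have : (((1 / 2 : ℚ) • (1 + a)) * ((1 / 2 : ℚ) • (1 + b))) =
        (1 / 4 : ℚ) • (1 + a + b + a * b) := by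
      have e : (1 / 2 : ℚ) * (1 / 2) = 1 / 4 := by norm_num
      rw [smul_mul_smul_comm, e, add_mul, mul_add, mul_add]
      simp only [one_mul, mul_one]
      congr 1
      abel
    rw [this, map_smul, map_add, map_add, map_add, h1', smul_eq_mul]
    ring
  · intro hk v hav hbv
    have h3 : (((1 / 2 : ℚ) • (1 + a)) * ((1 / 2 : ℚ) • (1 + b))) v = v := by
      rw [Module.End.mul_apply, half_apply hbv, half_apply hav]
    rw [h2 hk] at h3
    exact h3.symm

/-- three commuting involutions -/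
theorem three_trace {a b c : Module.End ℚ V} (h5 : Module.finrank ℚ V = 5) (ha : a * a = 1)
    (hb : b * b = 1) (hc : c * c = 1) (hab : a * b = b * a) (hac : a * c = c * a)
    (hbc : b * c = c * b) :
    ∃ k : ℕ, 5 + LinearMap.trace ℚ V a + LinearMap.trace ℚ V b + LinearMap.trace ℚ V c +
      LinearMap.trace ℚ V (a * b) + LinearMap.trace ℚ V (a * c) + LinearMap.trace ℚ V (b * c) +
      LinearMap.trace ℚ V (a * b * c) = 8 * k := by
  have hP : IsIdempotentElem (((1 / 2 : ℚ) • (1 + a)) * ((1 / 2 : ℚ) • (1 + b)) *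
      ((1 / 2 : ℚ) • (1 + c))) :=
    ((half_idem ha).mul_of_commute (half_comm hab) (half_idem hb)).mul_of_commute
      (Commute.mul_left (half_comm hac) (half_comm hbc)) (half_idem hc)
  obtain ⟨k, h1, _⟩ := idem_nat hP
  have h1' : LinearMap.trace ℚ V (1 : Module.End ℚ V) = 5 := by
    rw [LinearMap.trace_one, h5]; norm_num
  refine ⟨k, ?_⟩
  rw [← h1]
  have : (((1 / 2 : ℚ) • (1 + a)) * ((1 / 2 : ℚ) • (1 + b)) * ((1 / 2 : ℚ) • (1 + c))) =
      (1 / 8 : ℚ) • (1 + a + b + c + a * b + a * c + b * c + a * b * c) := by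
    have e : (1 / 2 : ℚ) * (1 / 2) * (1 / 2) = 1 / 8 := by norm_num
    rw [smul_mul_smul_comm, smul_mul_smul_comm, e]
    congr 1
    simp only [add_mul, mul_add, one_mul, mul_one]
    abel
  rw [this]
  simp only [map_smul, map_add, h1', smul_eq_mul]
  ring

end

end Pool.Agent.Helper632
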