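import Mathlib
import Pool.Agent.Helper632.Rep

set_option autoImplicit false

namespace Pool.Agent.Helper632

instance finite_Fg (n : ℕ) : Finite (Fg n) := by
  have hb : ∀ (f : Fg n) (i k : Fin n), mat (f : SLn n) i k ∈ Set.Icc (-1 : ℤ) 1 := by
    intro f i k
    obtain ⟨σ, ε, hε, h⟩ := signed_perm (f : SLn n) f.2
    obtain ⟨i', rfl⟩ := σ.surjective i
    rw [mat_apply_eq_act, h, Pi.single_apply]
    rcases hε i' with h1 | h1 <;> rw [h1] <;> split_ifs <;> simp
  apply Finite.of_injective (β := Fin n → Fin n → ↥(Set.Icc (-1 : ℤ) 1))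
    (fun (f : Fg n) i k => ⟨mat (f : SLn n) i k, hb f i k⟩)
  intro f g h
  apply Subtype.ext
  apply mat_injective
  ext i k
  have := congrFun (congrFun h i) k
  exact Subtype.ext_iff.mp this

/-- signs of the involution with `+1` at `m` only -/
def ue (m : Fin 5) : Fin 5 → ℤ := fun i => if i = m then 1 else -1

/-- signs of the involution with `-1` at `l`, `m` only -/
def de (l m : Fin 5) : Fin 5 → ℤ := fun i => if i = l ∨ i = m then -1 else 1

theorem prod_ue : ∀ m : Fin 5, ∏ i, ue m i = 1 := by decide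

theorem prod_de : ∀ l m : Fin 5, l ≠ m → ∏ i, de l m i = 1 := by decide

theorem ue_unit (m : Fin 5) : ∀ i, ue m i = 1 ∨ ue m i = -1 := by
  intro i; unfold ue; split_ifs <;> simp

theorem de_unit (l m : Fin 5) : ∀ i, de l m i = 1 ∨ de l m i = -1 := by
  intro i; unfold de; split_ifs <;> simp

/-- the involution `u m` -/
noncomputable def u (m : Fin 5) : SLn 5 := dg (ue m)

/-- the involution `δ l m` -/
noncomputable def dl (l m : Fin 5) : SLn 5 := dg (de l m)

theorem u_sq (m : Fin 5) : u m * u m = 1 := dg_sq (prod_ue m) (ue_unit m)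

theorem dl_sq {l m : Fin 5} (h : l ≠ m) : dl l m * dl l m = 1 := dg_sq (prod_de l m h) (de_unit l m)

theorem u_mul_u {l m : Fin 5} (h : l ≠ m) : u l * u m = dl l m := by
  unfold u dl
  rw [dg_mul (prod_ue l) (prod_ue m)]
  congr 1
  ext i
  revert l m i
  decide

theorem u_comm (l m : Fin 5) : u l * u m = u m * u l := by
  unfold u
  rw [dg_mul (prod_ue l) (prod_ue m), dg_mul (prod_ue m) (prod_ue l)]
  congr 1
  ext i
  ring

theorem dl_comm {l m l' m' : Fin 5} (h : l ≠ m) (h' : l' ≠ m') :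
    dl l m * dl l' m' = dl l' m' * dl l m := by
  unfold dl
  rw [dg_mul (prod_de l m h) (prod_de l' m' h'), dg_mul (prod_de l' m' h') (prod_de l m h)]
  congr 1
  ext i
  ring

theorem dl_01_23 : dl 0 1 * dl 2 3 = u 4 := by
  unfold dl u
  rw [dg_mul (prod_de 0 1 (by decide)) (prod_de 2 3 (by decide))]
  congr 1
  ext i
  revert i
  decide

theorem dl_01_02 : dl 0 1 * dl 0 2 = dl 1 2 := by
  unfold dl
  rw [dg_mul (prod_de 0 1 (by decide)) (prod_de 0 2 (by decide))]
  congr 1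
  ext i
  revert i
  decide

theorem dl_01_03 : dl 0 1 * dl 0 3 = dl 1 3 := by
  unfold dl
  rw [dg_mul (prod_de 0 1 (by decide)) (prod_de 0 3 (by decide))]
  congr 1
  ext i
  revert i
  decide

theorem dl_02_03 : dl 0 2 * dl 0 3 = dl 2 3 := by
  unfold dl
  rw [dg_mul (prod_de 0 2 (by decide)) (prod_de 0 3 (by decide))]
  congr 1
  ext i
  revert i
  decide

theorem dl_12_03 : dl 1 2 * dl 0 3 = u 4 := by
  unfold dl u
  rw [dg_mul (prod_de 1 2 (by decide)) (prod_de 0 3 (by decide))]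
  congr 1
  ext i
  revert i
  decide

theorem conj_u (l m : Fin 5) : ∃ f : SLn 5, f * u l * f⁻¹ = u m := by
  obtain ⟨f, hf, ε, hε, h⟩ := exists_signed (Equiv.swap l m)
  refine ⟨f, ?_⟩
  unfold u
  rw [conj_dg h (prod_ue l)]
  congr 1
  ext i
  unfold ue
  rw [Equiv.symm_swap]
  congr 1
  rw [Equiv.swap_apply_eq_iff, Equiv.swap_apply_left]

theorem conj_dl {l m l' m' : Fin 5} (h : l ≠ m) (h' : l' ≠ m') :
    ∃ f : SLn 5, f * dl l m * f⁻¹ = dl l' m' := by
  obtain ⟨σ, h1, h2⟩ := exists_perm_two l m l' m' h h'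
  obtain ⟨f, hf, ε, hε, h3⟩ := exists_signed σ
  refine ⟨f, ?_⟩
  unfold dl
  rw [conj_dg h3 (prod_de l m h)]
  congr 1
  ext i
  unfold de
  simp only [Equiv.symm_apply_eq, h1, h2]

section

variable {V : Type} [AddCommGroup V] [Module ℚ V] [Module.Finite ℚ V]

/-- the character -/
noncomputable def chi (ρ : SLn 5 →* Module.End ℚ V) (g : SLn 5) : ℚ :=
  LinearMap.trace ℚ V (ρ g)

theorem chi_conj (ρ : SLn 5 →* Module.End ℚ V) (f g : SLn 5) :
    chi ρ (f * g * f⁻¹) = chi ρ g := by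
  unfold chi
  rw [map_mul ρ, LinearMap.trace_mul_comm, ← map_mul ρ, inv_mul_cancel_left]

theorem rho_conj_one (ρ : SLn 5 →* Module.End ℚ V) {f g : SLn 5} (h : ρ g = 1) :
    ρ (f * g * f⁻¹) = 1 := by
  rw [map_mul, map_mul, h, mul_one, ← map_mul, mul_inv_cancel, map_one]

theorem rho_sq (ρ : SLn 5 →* Module.End ℚ V) {g : SLn 5} (h : g * g = 1) :
    ρ g * ρ g = 1 := by
  rw [← map_mul, h, map_one]

theorem rho_comm (ρ : SLn 5 →* Module.End ℚ V) {g h : SLn 5} (e : g * h = h * g) :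
    ρ g * ρ h = ρ h * ρ g := by
  rw [← map_mul, e, map_mul]

/-- first dichotomy: the torus acts trivially or as in the standard representation -/
theorem dichotomy1 (ρ : SLn 5 →* Module.End ℚ V) (h5 : Module.finrank ℚ V = 5) :
    (∀ l m : Fin 5, l ≠ m → ρ (dl l m) = 1) ∨
    ((∀ l m : Fin 5, l ≠ m → chi ρ (dl l m) = 1) ∧ (∀ m : Fin 5, chi ρ (u m) = -3)) := by
  have hdl : ∀ l m : Fin 5, l ≠ m → chi ρ (dl l m) = chi ρ (dl 0 1) := by
    intro l m hlm
    obtain ⟨f, hf⟩ := conj_dl (l := 0) (m := 1) (by decide) hlm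
    rw [← hf, chi_conj]
  have hu : ∀ m : Fin 5, chi ρ (u m) = chi ρ (u 0) := by
    intro m
    obtain ⟨f, hf⟩ := conj_u 0 m
    rw [← hf, chi_conj]
  obtain ⟨k1, hk1, e1, f1⟩ := inv_trace h5 (rho_sq ρ (dl_sq (l := 0) (m := 1) (by decide)))
  obtain ⟨k2, hk2, e2, f2⟩ := inv_trace h5 (rho_sq ρ (u_sq 0))
  obtain ⟨k3, e3, _⟩ := two_trace h5 (rho_sq ρ (u_sq 0)) (rho_sq ρ (u_sq 1))
    (rho_comm ρ (u_comm 0 1))
  obtain ⟨k4, e4, _⟩ := two_trace h5 (rho_sq ρ (dl_sq (l := 0) (m := 1) (by decide)))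
    (rho_sq ρ (dl_sq (l := 2) (m := 3) (by decide)))
    (rho_comm ρ (dl_comm (by decide) (by decide)))
  obtain ⟨k5, e5⟩ := three_trace h5 (rho_sq ρ (dl_sq (l := 0) (m := 1) (by decide)))
    (rho_sq ρ (dl_sq (l := 0) (m := 2) (by decide)))
    (rho_sq ρ (dl_sq (l := 0) (m := 3) (by decide)))
    (rho_comm ρ (dl_comm (by decide) (by decide)))
    (rho_comm ρ (dl_comm (by decide) (by decide)))
    (rho_comm ρ (dl_comm (by decide) (by decide)))
  rw [← map_mul, u_mul_u (by decide)] at e3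
  rw [← map_mul, dl_01_23] at e4
  rw [← map_mul, ← map_mul, ← map_mul, ← map_mul, dl_01_02, dl_01_03, dl_02_03, dl_12_03] at e5
  change chi ρ _ = _ at e1 e2
  change 5 + chi ρ _ + chi ρ _ + chi ρ _ = _ at e3 e4
  change 5 + chi ρ _ + chi ρ _ + chi ρ _ + chi ρ _ + chi ρ _ + chi ρ _ + chi ρ _ = _ at e5
  rw [hu 1, e1, e2] at e3
  rw [hdl 2 3 (by decide), hu 4, e1, e2] at e4
  rw [hdl 0 2 (by decide), hdl 0 3 (by decide), hdl 1 2 (by decide), hdl 1 3 (by decide),
    hdl 2 3 (by decide), hu 4, e1, e2] at e5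
  have e3' : 4 * (k2 : ℤ) + 2 * k1 - 10 = 4 * k3 := by
    have : (4 * (k2 : ℚ) + 2 * k1 - 10) = 4 * k3 := by rw [← e3]; ring
    exact_mod_cast this
  have e4' : 4 * (k1 : ℤ) + 2 * k2 - 10 = 4 * k4 := by
    have : (4 * (k1 : ℚ) + 2 * k2 - 10) = 4 * k4 := by rw [← e4]; ring
    exact_mod_cast this
  have e5' : 12 * (k1 : ℤ) + 2 * k2 - 30 = 8 * k5 := by
    have : (12 * (k1 : ℚ) + 2 * k2 - 30) = 8 * k5 := by rw [← e5]; ring
    exact_mod_cast this
  have g1 : k1 = 5 → k2 = 5 := by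
    intro h
    have h01 := f1 h
    have hall : ∀ l m : Fin 5, l ≠ m → ρ (dl l m) = 1 := by
      intro l m hlm
      obtain ⟨f, hf⟩ := conj_dl (l := 0) (m := 1) (by decide) hlm
      rw [← hf]
      exact rho_conj_one ρ h01
    have hu4 : ρ (u 4) = 1 := by
      rw [← dl_01_23, map_mul, hall 0 1 (by decide), hall 2 3 (by decide), one_mul]
    have hc : chi ρ (u 4) = 5 := by
      unfold chi
      rw [hu4, LinearMap.trace_one, h5]; norm_num
    rw [hu 4, e2] at hc
    have : (k2 : ℚ) = 5 := by linarith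
    exact_mod_cast this
  have g2 : k2 = 5 → k1 = 5 := by
    intro h
    have h0 := f2 h
    have h1 : ρ (u 1) = 1 := by
      obtain ⟨f, hf⟩ := conj_u 0 1
      rw [← hf]
      exact rho_conj_one ρ h0
    have h01 : ρ (dl 0 1) = 1 := by
      rw [← u_mul_u (by decide), map_mul, h0, h1, one_mul]
    have hc : chi ρ (dl 0 1) = 5 := by
      unfold chi
      rw [h01, LinearMap.trace_one, h5]; norm_num
    rw [e1] at hc
    have : (k1 : ℚ) = 5 := by linarith
    exact_mod_cast this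
  have hcases : (k1 = 5 ∧ k2 = 5) ∨ (k1 = 3 ∧ k2 = 1) := by omega
  rcases hcases with ⟨h, _⟩ | ⟨h, h'⟩
  · left
    intro l m hlm
    obtain ⟨f, hf⟩ := conj_dl (l := 0) (m := 1) (by decide) hlm
    rw [← hf]
    exact rho_conj_one ρ (f1 h)
  · right
    constructor
    · intro l m hlm
      rw [hdl l m hlm, e1, h]; norm_num
    · intro m
      rw [hu m, e2, h']; norm_num

theorem signed_dl {l m : Fin 5} (h : l ≠ m) (v : Fin 5 → ℤ) (i : Fin 5) :
    act (dl l m) v ((Equiv.refl (Fin 5)) i) = de l m i * v i := act_dg (prod_de l m h) v i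

theorem signed_u (m : Fin 5) (v : Fin 5 → ℤ) (i : Fin 5) :
    act (u m) v ((Equiv.refl (Fin 5)) i) = ue m i * v i := act_dg (prod_ue m) v i

/-- if the torus acts trivially then so does the whole group -/
theorem trivial_of_torus (ρ : SLn 5 →* Module.End ℚ V) (h5 : Module.finrank ℚ V = 5)
    (hT : ∀ l m : Fin 5, l ≠ m → ρ (dl l m) = 1) : ∀ g, ρ g = 1 := by
  have hneg : ∀ i j : Fin 5, i ≠ j → ρ (tv i j (-1)) = ρ (tv i j 1) := by
    intro i j hij
    obtain ⟨k, hki, hkj⟩ : ∃ k : Fin 5, i ≠ k ∧ j ≠ k := by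
      revert i j; decide
    have h1 := conj_tv (de_unit i k) (signed_dl hki) hij 1
    have h2 : de i k i * de i k j * 1 = -1 := by
      unfold de
      simp [Ne.symm hij, hkj]
    rw [h2] at h1
    change dl i k * tv i j 1 * (dl i k)⁻¹ = tv i j (-1) at h1
    have h3 : ρ (dl i k)⁻¹ = 1 := by
      have : (dl i k)⁻¹ = dl i k := by
        rw [inv_eq_iff_mul_eq_one, dl_sq hki]
      rw [this, hT i k hki]
    rw [← h1, map_mul, map_mul, hT i k hki, h3, one_mul, mul_one]
  have hsq : ∀ i j : Fin 5, i ≠ j → ρ (tv i j 1) * ρ (tv i j 1) = 1 := by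
    intro i j hij
    calc ρ (tv i j 1) * ρ (tv i j 1) = ρ (tv i j (-1)) * ρ (tv i j 1) := by rw [hneg i j hij]
      _ = 1 := by rw [← map_mul, tv_mul hij, neg_add_cancel, tv_zero, map_one]
  have hconj : ∀ i j : Fin 5, i ≠ j → ∃ f, ρ (tv i j 1) = ρ (f * tv 0 1 1 * f⁻¹) := by
    intro i j hij
    obtain ⟨σ, h1, h2⟩ := exists_perm_two (0 : Fin 5) 1 i j (by decide) hij
    obtain ⟨f, hf, ε, hε, h3⟩ := exists_signed σ
    refine ⟨f, ?_⟩
    rw [conj_tv hε h3 (by decide) 1, h1, h2]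
    rcases hε 0 with h4 | h4 <;> rcases hε 1 with h5 | h5 <;> rw [h4, h5]
    · norm_num
    · norm_num; exact (hneg i j hij).symm
    · norm_num; exact (hneg i j hij).symm
    · norm_num
  have hchi : ∀ i j : Fin 5, i ≠ j → chi ρ (tv i j 1) = chi ρ (tv 0 1 1) := by
    intro i j hij
    obtain ⟨f, hf⟩ := hconj i j hij
    have : chi ρ (tv i j 1) = chi ρ (f * tv 0 1 1 * f⁻¹) := by
      unfold chi; rw [hf]
    rw [this, chi_conj]
  -- products of two commuting elementary matrices in a row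
  have hprod : ∀ j l : Fin 5, 0 ≠ j → j ≠ l → 0 ≠ l →
      tv 0 j 1 * tv 0 l 1 = tv j l (-1) * tv 0 j 1 * (tv j l (-1))⁻¹ := by
    intro j l h0j hjl h0l
    rw [eq_mul_inv_iff_mul_eq, tv_st 1 (-1) h0j hjl h0l, tv_comm 1 1 h0j h0l (Ne.symm h0j) h0l]
    norm_num
  have h012 := hprod 1 2 (by decide) (by decide) (by decide)
  have h013 := hprod 1 3 (by decide) (by decide) (by decide)
  have h023 := hprod 2 3 (by decide) (by decide) (by decide)
  have h0123 : tv (0 : Fin 5) 1 1 * tv 0 2 1 * tv 0 3 1 =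
      tv 1 3 (-1) * (tv 0 1 1 * tv 0 2 1) * (tv 1 3 (-1))⁻¹ := by
    have c1 : tv (1 : Fin 5) 3 (-1) * tv 0 2 1 = tv 0 2 1 * tv 1 3 (-1) :=
      tv_comm (-1) 1 (by decide) (by decide) (by decide) (by decide)
    have c2 : tv (0 : Fin 5) 2 1 * tv 0 3 1 = tv 0 3 1 * tv 0 2 1 :=
      tv_comm 1 1 (by decide) (by decide) (by decide) (by decide)
    rw [eq_mul_inv_iff_mul_eq, mul_assoc (tv 0 1 1), c2, ← mul_assoc, h013]
    rw [mul_assoc _ (tv 0 2 1), ← c1]
    group
  obtain ⟨k1, hk1, e1, f1⟩ := inv_trace h5 (hsq 0 1 (by decide))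
  obtain ⟨k2, e2⟩ := three_trace h5 (hsq 0 1 (by decide)) (hsq 0 2 (by decide))
    (hsq 0 3 (by decide))
    (rho_comm ρ (tv_comm 1 1 (by decide) (by decide) (by decide) (by decide)))
    (rho_comm ρ (tv_comm 1 1 (by decide) (by decide) (by decide) (by decide)))
    (rho_comm ρ (tv_comm 1 1 (by decide) (by decide) (by decide) (by decide)))
  rw [← map_mul, ← map_mul, ← map_mul, ← map_mul, h0123, h023, h012, h013] at e2
  change chi ρ _ = _ at e1
  change 5 + chi ρ _ + chi ρ _ + chi ρ _ + chi ρ _ + chi ρ _ + chi ρ _ + chi ρ _ = _ at e2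
  simp only [chi_conj] at e2
  rw [hchi 0 2 (by decide), hchi 0 3 (by decide), e1] at e2
  have e2' : 14 * (k1 : ℤ) - 30 = 8 * k2 := by
    have : (14 * (k1 : ℚ) - 30) = 8 * k2 := by rw [← e2]; ring
    exact_mod_cast this
  have hk : k1 = 5 := by omega
  have h01 := f1 hk
  have hall : ∀ i j : Fin 5, i ≠ j → ρ (tv i j 1) = 1 := by
    intro i j hij
    obtain ⟨f, hf⟩ := hconj i j hij
    rw [hf]
    exact rho_conj_one ρ h01
  intro g
  have hg : g ∈ Subgroup.closure {g : SLn 5 | ∃ i j, i ≠ j ∧ g = tv i j 1} := by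
    rw [closure_tv]; exact Subgroup.mem_top g
  induction hg using Subgroup.closure_induction with
  | mem y hy =>
    obtain ⟨i, j, hij, rfl⟩ := hy
    exact hall i j hij
  | one => exact map_one ρ
  | mul a b _ _ iha ihb => rw [map_mul, iha, ihb, one_mul]
  | inv a _ iha =>
    have h1 : ρ (a * a⁻¹) = 1 := by rw [mul_inv_cancel, map_one]
    rw [map_mul, iha, one_mul] at h1
    exact h1

/-- the final dichotomy -/
theorem dichotomy (ρ : SLn 5 →* Module.End ℚ V) (h5 : Module.finrank ℚ V = 5) :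
    (∀ g, ρ g = 1) ∨
    ((∀ l m : Fin 5, l ≠ m → ∀ v, ρ (u l) v = v → ρ (u m) v = v → v = 0) ∧
     (∀ m : Fin 5, ∀ h : SLn 5, h ∈ Fg 5 → h * u m = u m * h → ∀ v, ρ (u m) v = v →
        ρ (h * h) v = v)) := by
  rcases dichotomy1 ρ h5 with h | ⟨hd, hu⟩
  · exact Or.inl (trivial_of_torus ρ h5 h)
  · right
    constructor
    · intro l m hlm v hv1 hv2
      obtain ⟨k, e, f⟩ := two_trace h5 (rho_sq ρ (u_sq l)) (rho_sq ρ (u_sq m))
        (rho_comm ρ (u_comm l m))
      rw [← map_mul, u_mul_u hlm] at e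
      change 5 + chi ρ _ + chi ρ _ + chi ρ _ = _ at e
      rw [hu l, hu m, hd l m hlm] at e
      have hk : k = 0 := by
        have : (k : ℚ) = 0 := by linarith
        exact_mod_cast this
      exact f hk v hv1 hv2
    · intro m h hF hcomm v hv
      by_cases hv0 : v = 0
      · rw [hv0, map_zero]
      have hP := half_idem (rho_sq ρ (u_sq m))
      have h1 := trace_idem hP
      have h2 : Module.finrank ℚ (LinearMap.range ((1 / 2 : ℚ) • (1 + ρ (u m)))) = 1 := by
        have h3 : LinearMap.trace ℚ V ((1 / 2 : ℚ) • (1 + ρ (u m))) = 1 := by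
          have h4 : LinearMap.trace ℚ V (ρ (u m)) = -3 := hu m
          rw [map_smul, map_add, h4, LinearMap.trace_one, h5, smul_eq_mul]
          norm_num
        rw [h3] at h1
        exact_mod_cast h1.symm
      have hmem : ∀ w, ρ (u m) w = w → w ∈ LinearMap.range ((1 / 2 : ℚ) • (1 + ρ (u m))) :=
        fun w hw => ⟨w, half_apply hw⟩
      have hw : ρ (u m) (ρ h v) = ρ h v := by
        have : ρ (u m * h) v = ρ h v := by
          rw [← hcomm, map_mul, Module.End.mul_apply, hv]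
        rwa [map_mul, Module.End.mul_apply] at this
      obtain ⟨c, hc⟩ := exists_smul_eq_of_finrank_eq_one h2
        (x := (⟨v, hmem v hv⟩ : LinearMap.range ((1 / 2 : ℚ) • (1 + ρ (u m)))))
        (by intro h'; exact hv0 (congrArg Subtype.val h'))
        ⟨ρ h v, hmem _ hw⟩
      have hc' : ρ h v = c • v := (congrArg Subtype.val hc).symm
      -- finite order
      have hpow : ∀ k : ℕ, ρ (h ^ k) v = c ^ k • v := by
        intro k
        induction k with
        | zero => rw [pow_zero, pow_zero, map_one, one_smul]; rfl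
        | succ k ih =>
          rw [pow_succ', map_mul, Module.End.mul_apply, ih, map_smul, hc', smul_smul, pow_succ]
      have hfin : IsOfFinOrder (⟨h, hF⟩ : Fg 5) := isOfFinOrder_of_finite _
      obtain ⟨k, hk0, hk⟩ := isOfFinOrder_iff_pow_eq_one.mp hfin
      have hk' : h ^ k = 1 := congrArg Subtype.val hk
      have h6 := hpow k
      rw [hk', map_one] at h6
      have h7 : (c ^ k - 1) • v = 0 := by
        rw [sub_smul, ← h6, one_smul, Module.End.one_apply, sub_self]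
      have h8 : c ^ k = 1 := by
        rcases smul_eq_zero.mp h7 with h9 | h9
        · linarith
        · exact absurd h9 hv0
      have h9 : c * c = 1 := by
        have h10 : (c ^ 2) ^ k = 1 := by rw [← pow_mul, mul_comm, pow_mul, h8, one_pow]
        have h11 := (pow_eq_one_iff_of_nonneg (sq_nonneg c) (by omega)).mp h10
        rw [← sq]; exact h11
      have h10 := hpow 2
      rw [sq, sq, h9, one_smul] at h10
      exact h10

end

end Pool.Agent.Helper632
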