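import Mathlib
import Pool.Agent.Helper632.Rep2
import Pool.Agent.Helper632.Ext

set_option autoImplicit false

namespace Pool.Agent.Helper632

section torus

variable {n : ℕ}

/-- diagonal sign matrix with given signs -/
def IsT (t : SLn n) (τ : Fin n → ℤ) : Prop :=
  (∀ i, τ i = 1 ∨ τ i = -1) ∧ ∀ v i, act t v i = τ i * v i

/-- diagonal entries -/
def sgn (t : SLn n) (i : Fin n) : ℤ := mat t i i

theorem IsT.sgn_eq {t : SLn n} {τ : Fin n → ℤ} (h : IsT t τ) (i : Fin n) : sgn t i = τ i := by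
  unfold sgn
  rw [mat_apply_eq_act, h.2, Pi.single_eq_same, mul_one]

theorem unit_sq {a : ℤ} (h : a = 1 ∨ a = -1) : a * a = 1 := by
  rcases h with rfl | rfl <;> norm_num

/-- the diagonal subgroup -/
def Tg (n : ℕ) : Subgroup (Fg n) where
  carrier := {t | ∃ τ, IsT (t : SLn n) τ}
  one_mem' := ⟨fun _ => 1, fun _ => Or.inl rfl, fun v i => by
    change act (1 : SLn n) v i = 1 * v i
    rw [act_one, one_mul]⟩
  mul_mem' := by
    rintro a b ⟨τ, h1, h2⟩ ⟨τ', h1', h2'⟩
    refine ⟨fun i => τ i * τ' i, ?_, ?_⟩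
    · intro i
      rcases h1 i with h | h <;> rcases h1' i with h' | h' <;> simp [h, h']
    · intro v i
      change act ((a : SLn n) * (b : SLn n)) v i = τ i * τ' i * v i
      rw [act_mul, h2, h2', mul_assoc]
  inv_mem' := by
    rintro a ⟨τ, h1, h2⟩
    refine ⟨τ, h1, ?_⟩
    intro v i
    change act (a : SLn n)⁻¹ v i = τ i * v i
    have h3 := h2 (act (a : SLn n)⁻¹ v) i
    rw [act_act_inv] at h3
    rw [h3, ← mul_assoc, unit_sq (h1 i), one_mul]

theorem T_spec (t : Tg n) : IsT ((t : Fg n) : SLn n) (sgn ((t : Fg n) : SLn n)) := by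
  obtain ⟨τ, h⟩ := t.2
  have : sgn ((t : Fg n) : SLn n) = τ := funext (fun i => h.sgn_eq i)
  rw [this]
  exact h

theorem sgn_mul (t t' : Tg n) (i : Fin n) :
    sgn (((t * t' : Tg n) : Fg n) : SLn n) i = sgn ((t : Fg n) : SLn n) i *
      sgn ((t' : Fg n) : SLn n) i := by
  have h1 := T_spec t
  have h2 := T_spec t'
  have h3 : IsT (((t * t' : Tg n) : Fg n) : SLn n) (fun i => sgn ((t : Fg n) : SLn n) i *
      sgn ((t' : Fg n) : SLn n) i) := by
    refine ⟨?_, ?_⟩
    · intro i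
      rcases h1.1 i with h | h <;> rcases h2.1 i with h' | h' <;> simp [h, h']
    · intro v i
      change act (((t : Fg n) : SLn n) * ((t' : Fg n) : SLn n)) v i = _
      rw [act_mul, h1.2, h2.2, mul_assoc]
  exact h3.sgn_eq i

/-- weight of the root `(i, j)` on `t` -/
def wt (t : Tg n) (i j : Fin n) : ℤ := sgn ((t : Fg n) : SLn n) i * sgn ((t : Fg n) : SLn n) j

theorem wt_unit (t : Tg n) (i j : Fin n) : wt t i j = 1 ∨ wt t i j = -1 := by
  unfold wt
  rcases (T_spec t).1 i with h | h <;> rcases (T_spec t).1 j with h' | h' <;> simp [h, h']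

theorem wt_mul (t t' : Tg n) (i j : Fin n) : wt (t * t') i j = wt t i j * wt t' i j := by
  unfold wt
  rw [sgn_mul, sgn_mul]
  ring

theorem conj_T_tv (t : Tg n) {i j : Fin n} (hij : i ≠ j) (a : ℤ) :
    ((t : Fg n) : SLn n) * tv i j a * ((t : Fg n) : SLn n)⁻¹ = tv i j (wt t i j * a) :=
  conj_tv (σ := Equiv.refl (Fin n)) (T_spec t).1 (T_spec t).2 hij a

theorem T_comm (t t' : Tg n) : ((t : Fg n) : SLn n) * ((t' : Fg n) : SLn n) =
    ((t' : Fg n) : SLn n) * ((t : Fg n) : SLn n) := by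
  apply eq_of_act
  intro v
  ext i
  rw [act_mul, act_mul, (T_spec t).2, (T_spec t').2, (T_spec t').2, (T_spec t).2]
  ring

/-- conjugate of a diagonal element by a signed permutation -/
theorem exists_conj_T (f : Fg n) {σ : Equiv.Perm (Fin n)} {ε : Fin n → ℤ}
    (hε : ∀ i, ε i = 1 ∨ ε i = -1) (h : ∀ v i, act (f : SLn n) v (σ i) = ε i * v i) (t : Tg n) :
    ∃ t' : Tg n, (t' : Fg n) = f⁻¹ * (t : Fg n) * f ∧ ∀ i j, wt t' i j = wt t (σ i) (σ j) := by
  have hinv : ∀ w i, act (f : SLn n)⁻¹ w i = ε i * w (σ i) := by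
    intro w i
    have h1 := h (act (f : SLn n)⁻¹ w) i
    rw [act_act_inv] at h1
    rw [h1, ← mul_assoc, unit_sq (hε i), one_mul]
  have hT : IsT ((f⁻¹ * (t : Fg n) * f : Fg n) : SLn n)
      (fun i => sgn ((t : Fg n) : SLn n) (σ i)) := by
    refine ⟨fun i => (T_spec t).1 (σ i), ?_⟩
    intro v i
    change act ((f : SLn n)⁻¹ * ((t : Fg n) : SLn n) * (f : SLn n)) v i = _
    rw [act_mul, act_mul, hinv, (T_spec t).2, h]
    have := unit_sq (hε i)
    linear_combination (sgn ((t : Fg n) : SLn n) (σ i) * v i) * this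
  refine ⟨⟨f⁻¹ * (t : Fg n) * f, ⟨_, hT⟩⟩, rfl, ?_⟩
  intro i j
  unfold wt
  rw [hT.sgn_eq, hT.sgn_eq]

end torus

/-- the diagonal element `u m` in the torus -/
noncomputable def uT (m : Fin 5) : Tg 5 :=
  ⟨⟨u m, dg_mem (prod_ue m) (ue_unit m)⟩, ⟨ue m, ue_unit m, fun v i => act_dg (prod_ue m) v i⟩⟩

noncomputable def dT (l m : Fin 5) (h : l ≠ m) : Tg 5 :=
  ⟨⟨dl l m, dg_mem (prod_de l m h) (de_unit l m)⟩,
    ⟨de l m, de_unit l m, fun v i => act_dg (prod_de l m h) v i⟩⟩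

theorem wt_uT (m i j : Fin 5) : wt (uT m) i j = ue m i * ue m j := by
  have h : IsT ((uT m : Fg 5) : SLn 5) (ue m) := ⟨ue_unit m, fun v i => act_dg (prod_ue m) v i⟩
  unfold wt
  rw [h.sgn_eq, h.sgn_eq]

theorem wt_dT (l m i j : Fin 5) (hlm : l ≠ m) : wt (dT l m hlm) i j = de l m i * de l m j := by
  have h : IsT ((dT l m hlm : Fg 5) : SLn 5) (de l m) :=
    ⟨de_unit l m, fun v i => act_dg (prod_de l m hlm) v i⟩
  unfold wt
  rw [h.sgn_eq, h.sgn_eq]

theorem third : ∀ i j : Fin 5, i ≠ j → ∃ k : Fin 5, i ≠ k ∧ j ≠ k := by decide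

theorem two_out : ∀ i j : Fin 5, i ≠ j → ∃ a b : Fin 5, a ≠ b ∧ ue a i * ue a j = 1 ∧
    ue b i * ue b j = 1 := by decide

theorem zpow_unit_mul_self {G : Type} [Group G] (y : G) {e : ℤ} (he : e = 1 ∨ e = -1) :
    (y ^ e) ^ e = y := by
  rw [← zpow_mul, unit_sq he, zpow_one]

section canonical

variable {E V : Type} [Group E] [AddCommGroup V] [Module ℚ V]

/-- `y` is canonical for the root `(i, j)` -/
def Can (s : Fg 5 →* E) (i j : Fin 5) (y : E) : Prop :=
  ∀ t : Tg 5, s (t : Fg 5) * y * (s (t : Fg 5))⁻¹ = y ^ (wt t i j)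

theorem exists_can (X : ExtData (SLn 5) E V) (s : Fg 5 →* E)
    (hs : ∀ f : Fg 5, X.p (s f) = (f : SLn 5)) {i j : Fin 5} (hij : i ≠ j) :
    ∃ y, X.p y = tv i j 1 ∧ Can s i j y := by
  classical
  have hpc : ∀ (t : Tg 5) (y : E), X.p y = tv i j 1 →
      X.p (s (t : Fg 5) * y * (s (t : Fg 5))⁻¹) = tv i j (wt t i j) := by
    intro t y hy
    rw [map_mul, map_mul, map_inv, hs, hy, conj_T_tv t hij, mul_one]
  obtain ⟨y, hy1, hy2⟩ := X.fixed_point (Tg 5) (tv i j 1)
    (fun t y => (s (t : Fg 5) * y * (s (t : Fg 5))⁻¹) ^ (wt t i j))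
    (fun t => if wt t i j = 1 then X.ρ ((t : Fg 5) : SLn 5)
      else -(X.ρ (tv i j 1) * X.ρ ((t : Fg 5) : SLn 5)))
    (by
      intro t y hy
      rw [map_zpow, hpc t y hy, ← tv_zpow hij (wt t i j), zpow_unit_mul_self _ (wt_unit t i j)])
    (by
      intro t y v hy
      have hz := hpc t y hy
      set z := s (t : Fg 5) * y * (s (t : Fg 5))⁻¹ with hzdef
      have e1 : s (t : Fg 5) * (X.i v * y) * (s (t : Fg 5))⁻¹ =
          X.i (X.ρ ((t : Fg 5) : SLn 5) v) * z := by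
        rw [← mul_assoc, X.conj, hs, hzdef]; group
      rw [e1]
      rcases wt_unit t i j with he | he
      · rw [he, if_pos rfl, zpow_one, zpow_one]
      · rw [he, if_neg (by norm_num), zpow_neg_one, zpow_neg_one, mul_inv_rev, ← X.i_neg, X.conj,
          map_inv, hz, he, tv_neg hij, inv_inv]
        congr 2
        rw [map_neg, LinearMap.neg_apply, Module.End.mul_apply])
    (by
      intro t t' y hy
      rw [wt_mul]
      have e1 : s ((t * t' : Tg 5) : Fg 5) = s (t : Fg 5) * s (t' : Fg 5) := by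
        rw [← map_mul]; rfl
      rw [e1, mul_comm (wt t i j), zpow_mul]
      congr 1
      rw [← conj_zpow]
      have e2 : s (t : Fg 5) * s (t' : Fg 5) * y * (s (t : Fg 5) * s (t' : Fg 5))⁻¹ =
          s (t : Fg 5) * (s (t' : Fg 5) * y * (s (t' : Fg 5))⁻¹) * (s (t : Fg 5))⁻¹ := by group
      rw [e2, conj_zpow, conj_zpow])
  refine ⟨y, hy1, ?_⟩
  intro t
  have h := hy2 t
  have h2 : _ ^ (wt t i j) = y ^ (wt t i j) := congrArg (fun z => z ^ (wt t i j)) h
  rw [zpow_unit_mul_self _ (wt_unit t i j)] at h2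
  exact h2

/-- vectors with `v = -v` vanish -/
theorem zero_of_neg {v : V} (h : v = -v) : v = 0 := by
  have h1 : (2 : ℚ) • v = 0 := by
    rw [two_smul]
    nth_rewrite 2 [h]
    exact add_neg_cancel v
  rcases smul_eq_zero.mp h1 with h2 | h2
  · norm_num at h2
  · exact h2

/-- the two cases for the module -/
def CaseA (X : ExtData (SLn 5) E V) : Prop := ∀ g, X.ρ g = 1

def CaseB (X : ExtData (SLn 5) E V) : Prop :=
  (∀ l m : Fin 5, l ≠ m → ∀ v, X.ρ (u l) v = v → X.ρ (u m) v = v → v = 0) ∧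
     (∀ m : Fin 5, ∀ h : SLn 5, h ∈ Fg 5 → h * u m = u m * h → ∀ v, X.ρ (u m) v = v →
        X.ρ (h * h) v = v)

theorem can_uniq (X : ExtData (SLn 5) E V) (hX : CaseA X ∨ CaseB X) (s : Fg 5 →* E)
    (hs : ∀ f : Fg 5, X.p (s f) = (f : SLn 5)) {i j : Fin 5} (hij : i ≠ j) {y z : E}
    (hy : Can s i j y) (hz : Can s i j z) (hp : X.p y = X.p z) : y = z := by
  obtain ⟨v, rfl⟩ := X.exists_of_eq hp
  have hc : ∀ t : Tg 5, s (t : Fg 5) * (X.i v * z) * (s (t : Fg 5))⁻¹ =
      X.i (X.ρ ((t : Fg 5) : SLn 5) v) * z ^ (wt t i j) := by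
    intro t
    rw [← hz t, ← mul_assoc, X.conj, hs]; group
  have hv : v = 0 := by
    rcases hX with hA | hB
    · obtain ⟨k, hki, hkj⟩ := third i j hij
      have h1 := hc (dT i k hki)
      rw [hy (dT i k hki)] at h1
      have hw : wt (dT i k hki) i j = -1 := by
        rw [wt_dT]
        unfold de
        simp [Ne.symm hij, hkj]
      rw [hw, hA, zpow_neg_one, zpow_neg_one, mul_inv_rev, ← X.i_neg, X.conj, hA] at h1
      have h2 := X.i_mul_cancel h1
      rw [Module.End.one_apply, Module.End.one_apply] at h2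
      exact zero_of_neg h2.symm
    · obtain ⟨a, b, hab, ha, hb⟩ := two_out i j hij
      have key : ∀ a : Fin 5, ue a i * ue a j = 1 → X.ρ (u a) v = v := by
        intro a ha
        have h1 := hc (uT a)
        rw [hy (uT a), wt_uT, ha, zpow_one, zpow_one] at h1
        exact (X.i_mul_cancel h1).symm
      exact hB.1 a b hab v (key a ha) (key b hb)
  rw [hv, X.i_zero, one_mul]

end canonical

end Pool.Agent.Helper632
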