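import Mathlib
import Pool.Agent.Helper632.Rel

set_option autoImplicit false

namespace Pool.Agent.Helper632

section

variable {E V : Type} [Group E] [AddCommGroup V] [Module ℚ V]

/-- commuting lifts, central case -/
theorem comm_A (X : ExtData (SLn 5) E V) (hA : CaseA X) {y z f : E}
    (hp : X.p y * X.p z = X.p z * X.p y) (hy : f * y * f⁻¹ = y⁻¹) (hz : f * z * f⁻¹ = z) :
    y * z = z * y := by
  have hcen : ∀ (v : V) (w : E), w * X.i v = X.i v * w := by
    intro v w
    rw [X.conj, hA]; rfl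
  obtain ⟨v, hv⟩ := X.exists_of_eq (y := y * z) (z := z * y) (by rw [map_mul, map_mul, hp])
  have h1 : y⁻¹ * z = X.i v * (z * y⁻¹) := by
    have : f * (y * z) * f⁻¹ = f * (X.i v * (z * y)) * f⁻¹ := by rw [hv]
    have e1 : f * (y * z) * f⁻¹ = (f * y * f⁻¹) * (f * z * f⁻¹) := by group
    have e2 : f * (X.i v * (z * y)) * f⁻¹ = (f * X.i v) * f⁻¹ * ((f * z * f⁻¹) * (f * y * f⁻¹)) := by
      group
    rw [e1, e2, hy, hz, hcen v f, mul_assoc (X.i v), mul_inv_cancel, mul_one] at this
    exact this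
  have h2 : z * y⁻¹ = X.i v * (y⁻¹ * z) := by
    have : y⁻¹ * (y * z) * y⁻¹ = y⁻¹ * (X.i v * (z * y)) * y⁻¹ := by rw [hv]
    rw [inv_mul_cancel_left, ← mul_assoc y⁻¹, hcen] at this
    rw [this]; group
  have h3 : X.i 0 * (y⁻¹ * z) = X.i (v + v) * (y⁻¹ * z) := by
    rw [X.i_zero, one_mul, X.i_add, mul_assoc, ← h2]
    exact h1
  have h4 := X.i_mul_cancel h3
  have h5 : v = 0 := zero_of_neg (eq_neg_of_add_eq_zero_left h4.symm)
  rw [hv, h5, X.i_zero, one_mul]

/-- an element of `V` commuting with the lift of `f` -/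
theorem fixed_of_conj (X : ExtData (SLn 5) E V) {f w w' : E} {v : V}
    (h : w = X.i v * w') (hw : f * w * f⁻¹ = w) (hw' : f * w' * f⁻¹ = w') :
    X.ρ (X.p f) v = v := by
  have h1 : f * w * f⁻¹ = X.i (X.ρ (X.p f) v) * (f * w' * f⁻¹) := by
    rw [h, ← mul_assoc, X.conj]; group
  rw [hw, hw', h] at h1
  exact (X.i_mul_cancel h1).symm

/-- the choice of canonical lifts -/
theorem exists_lifts (X : ExtData (SLn 5) E V) (s : Fg 5 →* E)
    (hs : ∀ f : Fg 5, X.p (s f) = (f : SLn 5)) :
    ∃ x : Fin 5 → Fin 5 → E, ∀ i j, i ≠ j → X.p (x i j) = tv i j 1 ∧ Can s i j (x i j) := by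
  classical
  refine ⟨fun i j => if h : i ≠ j then (exists_can X s hs h).choose else 1, ?_⟩
  intro i j hij
  simp only [dif_pos hij]
  exact (exists_can X s hs hij).choose_spec

theorem sep_A : ∀ i j k l : Fin 5, i ≠ j → k ≠ l → j ≠ k → i ≠ l → ¬ (i = k ∧ j = l) →
    ∃ a b : Fin 5, a ≠ b ∧ de a b i * de a b j = -1 ∧ de a b k * de a b l = 1 := by decide

theorem sep_B : ∀ i j k l : Fin 5, i ≠ j → k ≠ l → j ≠ k → i ≠ l → (i = k ∨ j = l) →
    ∃ a b : Fin 5, a ≠ b ∧ ue a i * ue a j = 1 ∧ ue b i * ue b j = 1 ∧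
      ue a k * ue a l = 1 ∧ ue b k * ue b l = 1 := by decide

theorem sep_C : ∀ i j k : Fin 5, i ≠ j → j ≠ k → i ≠ k →
    ∃ a b : Fin 5, a ≠ b ∧ ue a i * ue a j = 1 ∧ ue b i * ue b j = 1 ∧
      ue a j * ue a k = 1 ∧ ue b j * ue b k = 1 ∧ ue a i * ue a k = 1 ∧ ue b i * ue b k = 1 := by
  decide

theorem sep_D : ∀ i j k : Fin 5, i ≠ j → j ≠ k → i ≠ k →
    ∃ a b : Fin 5, a ≠ b ∧ de a b i * de a b j = -1 ∧ de a b j * de a b k = 1 ∧
      de a b i * de a b k = -1 := by decide

theorem sep_E : ∀ i j k l : Fin 5, i ≠ j → k ≠ l → j ≠ k → i ≠ l → i ≠ k → j ≠ l →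
    ∃ m : Fin 5, ue m i * ue m j = 1 ∧ ue m k * ue m l = 1 ∧ i ≠ m ∧ j ≠ m ∧ k ≠ m ∧ l ≠ m := by
  decide

theorem p_uT (X : ExtData (SLn 5) E V) (s : Fg 5 →* E)
    (hs : ∀ f : Fg 5, X.p (s f) = (f : SLn 5)) (m : Fin 5) :
    X.p (s (uT m : Fg 5)) = u m := hs _

theorem conj_u_eq {s : Fg 5 →* E} {i j : Fin 5} {y : E} (hy : Can s i j y) {m : Fin 5}
    (h : ue m i * ue m j = 1) : s (uT m : Fg 5) * y * (s (uT m : Fg 5))⁻¹ = y := by
  rw [hy (uT m), wt_uT, h, zpow_one]

/-- equivariance of the canonical lifts -/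
theorem equivariant (X : ExtData (SLn 5) E V) (hX : CaseA X ∨ CaseB X) (s : Fg 5 →* E)
    (hs : ∀ f : Fg 5, X.p (s f) = (f : SLn 5)) (x : Fin 5 → Fin 5 → E)
    (hx : ∀ i j, i ≠ j → X.p (x i j) = tv i j 1 ∧ Can s i j (x i j))
    (f : Fg 5) (σ : Equiv.Perm (Fin 5)) (ε : Fin 5 → ℤ) (hε : ∀ i, ε i = 1 ∨ ε i = -1)
    (h : ∀ v i, act (f : SLn 5) v (σ i) = ε i * v i) (i j : Fin 5) (hij : i ≠ j) :
    s f * x i j * (s f)⁻¹ = x (σ i) (σ j) ^ (ε i * ε j) := by
  have hs' : σ i ≠ σ j := fun h' => hij (σ.injective h')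
  have he : ε i * ε j = 1 ∨ ε i * ε j = -1 := by
    rcases hε i with h1 | h1 <;> rcases hε j with h2 | h2 <;> simp [h1, h2]
  have h1 : (s f * x i j * (s f)⁻¹) ^ (ε i * ε j) = x (σ i) (σ j) := by
    apply can_uniq X hX s hs hs'
    · intro t
      obtain ⟨t', ht', hw⟩ := exists_conj_T f hε h t
      have e1 : s (t : Fg 5) * s f = s f * s (t' : Fg 5) := by
        rw [← map_mul, ← map_mul, ht']
        congr 1
        group
      have e2 : s (t : Fg 5) * (s f * x i j * (s f)⁻¹) * (s (t : Fg 5))⁻¹ =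
          (s f * x i j * (s f)⁻¹) ^ (wt t (σ i) (σ j)) := by
        have e3 := (hx i j hij).2 t'
        rw [hw i j] at e3
        calc s (t : Fg 5) * (s f * x i j * (s f)⁻¹) * (s (t : Fg 5))⁻¹
            = (s (t : Fg 5) * s f) * x i j * (s (t : Fg 5) * s f)⁻¹ := by group
          _ = s f * (s (t' : Fg 5) * x i j * (s (t' : Fg 5))⁻¹) * (s f)⁻¹ := by rw [e1]; group
          _ = (s f * x i j * (s f)⁻¹) ^ (wt t (σ i) (σ j)) := by rw [e3, conj_zpow]
      rw [← conj_zpow, e2, ← zpow_mul, ← zpow_mul, mul_comm]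
    · exact (hx _ _ hs').2
    · rw [map_zpow, map_mul, map_mul, map_inv, hs, (hx i j hij).1, (hx _ _ hs').1,
        conj_tv hε h hij 1, mul_one, ← tv_zpow hs' (ε i * ε j), zpow_unit_mul_self _ he]
  rw [← h1, zpow_unit_mul_self _ he]

/-- commutation relations -/
theorem rel_comm (X : ExtData (SLn 5) E V) (hX : CaseA X ∨ CaseB X) (s : Fg 5 →* E)
    (hs : ∀ f : Fg 5, X.p (s f) = (f : SLn 5)) (x : Fin 5 → Fin 5 → E)
    (hx : ∀ i j, i ≠ j → X.p (x i j) = tv i j 1 ∧ Can s i j (x i j))
    (i j k l : Fin 5) (hij : i ≠ j) (hkl : k ≠ l) (hjk : j ≠ k) (hil : i ≠ l) :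
    x i j * x k l = x k l * x i j := by
  by_cases hsame : i = k ∧ j = l
  · rw [hsame.1, hsame.2]
  have hp : X.p (x i j) * X.p (x k l) = X.p (x k l) * X.p (x i j) := by
    rw [(hx i j hij).1, (hx k l hkl).1]
    exact tv_comm 1 1 hij hkl hjk hil
  rcases hX with hA | hB
  · obtain ⟨a, b, hab, h1, h2⟩ := sep_A i j k l hij hkl hjk hil hsame
    apply comm_A X hA hp (f := s (dT a b hab : Fg 5))
    · rw [(hx i j hij).2 (dT a b hab), wt_dT, h1, zpow_neg_one]
    · rw [(hx k l hkl).2 (dT a b hab), wt_dT, h2, zpow_one]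
  · obtain ⟨v, hv⟩ := X.exists_of_eq (y := x i j * x k l) (z := x k l * x i j)
      (by rw [map_mul, map_mul, hp])
    have hfix : ∀ m : Fin 5, ue m i * ue m j = 1 → ue m k * ue m l = 1 → X.ρ (u m) v = v := by
      intro m h1 h2
      have e1 := conj_u_eq (hx i j hij).2 h1
      have e2 := conj_u_eq (hx k l hkl).2 h2
      rw [← p_uT X s hs m]
      apply fixed_of_conj X hv
      · calc s (uT m : Fg 5) * (x i j * x k l) * (s (uT m : Fg 5))⁻¹
            = (s (uT m : Fg 5) * x i j * (s (uT m : Fg 5))⁻¹) *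
              (s (uT m : Fg 5) * x k l * (s (uT m : Fg 5))⁻¹) := by group
          _ = x i j * x k l := by rw [e1, e2]
      · calc s (uT m : Fg 5) * (x k l * x i j) * (s (uT m : Fg 5))⁻¹
            = (s (uT m : Fg 5) * x k l * (s (uT m : Fg 5))⁻¹) *
              (s (uT m : Fg 5) * x i j * (s (uT m : Fg 5))⁻¹) := by group
          _ = x k l * x i j := by rw [e1, e2]
    have hv0 : v = 0 := by
      by_cases h3 : i = k ∨ j = l
      · obtain ⟨a, b, hab, h1, h2, h4, h5⟩ := sep_B i j k l hij hkl hjk hil h3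
        exact hB.1 a b hab v (hfix a h1 h4) (hfix b h2 h5)
      · push Not at h3
        obtain ⟨m, h1, h2, him, hjm, hkm, hlm⟩ := sep_E i j k l hij hkl hjk hil h3.1 h3.2
        -- the four-cycle
        have hkj := Ne.symm hjk
        have hlk := Ne.symm hkl
        have hji := Ne.symm hij
        let h : Fg 5 := ⟨om j i, om_mem hji⟩ * (⟨om k j, om_mem hkj⟩ * ⟨om l k, om_mem hlk⟩)
        let σ : Equiv.Perm (Fin 5) := Equiv.swap j i * (Equiv.swap k j * Equiv.swap l k)
        let ε : Fin 5 → ℤ := fun t => omε j (Equiv.swap k j (Equiv.swap l k t)) *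
          (omε k (Equiv.swap l k t) * omε l t)
        have hσ : ∀ v t, act (h : SLn 5) v (σ t) = ε t * v t := by
          intro v t
          change act (om j i * (om k j * om l k)) v
            (Equiv.swap j i (Equiv.swap k j (Equiv.swap l k t))) = _
          rw [act_mul, om_signed hji, act_mul, om_signed hkj, om_signed hlk]
          simp only [ε]
          ring
        have hε : ∀ t, ε t = 1 ∨ ε t = -1 := by
          intro t
          simp only [ε]
          rcases omε_unit j (Equiv.swap k j (Equiv.swap l k t)) with q1 | q1 <;>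
            rcases omε_unit k (Equiv.swap l k t) with q2 | q2 <;>
            rcases omε_unit l t with q3 | q3 <;> simp [q1, q2, q3]
        have hil' := Ne.symm hil
        have s1 : σ i = j := by
          change Equiv.swap j i (Equiv.swap k j (Equiv.swap l k i)) = j
          rw [Equiv.swap_apply_of_ne_of_ne hil h3.1, Equiv.swap_apply_of_ne_of_ne h3.1 hij,
            Equiv.swap_apply_right]
        have s2 : σ j = k := by
          change Equiv.swap j i (Equiv.swap k j (Equiv.swap l k j)) = k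
          rw [Equiv.swap_apply_of_ne_of_ne h3.2 hjk, Equiv.swap_apply_right,
            Equiv.swap_apply_of_ne_of_ne hkj (Ne.symm h3.1)]
        have s3 : σ k = l := by
          change Equiv.swap j i (Equiv.swap k j (Equiv.swap l k k)) = l
          rw [Equiv.swap_apply_right, Equiv.swap_apply_of_ne_of_ne hlk (Ne.symm h3.2),
            Equiv.swap_apply_of_ne_of_ne (Ne.symm h3.2) hil']
        have s4 : σ l = i := by
          change Equiv.swap j i (Equiv.swap k j (Equiv.swap l k l)) = i
          rw [Equiv.swap_apply_left, Equiv.swap_apply_left, Equiv.swap_apply_left]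
        have s5 : σ m = m := by
          change Equiv.swap j i (Equiv.swap k j (Equiv.swap l k m)) = m
          rw [Equiv.swap_apply_of_ne_of_ne (Ne.symm hlm) (Ne.symm hkm),
            Equiv.swap_apply_of_ne_of_ne (Ne.symm hkm) (Ne.symm hjm),
            Equiv.swap_apply_of_ne_of_ne (Ne.symm hjm) (Ne.symm him)]
        have t1 : ε i = 1 := by
          simp only [ε]
          rw [Equiv.swap_apply_of_ne_of_ne hil h3.1, Equiv.swap_apply_of_ne_of_ne h3.1 hij]
          simp [omε, hij, h3.1, hil]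
        have t2 : ε j = 1 := by
          simp only [ε]
          rw [Equiv.swap_apply_of_ne_of_ne h3.2 hjk, Equiv.swap_apply_right]
          simp [omε, hkj, hjk, h3.2]
        have t3 : ε k = 1 := by
          simp only [ε]
          rw [Equiv.swap_apply_right, Equiv.swap_apply_of_ne_of_ne hlk (Ne.symm h3.2)]
          simp [omε, Ne.symm h3.2, hlk, hkl]
        have t4 : ε l = -1 := by
          simp only [ε]
          rw [Equiv.swap_apply_left, Equiv.swap_apply_left]
          simp [omε]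
        -- action of h * h
        have hh : ∀ i' j' : Fin 5, i' ≠ j' → s (h * h) * x i' j' * (s (h * h))⁻¹ =
            x (σ (σ i')) (σ (σ j')) ^ (ε (σ i') * ε (σ j') * (ε i' * ε j')) := by
          intro i' j' hij'
          have hs' : σ i' ≠ σ j' := fun h' => hij' (σ.injective h')
          have e1 := equivariant X (Or.inr hB) s hs x hx h σ ε hε hσ i' j' hij'
          have e2 := equivariant X (Or.inr hB) s hs x hx h σ ε hε hσ (σ i') (σ j') hs'
          calc s (h * h) * x i' j' * (s (h * h))⁻¹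
              = s h * (s h * x i' j' * (s h)⁻¹) * (s h)⁻¹ := by rw [map_mul]; group
            _ = (s h * x (σ i') (σ j') * (s h)⁻¹) ^ (ε i' * ε j') := by rw [e1, conj_zpow]
            _ = _ := by rw [e2, ← zpow_mul]
        have a1 := hh i j hij
        have a2 := hh k l hkl
        simp only [s1, s2, s3, t1, t2, t3] at a1
        simp only [s3, s4, s1, t1, t3, t4] at a2
        rw [show ((1 : ℤ) * 1 * (1 * 1)) = 1 by norm_num, zpow_one] at a1
        rw [show ((-1 : ℤ) * 1 * (1 * -1)) = 1 by norm_num, zpow_one] at a2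
        -- h commutes with u m
        have hcomm : (h : SLn 5) * u m = u m * (h : SLn 5) := by
          have e1 := conj_dg hσ (prod_ue m)
          have e2 : (fun i => ue m (σ.symm i)) = ue m := by
            funext t
            unfold ue
            simp only [Equiv.symm_apply_eq, s5]
          rw [e2] at e1
          change (h : SLn 5) * u m * (h : SLn 5)⁻¹ = u m at e1
          rwa [mul_inv_eq_iff_eq_mul] at e1
        have hfixv := hB.2 m (h : SLn 5) h.2 hcomm v (hfix m h1 h2)
        have hSp : X.p (s (h * h)) = (h : SLn 5) * (h : SLn 5) := hs (h * h)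
        generalize s (h * h) = S at a1 a2 hSp
        have b1 : x k l * x i j = X.i v * (x i j * x k l) := by
          have e1 : S * (x i j * x k l) * S⁻¹ = x k l * x i j := by
            have : S * (x i j * x k l) * S⁻¹ = (S * x i j * S⁻¹) * (S * x k l * S⁻¹) := by group
            rw [this, a1, a2]
          have e2 : S * (X.i v * (x k l * x i j)) * S⁻¹ = X.i v * (x i j * x k l) := by
            have : S * (X.i v * (x k l * x i j)) * S⁻¹ =
              (S * X.i v) * S⁻¹ * ((S * x k l * S⁻¹) * (S * x i j * S⁻¹)) := by group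
            rw [this, X.conj, hSp, hfixv, mul_inv_cancel_right, a1, a2]
          calc x k l * x i j = S * (x i j * x k l) * S⁻¹ := e1.symm
            _ = S * (X.i v * (x k l * x i j)) * S⁻¹ := by rw [hv]
            _ = X.i v * (x i j * x k l) := e2
        have b2 : X.i 0 * (x k l * x i j) = X.i (v + v) * (x k l * x i j) := by
          rw [X.i_zero, one_mul, X.i_add, mul_assoc, ← hv]
          exact b1
        exact zero_of_neg (eq_neg_of_add_eq_zero_left (X.i_mul_cancel b2).symm)
    rw [hv, hv0, X.i_zero, one_mul]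

end

end Pool.Agent.Helper632
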