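import Mathlib
import Pool.Agent.Helper632.Rel2

set_option autoImplicit false

namespace Pool.Agent.Helper632

section

variable {E V : Type} [Group E] [AddCommGroup V] [Module ℚ V]

/-- the Steinberg relation -/
theorem rel_st (X : ExtData (SLn 5) E V) (hX : CaseA X ∨ CaseB X) (s : Fg 5 →* E)
    (hs : ∀ f : Fg 5, X.p (s f) = (f : SLn 5)) (x : Fin 5 → Fin 5 → E)
    (hx : ∀ i j, i ≠ j → X.p (x i j) = tv i j 1 ∧ Can s i j (x i j))
    (i j k : Fin 5) (hij : i ≠ j) (hjk : j ≠ k) (hik : i ≠ k) :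
    x i j * x j k = x i k * x j k * x i j := by
  have hp : tv i j 1 * tv j k 1 = tv i k 1 * tv j k 1 * tv i j 1 := by
    have h1 := tv_st (i := i) (j := j) (l := k) 1 1 hij hjk hik
    rw [mul_assoc (tv i k 1), h1, ← mul_assoc, ← mul_assoc, tv_mul hik]
    norm_num
    rw [tv_zero]
  obtain ⟨v, hv⟩ := X.exists_of_eq (y := x i j * x j k) (z := x i k * x j k * x i j)
    (by rw [map_mul, map_mul, map_mul, (hx i j hij).1, (hx j k hjk).1, (hx i k hik).1, hp])
  rcases hX with hA | hB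
  · obtain ⟨a, b, hab, h1, h2, h3⟩ := sep_D i j k hij hjk hik
    have c1 : s (dT a b hab : Fg 5) * x i j * (s (dT a b hab : Fg 5))⁻¹ = (x i j)⁻¹ := by
      rw [(hx i j hij).2 (dT a b hab), wt_dT, h1, zpow_neg_one]
    have c2 : s (dT a b hab : Fg 5) * x j k * (s (dT a b hab : Fg 5))⁻¹ = x j k := by
      rw [(hx j k hjk).2 (dT a b hab), wt_dT, h2, zpow_one]
    have c3 : s (dT a b hab : Fg 5) * x i k * (s (dT a b hab : Fg 5))⁻¹ = (x i k)⁻¹ := by
      rw [(hx i k hik).2 (dT a b hab), wt_dT, h3, zpow_neg_one]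
    have r1 := rel_comm X (Or.inl hA) s hs x hx i k j k hik hjk (Ne.symm hjk) hik
    have r2 := rel_comm X (Or.inl hA) s hs x hx i k i j hik hij (Ne.symm hik) hij
    generalize s (dT a b hab : Fg 5) = S at c1 c2 c3
    have hcen : ∀ (v : V) (w : E), w * X.i v = X.i v * w := by
      intro v w
      rw [X.conj, hA]; rfl
    generalize x i j = A at *
    generalize x j k = B at *
    generalize x i k = C at *
    -- hv : A * B = X.i v * (C * B * A)
    have e1 : A⁻¹ * B = X.i v * (C⁻¹ * B * A⁻¹) := by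
      have h4 : S * (A * B) * S⁻¹ = S * (X.i v * (C * B * A)) * S⁻¹ := by rw [hv]
      have h5 : S * (A * B) * S⁻¹ = (S * A * S⁻¹) * (S * B * S⁻¹) := by group
      have h6 : S * (X.i v * (C * B * A)) * S⁻¹ =
          (S * X.i v) * S⁻¹ * ((S * C * S⁻¹) * (S * B * S⁻¹) * (S * A * S⁻¹)) := by group
      rw [h5, h6, hcen v S, mul_inv_cancel_right, c1, c2, c3] at h4
      exact h4
    -- from hv: A⁻¹ * B = (X.i v)⁻¹ * C⁻¹ * B * A⁻¹
    have e2 : B * A⁻¹ = X.i v * (C * (A⁻¹ * B)) := by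
      have h7 : A⁻¹ * (A * B) * A⁻¹ = A⁻¹ * (X.i v * (C * B * A)) * A⁻¹ := by rw [hv]
      rw [inv_mul_cancel_left, ← mul_assoc A⁻¹, hcen] at h7
      rw [h7]
      have h8 : A⁻¹ * C = C * A⁻¹ := by
        rw [inv_mul_eq_iff_eq_mul, ← mul_assoc, ← r2]; group
      calc X.i v * A⁻¹ * (C * B * A) * A⁻¹ = X.i v * (A⁻¹ * C) * B := by group
        _ = X.i v * (C * (A⁻¹ * B)) := by rw [h8]; group
    have e3 : X.i 0 * (A⁻¹ * B) = X.i (v + v) * (A⁻¹ * B) := by
      rw [X.i_zero, one_mul, X.i_add]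
      calc A⁻¹ * B = X.i v * (C⁻¹ * (B * A⁻¹)) := by rw [e1]; group
        _ = X.i v * (C⁻¹ * (X.i v * (C * (A⁻¹ * B)))) := by rw [e2]
        _ = X.i v * ((C⁻¹ * X.i v) * (C * (A⁻¹ * B))) := by group
        _ = X.i v * X.i v * (A⁻¹ * B) := by rw [hcen]; group
    have h9 : v = 0 := zero_of_neg (eq_neg_of_add_eq_zero_left (X.i_mul_cancel e3).symm)
    rw [hv, h9, X.i_zero, one_mul]
  · obtain ⟨a, b, hab, h1, h2, h3, h4, h5, h6⟩ := sep_C i j k hij hjk hik
    have hfix : ∀ m : Fin 5, ue m i * ue m j = 1 → ue m j * ue m k = 1 → ue m i * ue m k = 1 →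
        X.ρ (u m) v = v := by
      intro m q1 q2 q3
      have e1 := conj_u_eq (hx i j hij).2 q1
      have e2 := conj_u_eq (hx j k hjk).2 q2
      have e3 := conj_u_eq (hx i k hik).2 q3
      rw [← p_uT X s hs m]
      apply fixed_of_conj X hv
      · calc s (uT m : Fg 5) * (x i j * x j k) * (s (uT m : Fg 5))⁻¹
            = (s (uT m : Fg 5) * x i j * (s (uT m : Fg 5))⁻¹) *
              (s (uT m : Fg 5) * x j k * (s (uT m : Fg 5))⁻¹) := by group
          _ = x i j * x j k := by rw [e1, e2]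
      · calc s (uT m : Fg 5) * (x i k * x j k * x i j) * (s (uT m : Fg 5))⁻¹
            = (s (uT m : Fg 5) * x i k * (s (uT m : Fg 5))⁻¹) *
              (s (uT m : Fg 5) * x j k * (s (uT m : Fg 5))⁻¹) *
              (s (uT m : Fg 5) * x i j * (s (uT m : Fg 5))⁻¹) := by group
          _ = x i k * x j k * x i j := by rw [e1, e2, e3]
    rw [hv, hB.1 a b hab v (hfix a h1 h3 h5) (hfix b h2 h4 h6), X.i_zero, one_mul]

/-- the Weyl group elements -/
theorem rel_w (X : ExtData (SLn 5) E V) (hX : CaseA X ∨ CaseB X) (s : Fg 5 →* E)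
    (hs : ∀ f : Fg 5, X.p (s f) = (f : SLn 5)) (x : Fin 5 → Fin 5 → E)
    (hx : ∀ i j, i ≠ j → X.p (x i j) = tv i j 1 ∧ Can s i j (x i j))
    (i j : Fin 5) (hij : i ≠ j) (f : Fg 5) (hf : (f : SLn 5) = om i j) :
    s f = x i j * (x j i)⁻¹ * x i j := by
  have hji := Ne.symm hij
  have hwt : ∀ t : Tg 5, wt t j i = wt t i j := by
    intro t; unfold wt; ring
  apply can_uniq X hX s hs hij
  · intro t
    have h1 : s (t : Fg 5) * s f * (s (t : Fg 5))⁻¹ = s ((t : Fg 5) * f * (t : Fg 5)⁻¹) := by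
      rw [map_mul, map_mul, map_inv]
    rw [h1, ← map_zpow]
    congr 1
    apply Subtype.ext
    change ((t : Fg 5) : SLn 5) * (f : SLn 5) * ((t : Fg 5) : SLn 5)⁻¹ = ((f ^ (wt t i j) : Fg 5) : SLn 5)
    have h2 : ((f ^ (wt t i j) : Fg 5) : SLn 5) = (om i j) ^ (wt t i j) := by
      rw [← hf]; rfl
    rw [h2, hf]
    have c1 := conj_T_tv t hij 1
    have c2 := conj_T_tv t hji 1
    rw [mul_one] at c1 c2
    rw [hwt] at c2
    generalize ((t : Fg 5) : SLn 5) = T at c1 c2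
    have h3 : T * om i j * T⁻¹ = (T * tv i j 1 * T⁻¹) * (T * tv j i 1 * T⁻¹)⁻¹ *
        (T * tv i j 1 * T⁻¹) := by
      unfold om; group
    rw [h3, c1, c2]
    rcases wt_unit t i j with he | he
    · rw [he, zpow_one]; rfl
    · rw [he, zpow_neg_one, tv_neg hij, tv_neg hji, om]; group
  · intro t
    have c1 := (hx i j hij).2 t
    have c2 := (hx j i hji).2 t
    rw [hwt] at c2
    have h3 : s (t : Fg 5) * (x i j * (x j i)⁻¹ * x i j) * (s (t : Fg 5))⁻¹ =
        (s (t : Fg 5) * x i j * (s (t : Fg 5))⁻¹) * (s (t : Fg 5) * x j i * (s (t : Fg 5))⁻¹)⁻¹ *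
        (s (t : Fg 5) * x i j * (s (t : Fg 5))⁻¹) := by group
    rw [h3, c1, c2]
    rcases wt_unit t i j with he | he
    · rw [he, zpow_one, zpow_one, zpow_one]
    · rw [he, zpow_neg_one, zpow_neg_one, zpow_neg_one]; group
  · rw [hs, hf, map_mul, map_mul, map_inv, (hx i j hij).1, (hx j i hji).1]; rfl

/-- the extension splits -/
theorem splits (X : ExtData (SLn 5) E V) (hX : CaseA X ∨ CaseB X) :
    ∃ t : SLn 5 →* E, ∀ g, X.p (t g) = g := by
  obtain ⟨s, hs⟩ := X.lift_finite (Fg 5)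
  obtain ⟨x, hx⟩ := exists_lifts X s hs
  let D : StData 5 E :=
    { π := X.p
      x := x
      s := s
      hx := fun i j hij => (hx i j hij).1
      hs := hs
      hcomm := fun i j k l h1 h2 h3 h4 => rel_comm X hX s hs x hx i j k l h1 h2 h3 h4
      hst := fun i j k h1 h2 h3 => rel_st X hX s hs x hx i j k h1 h2 h3
      hF := fun f σ ε hε h i j hij => equivariant X hX s hs x hx f σ ε hε h i j hij
      hw := fun i j hij f hf => rel_w X hX s hs x hx i j hij f hf }
  exact D.exists_section (by norm_num)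

end

end Pool.Agent.Helper632
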