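import Mathlib
import Pool.Agent.Helper632.Rel3

set_option autoImplicit false

namespace Pool.Agent.Helper632

/-- data extracted from an extension of `SL_5(ℤ)` by `ℤ^5` -/
structure IntExt (G : Type) [Group G] where
  π : G →* SLn 5
  π_surj : Function.Surjective π
  j : (Fin 5 → ℤ) → G
  j_add : ∀ w w', j (w + w') = j w * j w'
  j_inj : Function.Injective j
  j_ker : ∀ g, π g = 1 ↔ ∃ w, j w = g
  A : G →* Module.End ℤ (Fin 5 → ℤ)
  conj : ∀ g w, g * j w * g⁻¹ = j (A g w)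

/-- inclusion of the lattice in the rational space -/
def iota (w : Fin 5 → ℤ) : Fin 5 → ℚ := fun k => (w k : ℚ)

theorem iota_add (w w' : Fin 5 → ℤ) : iota (w + w') = iota w + iota w' := by
  ext k; simp [iota]

theorem iota_neg (w : Fin 5 → ℤ) : iota (-w) = -iota w := by
  ext k; simp [iota]

theorem iota_zero : iota 0 = 0 := by
  ext k; simp [iota]

theorem iota_inj : Function.Injective iota := by
  intro w w' h
  ext k
  have := congrFun h k
  simpa [iota] using this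

namespace IntExt

variable {G : Type} [Group G] (I : IntExt G)

theorem j_zero : I.j 0 = 1 := by
  have h := I.j_add 0 0
  rw [add_zero] at h
  exact (mul_eq_left.mp h.symm)

theorem j_neg (w : Fin 5 → ℤ) : I.j (-w) = (I.j w)⁻¹ := by
  rw [eq_inv_iff_mul_eq_one, ← I.j_add, neg_add_cancel, I.j_zero]

theorem π_j (w : Fin 5 → ℤ) : I.π (I.j w) = 1 := (I.j_ker _).mpr ⟨w, rfl⟩

theorem A_j (w : Fin 5 → ℤ) : I.A (I.j w) = 1 := by
  apply LinearMap.ext
  intro w'
  apply I.j_inj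
  rw [← I.conj, Module.End.one_apply, ← I.j_neg, ← I.j_add, ← I.j_add]
  congr 1
  abel

/-- matrix of the action -/
noncomputable def M : G →* Matrix (Fin 5) (Fin 5) ℤ :=
  ((LinearMap.toMatrixAlgEquiv' : _ ≃ₐ[ℤ] Matrix (Fin 5) (Fin 5) ℤ) :
    Module.End ℤ (Fin 5 → ℤ) →* Matrix (Fin 5) (Fin 5) ℤ).comp I.A

theorem M_mulVec (g : G) (w : Fin 5 → ℤ) : (I.M g).mulVec w = I.A g w := by
  change Matrix.toLinAlgEquiv' (LinearMap.toMatrixAlgEquiv' (I.A g)) w = I.A g w
  rw [Matrix.toLinAlgEquiv'_toMatrixAlgEquiv']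

theorem M_j (w : Fin 5 → ℤ) : I.M (I.j w) = 1 := by
  unfold M
  rw [MonoidHom.comp_apply, I.A_j, map_one]

/-- the rational action of `G` -/
noncomputable def R : G →* Module.End ℚ (Fin 5 → ℚ) :=
  ((Matrix.toLinAlgEquiv' : Matrix (Fin 5) (Fin 5) ℚ ≃ₐ[ℚ] _) :
    Matrix (Fin 5) (Fin 5) ℚ →* Module.End ℚ (Fin 5 → ℚ)).comp
    (((Int.castRingHom ℚ).mapMatrix : Matrix (Fin 5) (Fin 5) ℤ →+* Matrix (Fin 5) (Fin 5) ℚ) :
      Matrix (Fin 5) (Fin 5) ℤ →* Matrix (Fin 5) (Fin 5) ℚ) |>.comp I.M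

theorem R_apply (g : G) (v : Fin 5 → ℚ) :
    I.R g v = ((I.M g).map (Int.castRingHom ℚ)).mulVec v := rfl

theorem R_iota (g : G) (w : Fin 5 → ℤ) : I.R g (iota w) = iota (I.A g w) := by
  rw [R_apply, ← I.M_mulVec]
  have : iota w = (Int.castRingHom ℚ) ∘ w := rfl
  rw [this]
  ext k
  rw [← RingHom.map_mulVec]
  rfl

theorem R_j (w : Fin 5 → ℤ) : I.R (I.j w) = 1 := by
  unfold R
  rw [MonoidHom.comp_apply, I.M_j, map_one]

theorem R_of_π {g g' : G} (h : I.π g = I.π g') : I.R g = I.R g' := by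
  obtain ⟨w, hw⟩ := (I.j_ker (g * g'⁻¹)).mp (by rw [map_mul, map_inv, h, mul_inv_cancel])
  have h1 : g = I.j w * g' := by rw [hw]; group
  rw [h1, map_mul, I.R_j, one_mul]

/-- the rational action of the quotient -/
noncomputable def ρ : SLn 5 →* Module.End ℚ (Fin 5 → ℚ) where
  toFun γ := I.R (I.π_surj γ).choose
  map_one' := by
    have h := (I.π_surj 1).choose_spec
    rw [← map_one I.R]
    exact I.R_of_π (by rw [h, map_one])
  map_mul' a b := by
    have h1 := (I.π_surj a).choose_spec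
    have h2 := (I.π_surj b).choose_spec
    have h3 := (I.π_surj (a * b)).choose_spec
    rw [← map_mul]
    exact I.R_of_π (by rw [h3, map_mul, h1, h2])

theorem ρ_π (g : G) : I.ρ (I.π g) = I.R g :=
  I.R_of_π (I.π_surj (I.π g)).choose_spec

/-- the group `V × G` with twisted multiplication -/
@[ext]
structure VG (I : IntExt G) where
  v : Fin 5 → ℚ
  g : G

noncomputable instance : Mul (VG I) := ⟨fun a b => ⟨a.v + I.R a.g b.v, a.g * b.g⟩⟩
instance : One (VG I) := ⟨⟨0, 1⟩⟩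
noncomputable instance : Inv (VG I) := ⟨fun a => ⟨-(I.R a.g⁻¹ a.v), a.g⁻¹⟩⟩

theorem VG.mul_v (a b : VG I) : (a * b).v = a.v + I.R a.g b.v := rfl
theorem VG.mul_g (a b : VG I) : (a * b).g = a.g * b.g := rfl
theorem VG.one_v : (1 : VG I).v = 0 := rfl
theorem VG.one_g : (1 : VG I).g = 1 := rfl
theorem VG.inv_v (a : VG I) : (a⁻¹).v = -(I.R a.g⁻¹ a.v) := rfl
theorem VG.inv_g (a : VG I) : (a⁻¹).g = a.g⁻¹ := rfl

noncomputable instance : Group (VG I) :=
  Group.ofLeftAxioms
    (by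
      intro a b c
      apply VG.ext
      · rw [VG.mul_v, VG.mul_v, VG.mul_v, VG.mul_v, VG.mul_g, map_mul, map_add, add_assoc]
        rfl
      · rw [VG.mul_g, VG.mul_g, VG.mul_g, VG.mul_g, mul_assoc])
    (by
      intro a
      apply VG.ext
      · rw [VG.mul_v, VG.one_v, VG.one_g, map_one, zero_add]; rfl
      · rw [VG.mul_g, VG.one_g, one_mul])
    (by
      intro a
      apply VG.ext
      · rw [VG.mul_v, VG.inv_v, VG.inv_g, neg_add_cancel]; rfl
      · rw [VG.mul_g, VG.inv_g, inv_mul_cancel]; rfl)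

/-- the antidiagonal copy of the lattice -/
def K : Subgroup (VG I) where
  carrier := {x | ∃ w, x = ⟨-(iota w), I.j w⟩}
  one_mem' := ⟨0, by
    apply VG.ext
    · change (0 : Fin 5 → ℚ) = -(iota 0)
      rw [iota_zero, neg_zero]
    · change (1 : G) = I.j 0
      rw [I.j_zero]⟩
  mul_mem' := by
    rintro a b ⟨w, rfl⟩ ⟨w', rfl⟩
    refine ⟨w + w', ?_⟩
    apply VG.ext
    · change -(iota w) + I.R (I.j w) (-(iota w')) = -(iota (w + w'))
      rw [I.R_j, iota_add, Module.End.one_apply]; abel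
    · change I.j w * I.j w' = I.j (w + w')
      rw [I.j_add]
  inv_mem' := by
    rintro a ⟨w, rfl⟩
    refine ⟨-w, ?_⟩
    apply VG.ext
    · change -(I.R (I.j w)⁻¹ (-(iota w))) = -(iota (-w))
      rw [← I.j_neg, I.R_j, iota_neg, Module.End.one_apply]
    · change (I.j w)⁻¹ = I.j (-w)
      rw [I.j_neg]

instance K_normal : (I.K).Normal := by
  constructor
  rintro a ⟨w, rfl⟩ b
  refine ⟨I.A b.g w, ?_⟩
  apply VG.ext
  · change (b.v + I.R b.g (-(iota w))) + I.R (b.g * I.j w) (-(I.R b.g⁻¹ b.v)) = -(iota (I.A b.g w))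
    have h1 : I.R (b.g * I.j w) (-(I.R b.g⁻¹ b.v)) = -b.v := by
      rw [map_mul, I.R_j, mul_one, map_neg]
      have : I.R b.g (I.R b.g⁻¹ b.v) = b.v := by
        rw [← Module.End.mul_apply, ← map_mul, mul_inv_cancel, map_one]; rfl
      rw [this]
    rw [h1, map_neg, I.R_iota]
    abel
  · change b.g * I.j w * b.g⁻¹ = I.j (I.A b.g w)
    exact I.conj b.g w

theorem mem_K {x : VG I} : x ∈ I.K ↔ ∃ w, x = ⟨-(iota w), I.j w⟩ := Iff.rfl

/-- the projection of `VG` -/
def pV : VG I →* SLn 5 where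
  toFun x := I.π x.g
  map_one' := by rw [VG.one_g, map_one]
  map_mul' a b := by rw [VG.mul_g, map_mul]

theorem K_le : I.K ≤ (I.pV).ker := by
  rintro x ⟨w, rfl⟩
  exact I.π_j w

/-- the rational extension -/
noncomputable def X : ExtData (SLn 5) (VG I ⧸ I.K) (Fin 5 → ℚ) where
  p := QuotientGroup.lift I.K I.pV I.K_le
  i v := ((⟨v, 1⟩ : VG I) : VG I ⧸ I.K)
  ρ := I.ρ
  i_add v w := by
    rw [← QuotientGroup.mk_mul]
    congr 1
    apply VG.ext
    · change v + w = v + I.R 1 w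
      rw [map_one]; rfl
    · change (1 : G) = 1 * 1
      rw [mul_one]
  i_inj := by
    intro v w h
    have h1 := QuotientGroup.eq.mp h
    obtain ⟨z, hz⟩ := h1
    have h2 : (1 : G)⁻¹ * 1 = I.j z := congrArg VG.g hz
    rw [inv_one, mul_one] at h2
    have h3 : z = 0 := I.j_inj (by rw [← h2, I.j_zero])
    have h4 : -(I.R (1 : G)⁻¹ v) + I.R (1 : G)⁻¹ w = -(iota z) := congrArg VG.v hz
    rw [inv_one, map_one, h3, iota_zero, neg_zero, Module.End.one_apply, Module.End.one_apply] at h4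
    exact (neg_add_eq_zero.mp h4)
  p_surj := by
    intro γ
    obtain ⟨g, hg⟩ := I.π_surj γ
    exact ⟨((⟨0, g⟩ : VG I) : VG I ⧸ I.K), hg⟩
  p_i v := by
    change I.π 1 = 1
    exact map_one I.π
  ker := by
    intro y hy
    obtain ⟨⟨v, g⟩, rfl⟩ := QuotientGroup.mk_surjective y
    have h1 : I.π g = 1 := hy
    obtain ⟨w, hw⟩ := (I.j_ker g).mp h1
    refine ⟨v + iota w, ?_⟩
    rw [QuotientGroup.eq]
    refine ⟨w, ?_⟩
    apply VG.ext
    · change -(I.R (1 : G)⁻¹ (v + iota w)) + I.R (1 : G)⁻¹ v = -(iota w)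
      rw [inv_one, map_one, Module.End.one_apply, Module.End.one_apply]; abel
    · change (1 : G)⁻¹ * g = I.j w
      rw [inv_one, one_mul, hw]
  conj := by
    intro y v
    obtain ⟨⟨v', g⟩, rfl⟩ := QuotientGroup.mk_surjective y
    have h1 : QuotientGroup.lift I.K I.pV I.K_le ((⟨v', g⟩ : VG I) : VG I ⧸ I.K) = I.π g := rfl
    rw [h1, I.ρ_π, ← QuotientGroup.mk_mul, ← QuotientGroup.mk_mul]
    congr 1
    apply VG.ext
    · change v' + I.R g v = I.R g v + I.R 1 v'
      rw [map_one, Module.End.one_apply, add_comm]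
    · change g * 1 = 1 * g
      rw [mul_one, one_mul]

/-- the comparison map -/
noncomputable def kap : G →* (VG I ⧸ I.K) where
  toFun g := ((⟨0, g⟩ : VG I) : VG I ⧸ I.K)
  map_one' := rfl
  map_mul' a b := by
    rw [← QuotientGroup.mk_mul]
    congr 1
    apply VG.ext
    · change (0 : Fin 5 → ℚ) = 0 + I.R a 0
      rw [map_zero, add_zero]
    · rfl

theorem kap_j (w : Fin 5 → ℤ) : I.kap (I.j w) = I.X.i (iota w) := by
  change ((⟨0, I.j w⟩ : VG I) : VG I ⧸ I.K) = ((⟨iota w, 1⟩ : VG I) : VG I ⧸ I.K)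
  symm
  rw [QuotientGroup.eq]
  refine ⟨w, ?_⟩
  apply VG.ext
  · change -(I.R (1 : G)⁻¹ (iota w)) + I.R (1 : G)⁻¹ 0 = -(iota w)
    rw [inv_one, map_one, map_zero, add_zero, Module.End.one_apply]
  · change (1 : G)⁻¹ * I.j w = I.j w
    rw [inv_one, one_mul]

/-- there is a rational crossed homomorphism extending the identity of the lattice -/
theorem exists_crossed : ∃ f : G → (Fin 5 → ℚ), (∀ g h, f (g * h) = f g + I.R g (f h)) ∧
    ∀ w, f (I.j w) = iota w := by
  have hfin : Module.finrank ℚ (Fin 5 → ℚ) = 5 := by simp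
  obtain ⟨t, ht⟩ := splits I.X (dichotomy I.ρ hfin)
  have h1 : ∀ g : G, ∃ v, I.kap g = I.X.i v * t (I.π g) := by
    intro g
    apply I.X.exists_of_eq
    rw [ht]
    rfl
  choose f hf using h1
  refine ⟨f, ?_, ?_⟩
  · intro g h
    have e : I.X.i (f (g * h)) * t (I.π (g * h)) =
        I.X.i (f g + I.R g (f h)) * t (I.π (g * h)) := by
      rw [← hf, map_mul, hf g, hf h, I.X.i_add]
      have e2 := I.X.conj (t (I.π g)) (f h)
      rw [ht] at e2
      have e3 : I.X.ρ (I.π g) = I.R g := I.ρ_π g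
      rw [e3] at e2
      calc I.X.i (f g) * t (I.π g) * (I.X.i (f h) * t (I.π h))
          = I.X.i (f g) * (t (I.π g) * I.X.i (f h)) * t (I.π h) := by group
        _ = I.X.i (f g) * (I.X.i (I.R g (f h)) * t (I.π g)) * t (I.π h) := by rw [e2]
        _ = I.X.i (f g) * I.X.i (I.R g (f h)) * t (I.π (g * h)) := by
            rw [map_mul, map_mul]; group
    exact I.X.i_mul_cancel e
  · intro w
    have e := hf (I.j w)
    rw [I.kap_j, I.π_j, map_one, mul_one] at e
    exact (I.X.i_inj e).symm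

end IntExt

end Pool.Agent.Helper632
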