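import Mathlib
import Pool.Agent.Helper632.RF

set_option autoImplicit false

namespace Pool.Agent.Helper632

/-- a rational vector has a common denominator -/
theorem exists_den (v : Fin 5 → ℚ) : ∃ m : ℕ, 0 < m ∧ ∃ z : Fin 5 → ℤ, (m : ℚ) • v = iota z := by
  refine ⟨∏ k, (v k).den, Finset.prod_pos (fun k _ => (v k).den_pos), ?_⟩
  have h : ∀ k, ∃ z : ℤ, ((∏ k, (v k).den : ℕ) : ℚ) * v k = z := by
    intro k
    refine ⟨(∏ l ∈ Finset.univ.erase k, ((v l).den : ℤ)) * (v k).num, ?_⟩
    rw [← Finset.mul_prod_erase _ _ (Finset.mem_univ k)]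
    push_cast
    have h1 : ((v k).den : ℚ) * v k = (v k).num := by
      rw [mul_comm]; exact Rat.mul_den_eq_num (v k)
    rw [← h1]; ring
  choose z hz using h
  refine ⟨z, ?_⟩
  ext k
  simp only [Pi.smul_apply, smul_eq_mul, iota]
  exact hz k

namespace IntExt

variable {G : Type} [Group G] (I : IntExt G)

/-- bounded denominators -/
theorem exists_int_crossed : ∃ (m : ℤ) (_ : m ≠ 0) (F : G → (Fin 5 → ℤ)),
    (∀ g h, F (g * h) = F g + I.A g (F h)) ∧ ∀ w, F (I.j w) = m • w := by
  obtain ⟨f, hf1, hf2⟩ := I.exists_crossed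
  have hlift : ∀ p : Fin 5 × Fin 5, ∃ g : G, I.π g = tv p.1 p.2 1 := fun p => I.π_surj _
  choose g0 hg0 using hlift
  choose d hd0 z hz using fun p : Fin 5 × Fin 5 => exists_den (f (g0 p))
  obtain ⟨m, hm, hdm⟩ : ∃ m : ℕ, m ≠ 0 ∧ ∀ p, d p ∣ m :=
    ⟨∏ p, d p, Finset.prod_ne_zero_iff.mpr (fun p _ => by have := hd0 p; omega),
      fun p => Finset.dvd_prod_of_mem d (Finset.mem_univ p)⟩
  -- the subgroup of elements with integral value
  have hf_one : f 1 = 0 := by
    have := hf1 1 1
    rw [mul_one, map_one, Module.End.one_apply] at this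
    exact left_eq_add.mp this
  let S : Subgroup G :=
    { carrier := {g | ∃ z : Fin 5 → ℤ, (m : ℚ) • f g = iota z}
      one_mem' := ⟨0, by rw [hf_one, smul_zero, iota_zero]⟩
      mul_mem' := by
        rintro a b ⟨z1, h1⟩ ⟨z2, h2⟩
        refine ⟨z1 + I.A a z2, ?_⟩
        rw [hf1, smul_add, h1, iota_add, ← I.R_iota, ← h2, LinearMap.map_smul]
      inv_mem' := by
        rintro a ⟨z1, h1⟩
        refine ⟨-(I.A a⁻¹ z1), ?_⟩
        have h3 := hf1 a⁻¹ a
        rw [inv_mul_cancel, hf_one] at h3
        have h4 : f a⁻¹ = -(I.R a⁻¹ (f a)) := eq_neg_of_add_eq_zero_left h3.symm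
        rw [h4, iota_neg, ← I.R_iota, ← h1, LinearMap.map_smul, smul_neg] }
  have hS : S = ⊤ := by
    have h1 : ∀ w, I.j w ∈ S := by
      intro w
      refine ⟨(m : ℤ) • w, ?_⟩
      rw [hf2]
      ext k
      simp [iota]
    have h2 : ∀ p, g0 p ∈ S := by
      intro p
      obtain ⟨c, hc⟩ : d p ∣ m := hdm p
      refine ⟨(c : ℤ) • z p, ?_⟩
      rw [hc]
      have h3 := hz p
      ext k
      have h4 := congrFun h3 k
      simp only [Pi.smul_apply, smul_eq_mul, iota] at h4 ⊢
      push_cast
      rw [← h4]; ring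
    have h3 : S.map I.π = ⊤ := by
      rw [eq_top_iff, ← closure_tv, Subgroup.closure_le]
      rintro y ⟨i, j, hij, rfl⟩
      exact ⟨g0 (i, j), h2 (i, j), hg0 (i, j)⟩
    rw [eq_top_iff]
    intro g _
    have h4 : I.π g ∈ S.map I.π := by rw [h3]; exact Subgroup.mem_top _
    obtain ⟨a, ha, hag⟩ := h4
    obtain ⟨w, hw⟩ := (I.j_ker (g * a⁻¹)).mp (by rw [map_mul, map_inv, hag, mul_inv_cancel])
    have h5 : g = I.j w * a := by rw [hw]; group
    rw [h5]
    exact S.mul_mem (h1 w) ha
  have hF : ∀ g, ∃ z : Fin 5 → ℤ, (m : ℚ) • f g = iota z := by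
    intro g
    have : g ∈ S := by rw [hS]; exact Subgroup.mem_top g
    exact this
  choose F hF using hF
  refine ⟨(m : ℤ), by exact_mod_cast hm, F, ?_, ?_⟩
  · intro a b
    apply iota_inj
    rw [← hF, hf1, smul_add, hF a, iota_add, ← I.R_iota, ← hF b, LinearMap.map_smul]
  · intro w
    apply iota_inj
    rw [← hF, hf2]
    ext k
    simp [iota]

include I in
/-- residual finiteness -/
theorem residually_finite (g : G) (hg : g ≠ 1) : ∃ H : Subgroup G, H.FiniteIndex ∧ g ∉ H := by
  by_cases hπ : I.π g = 1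
  · obtain ⟨w, rfl⟩ := (I.j_ker g).mp hπ
    have hw : w ≠ 0 := by
      rintro rfl
      exact hg I.j_zero
    obtain ⟨k, hk⟩ := Function.ne_iff.mp hw
    simp only [Pi.zero_apply] at hk
    obtain ⟨m, hm, F, hF1, hF2⟩ := I.exists_int_crossed
    have hmk : m * w k ≠ 0 := mul_ne_zero hm hk
    let q : ℕ := (m * w k).natAbs + 1
    have : NeZero q := ⟨by omega⟩
    let red : (Fin 5 → ℤ) → (Fin 5 → ZMod q) := fun v => fun t => ((v t : ℤ) : ZMod q)
    let B : G → Matrix (Fin 5) (Fin 5) (ZMod q) := fun g => (Int.castRingHom (ZMod q)).mapMatrix (I.M g)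
    have hB1 : B 1 = 1 := by simp only [B]; rw [map_one, map_one]
    have hB2 : ∀ a b, B (a * b) = B a * B b := by intro a b; simp only [B]; rw [map_mul, map_mul]
    have hBr : ∀ a v, (B a).mulVec (red v) = red (I.A a v) := by
      intro a v
      rw [← I.M_mulVec]
      ext t
      have := RingHom.map_mulVec (Int.castRingHom (ZMod q)) (I.M a) v t
      exact this.symm
    have hr_add : ∀ v v', red (v + v') = red v + red v' := by
      intro v v'
      ext t
      simp [red]
    have hF0 : F 1 = 0 := by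
      have := hF1 1 1
      rw [mul_one, map_one, Module.End.one_apply] at this
      exact left_eq_add.mp this
    let θ : G →* Equiv.Perm (Fin 5 → ZMod q) :=
      { toFun := fun a =>
          { toFun := fun x => (B a).mulVec x + red (F a)
            invFun := fun x => (B a⁻¹).mulVec x + red (F a⁻¹)
            left_inv := by
              intro x
              change (B a⁻¹).mulVec ((B a).mulVec x + red (F a)) + red (F a⁻¹) = x
              rw [Matrix.mulVec_add, Matrix.mulVec_mulVec, ← hB2, inv_mul_cancel, hB1,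
                Matrix.one_mulVec, hBr, add_assoc, ← hr_add]
              have : I.A a⁻¹ (F a) + F a⁻¹ = 0 := by
                rw [add_comm, ← hF1, inv_mul_cancel, hF0]
              rw [this]
              ext t; simp [red]
            right_inv := by
              intro x
              change (B a).mulVec ((B a⁻¹).mulVec x + red (F a⁻¹)) + red (F a) = x
              rw [Matrix.mulVec_add, Matrix.mulVec_mulVec, ← hB2, mul_inv_cancel, hB1,
                Matrix.one_mulVec, hBr, add_assoc, ← hr_add]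
              have : I.A a (F a⁻¹) + F a = 0 := by
                rw [add_comm, ← hF1, mul_inv_cancel, hF0]
              rw [this]
              ext t; simp [red] }
        map_one' := by
          ext x t
          change ((B 1).mulVec x + red (F 1)) t = x t
          rw [hB1, Matrix.one_mulVec, hF0]
          simp [red]
        map_mul' := by
          intro a b
          ext x t
          change ((B (a * b)).mulVec x + red (F (a * b))) t =
            ((B a).mulVec ((B b).mulVec x + red (F b)) + red (F a)) t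
          rw [hB2, hF1, hr_add, Matrix.mulVec_add, Matrix.mulVec_mulVec, hBr]
          simp only [Pi.add_apply]
          ring }
    refine ⟨θ.ker, Subgroup.finiteIndex_ker θ, ?_⟩
    intro hmem
    have h1 : θ (I.j w) = 1 := hmem
    have h2 : θ (I.j w) 0 = 0 := by rw [h1]; rfl
    have h3 : (B (I.j w)).mulVec 0 + red (F (I.j w)) = 0 := h2
    rw [Matrix.mulVec_zero, zero_add, hF2] at h3
    have h4 := congrFun h3 k
    have h5 : ((m * w k : ℤ) : ZMod q) = 0 := by
      simpa [red] using h4
    rw [ZMod.intCast_zmod_eq_zero_iff_dvd] at h5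
    have h6 := Int.natAbs_dvd_natAbs.mpr h5
    have h7 := Nat.le_of_dvd (Int.natAbs_pos.mpr hmk) h6
    simp only [q, Int.natAbs_natCast] at h7
    omega
  · -- detected in SL_5
    have h1 : ∃ i k, mat (I.π g) i k ≠ (1 : Matrix (Fin 5) (Fin 5) ℤ) i k := by
      by_contra hcon
      push Not at hcon
      apply hπ
      apply mat_injective
      rw [mat_one]
      ext i k
      exact hcon i k
    obtain ⟨i, k, hik⟩ := h1
    let q : ℕ := (mat (I.π g) i k - (1 : Matrix (Fin 5) (Fin 5) ℤ) i k).natAbs + 1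
    have : NeZero q := ⟨by omega⟩
    let θ : G →* Matrix.SpecialLinearGroup (Fin 5) (ZMod q) :=
      (Matrix.SpecialLinearGroup.map (Int.castRingHom (ZMod q))).comp I.π
    refine ⟨θ.ker, Subgroup.finiteIndex_ker θ, ?_⟩
    intro hmem
    have h2 : θ g = 1 := hmem
    have h3 : ((mat (I.π g) i k : ℤ) : ZMod q) = (((1 : Matrix (Fin 5) (Fin 5) ℤ) i k : ℤ) : ZMod q) := by
      have h4 : (θ g).1 i k = (1 : Matrix (Fin 5) (Fin 5) (ZMod q)) i k := by rw [h2]; rfl
      have h5 : (θ g).1 i k = ((mat (I.π g) i k : ℤ) : ZMod q) := rfl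
      rw [h5] at h4
      rw [h4, Matrix.one_apply, Matrix.one_apply]
      split_ifs <;> simp
    rw [ZMod.intCast_eq_intCast_iff_dvd_sub] at h3
    have h6 := Int.natAbs_dvd_natAbs.mpr h3
    have h8 : ((1 : Matrix (Fin 5) (Fin 5) ℤ) i k - mat (I.π g) i k).natAbs =
        (mat (I.π g) i k - (1 : Matrix (Fin 5) (Fin 5) ℤ) i k).natAbs := by omega
    rw [h8] at h6
    have h7 := Nat.le_of_dvd (Int.natAbs_pos.mpr (sub_ne_zero.mpr hik)) h6
    simp only [q, Int.natAbs_natCast] at h7
    omega

end IntExt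

/-- every extension of `SL_5(ℤ)` by `ℤ^5` gives the data -/
theorem exists_intExt (G : Type) [Group G] (N : Subgroup G) [N.Normal]
    (e : N ≃* Multiplicative (Fin 5 → ℤ))
    (q : G ⧸ N ≃* Matrix.SpecialLinearGroup (Fin 5) ℤ) : Nonempty (IntExt G) := by
  let j : (Fin 5 → ℤ) → G := fun w => ((e.symm (Multiplicative.ofAdd w) : N) : G)
  let ν : N → (Fin 5 → ℤ) := fun n => Multiplicative.toAdd (e n)
  have hjν : ∀ n : N, j (ν n) = n := by
    intro n
    simp only [j, ν, ofAdd_toAdd, MulEquiv.symm_apply_apply]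
  have hj_add : ∀ w w', j (w + w') = j w * j w' := by
    intro w w'
    simp only [j, ofAdd_add, map_mul, Subgroup.coe_mul]
  have hj_inj : Function.Injective j := by
    intro w w' h
    have h1 : e.symm (Multiplicative.ofAdd w) = e.symm (Multiplicative.ofAdd w') := Subtype.ext h
    exact Multiplicative.ofAdd.injective (e.symm.injective h1)
  let π : G →* SLn 5 := (q : G ⧸ N →* SLn 5).comp (QuotientGroup.mk' N)
  have hπ : ∀ g, π g = 1 ↔ g ∈ N := by
    intro g
    change q (g : G ⧸ N) = 1 ↔ g ∈ N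
    rw [MulEquiv.map_eq_one_iff, QuotientGroup.eq_one_iff]
  have hconj : ∀ (g : G) (w : Fin 5 → ℤ), g * j w * g⁻¹ ∈ N := by
    intro g w
    exact ‹N.Normal›.conj_mem _ (e.symm (Multiplicative.ofAdd w)).2 g
  let a : G → (Fin 5 → ℤ) → (Fin 5 → ℤ) := fun g w => ν ⟨g * j w * g⁻¹, hconj g w⟩
  have ha : ∀ g w, j (a g w) = g * j w * g⁻¹ := fun g w => hjν _
  have ha_add : ∀ g w w', a g (w + w') = a g w + a g w' := by
    intro g w w'
    apply hj_inj
    rw [ha, hj_add, hj_add, ha, ha]; group
  refine ⟨{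
    π := π
    π_surj := ?_
    j := j
    j_add := hj_add
    j_inj := hj_inj
    j_ker := ?_
    A := {
      toFun := fun g => (AddMonoidHom.mk' (a g) (ha_add g)).toIntLinearMap
      map_one' := ?_
      map_mul' := ?_ }
    conj := fun g w => (ha g w).symm }⟩
  · exact q.surjective.comp (QuotientGroup.mk'_surjective N)
  · intro g
    rw [hπ]
    constructor
    · intro hg
      exact ⟨ν ⟨g, hg⟩, hjν _⟩
    · rintro ⟨w, rfl⟩
      exact (e.symm (Multiplicative.ofAdd w)).2
  · apply LinearMap.ext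
    intro w
    apply hj_inj
    change j (a 1 w) = j w
    rw [ha]; group
  · intro g h
    apply LinearMap.ext
    intro w
    apply hj_inj
    change j (a (g * h) w) = j (a g (a h w))
    rw [ha, ha, ha]; group

end Pool.Agent.Helper632
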